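import Mathlib

set_option autoImplicit false

open Set

namespace Pool.Agent.H282Z

theorem floor_mem_Icc (C ρ z : ℝ) (hρ : 0 < ρ) (hz : |z| ≤ C) :
    ⌊z / ρ⌋ ∈ Finset.Icc (-(⌈C / ρ⌉)) (⌈C / ρ⌉) := by
  rw [Finset.mem_Icc]
  have h1 : z / ρ ≤ C / ρ := div_le_div_of_nonneg_right (le_of_abs_le hz) hρ.le
  have h2 : -(C / ρ) ≤ z / ρ := by
    rw [← neg_div]
    exact div_le_div_of_nonneg_right (neg_le_of_abs_le hz) hρ.le
  constructor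
  · rw [Int.le_floor]
    push_cast
    have := Int.le_ceil (C / ρ)
    linarith
  · exact (Int.floor_le_floor h1).trans (Int.floor_le_ceil _)

theorem card_Icc_le (C ρ : ℝ) (hC : 0 ≤ C) (hρ : 0 < ρ) (hρ1 : ρ ≤ 1) :
    ((Finset.Icc (-(⌈C / ρ⌉)) (⌈C / ρ⌉)).card : ℝ) ≤ (2 * C + 3) / ρ := by
  have h0 : 0 ≤ ⌈C / ρ⌉ := Int.ceil_nonneg (by positivity)
  have h1 : ((Finset.Icc (-(⌈C / ρ⌉)) (⌈C / ρ⌉)).card : ℤ) = 2 * ⌈C / ρ⌉ + 1 := by
    rw [Int.card_Icc, Int.toNat_of_nonneg (by omega)]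
    ring
  have h2 : ((Finset.Icc (-(⌈C / ρ⌉)) (⌈C / ρ⌉)).card : ℝ) = 2 * (⌈C / ρ⌉ : ℝ) + 1 := by
    exact_mod_cast h1
  rw [h2]
  have h3 := Int.ceil_lt_add_one (C / ρ)
  have h4 : (3 : ℝ) ≤ 3 / ρ := by
    rw [le_div_iff₀ hρ]
    linarith
  have h5 : (2 * C + 3) / ρ = 2 * (C / ρ) + 3 / ρ := by ring
  linarith

theorem abs_sub_lt_of_floor_eq (ρ z w : ℝ) (hρ : 0 < ρ) (h : ⌊z / ρ⌋ = ⌊w / ρ⌋) :
    |z - w| < ρ := by
  have h1 := Int.abs_sub_lt_one_of_floor_eq_floor h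
  rw [← sub_div, abs_div, abs_of_pos hρ, div_lt_one hρ] at h1
  exact h1

/-- Dirichlet's theorem for an anisotropic box in arbitrary linear coordinates. -/
theorem dirichlet_box {n d k : ℕ} (Φ : (Fin n → ℝ) →L[ℝ] (Fin d → ℝ) × (Fin k → ℝ))
    (x : Fin n → ℝ) (ρ σ : ℝ) (hρ : 0 < ρ) (hρ1 : ρ ≤ 1) (hσ : 0 < σ) (hσ1 : σ ≤ 1) (T : ℕ)
    (hT : ((2 * ‖Φ‖ + 3) / ρ) ^ d * ((2 * ‖Φ‖ + 3) / σ) ^ k < T) :
    ∃ q : ℕ, 1 ≤ q ∧ q < T ∧ ∃ p : Fin n → ℤ,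
      ‖(Φ (fun i => (q : ℝ) * x i - p i)).1‖ < ρ ∧ ‖(Φ (fun i => (q : ℝ) * x i - p i)).2‖ < σ := by
  classical
  set C := ‖Φ‖ with hC
  have hC0 : 0 ≤ C := norm_nonneg _
  let z : ℕ → (Fin n → ℝ) := fun q i => Int.fract ((q : ℝ) * x i)
  have hz : ∀ q, ‖Φ (z q)‖ ≤ C := by
    intro q
    have h1 : ‖z q‖ ≤ 1 := by
      refine (pi_norm_le_iff_of_nonneg zero_le_one).2 fun i => ?_
      rw [Real.norm_eq_abs, abs_of_nonneg (Int.fract_nonneg _)]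
      exact (Int.fract_lt_one _).le
    exact (Φ.le_opNorm _).trans (mul_le_of_le_one_right hC0 h1)
  let f : ℕ → (Fin d → ℤ) × (Fin k → ℤ) := fun q =>
    (fun i => ⌊(Φ (z q)).1 i / ρ⌋, fun j => ⌊(Φ (z q)).2 j / σ⌋)
  let box : Finset ((Fin d → ℤ) × (Fin k → ℤ)) :=
    (Fintype.piFinset fun _ : Fin d => Finset.Icc (-(⌈C / ρ⌉)) (⌈C / ρ⌉)) ×ˢ
      (Fintype.piFinset fun _ : Fin k => Finset.Icc (-(⌈C / σ⌉)) (⌈C / σ⌉))
  have hmaps : ∀ q ∈ Finset.range T, f q ∈ box := by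
    intro q _
    simp only [box, f, Finset.mem_product, Fintype.mem_piFinset]
    refine ⟨fun i => floor_mem_Icc C ρ _ hρ ?_, fun j => floor_mem_Icc C σ _ hσ ?_⟩
    · exact (norm_le_pi_norm (Φ (z q)).1 i).trans ((norm_fst_le _).trans (hz q))
    · exact (norm_le_pi_norm (Φ (z q)).2 j).trans ((norm_snd_le _).trans (hz q))
  have hcard : box.card < (Finset.range T).card := by
    rw [Finset.card_range]
    have h1 : (box.card : ℝ) ≤ ((2 * C + 3) / ρ) ^ d * ((2 * C + 3) / σ) ^ k := by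
      simp only [box, Finset.card_product, Fintype.card_piFinset, Finset.prod_const,
        Finset.card_univ, Fintype.card_fin, Nat.cast_mul, Nat.cast_pow]
      gcongr
      · exact card_Icc_le C ρ hC0 hρ hρ1
      · exact card_Icc_le C σ hC0 hσ hσ1
    exact_mod_cast h1.trans_lt hT
  have key : ∀ a b : ℕ, a < b → b < T → f a = f b →
      ∃ q : ℕ, 1 ≤ q ∧ q < T ∧ ∃ p : Fin n → ℤ,
      ‖(Φ (fun i => (q : ℝ) * x i - p i)).1‖ < ρ ∧ ‖(Φ (fun i => (q : ℝ) * x i - p i)).2‖ < σ := by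
    intro a b hab hb hf
    refine ⟨b - a, by omega, by omega, fun i => ⌊(b : ℝ) * x i⌋ - ⌊(a : ℝ) * x i⌋, ?_⟩
    have he : (fun i => ((b - a : ℕ) : ℝ) * x i - ((⌊(b : ℝ) * x i⌋ - ⌊(a : ℝ) * x i⌋ : ℤ) : ℝ))
        = z b - z a := by
      funext i
      simp only [z, Pi.sub_apply, Int.fract]
      rw [Nat.cast_sub hab.le]
      push_cast
      ring
    rw [he, map_sub]
    constructor
    · refine (pi_norm_lt_iff hρ).2 fun i => ?_
      have := congrFun (congrArg Prod.fst hf) i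
      exact abs_sub_lt_of_floor_eq ρ _ _ hρ this.symm
    · refine (pi_norm_lt_iff hσ).2 fun i => ?_
      have := congrFun (congrArg Prod.snd hf) i
      exact abs_sub_lt_of_floor_eq σ _ _ hσ this.symm
  obtain ⟨a, ha, b, hb, hab, hf⟩ := Finset.exists_ne_map_eq_of_card_lt_of_maps_to hcard hmaps
  rw [Finset.mem_range] at ha hb
  rcases lt_or_gt_of_ne hab with h | h
  · exact key a b h hb hf
  · exact key b a h ha hf.symm

end Pool.Agent.H282Z
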