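import Mathlib

set_option autoImplicit false

open MeasureTheory Metric Set
open scoped ENNReal

namespace Pool.Agent.H282Z

/-- Moving from a point of `E` towards the centre of a hole we meet a point at distance exactly
`r` from `E`. -/
theorem exists_infDist_eq {d : ℕ} (E : Set (Fin d → ℝ)) (t c : Fin d → ℝ) (r : ℝ) (hr : 0 < r)
    (ht : t ∈ E) (hdisj : ∀ y ∈ E, r ≤ dist y c) :
    ∃ c' : Fin d → ℝ, infDist c' E = r ∧ dist c' t ≤ dist c t := by
  have hcont : Continuous fun s : ℝ => infDist (t + s • (c - t)) E :=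
    (continuous_infDist_pt E).comp (by fun_prop)
  have h0 : infDist (t + (0 : ℝ) • (c - t)) E = 0 := by
    simp [infDist_zero_of_mem ht]
  have h1 : r ≤ infDist (t + (1 : ℝ) • (c - t)) E := by
    have : t + (1 : ℝ) • (c - t) = c := by simp
    rw [this]
    refine (le_infDist ⟨t, ht⟩).2 fun y hy => ?_
    rw [dist_comm]
    exact hdisj y hy
  obtain ⟨s, hs, hs'⟩ : r ∈ (fun s : ℝ => infDist (t + s • (c - t)) E) '' Icc (0 : ℝ) 1 := by
    apply intermediate_value_Icc zero_le_one hcont.continuousOn
    exact ⟨by rw [h0]; exact hr.le, h1⟩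
  refine ⟨t + s • (c - t), hs', ?_⟩
  rw [dist_eq_norm, dist_eq_norm, add_sub_cancel_left, norm_smul, Real.norm_eq_abs,
    abs_of_nonneg hs.1]
  exact mul_le_of_le_one_left (norm_nonneg _) hs.2

/-- Covering estimate: if every point of `S ⊆ E` has a hole of `E` of relative size `lam`
nearby, then the set `G` of points whose distance to `E` is comparable with the radius of such a
hole has measure at least `(lam / 10) ^ d` times that of `S`. -/
theorem holes_estimate {d : ℕ} (E S G : Set (Fin d → ℝ)) (hS : S ⊆ E) (lam : ℝ) (hlam : 0 < lam)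
    (P : ℝ → Prop)
    (hG : ∀ t ∈ S, ∀ r, P r → ∀ y, dist y t ≤ 2 → r / 2 < infDist y E → infDist y E < 3 * r / 2 →
      y ∈ G)
    (h : ∀ t ∈ S, ∃ c : Fin d → ℝ, ∃ D : ℝ, 0 < D ∧ D ≤ 1 ∧ P (lam * D) ∧ dist c t ≤ D ∧
      ∀ y ∈ E, lam * D ≤ dist y c) :
    ENNReal.ofReal ((lam / 10) ^ d) * volume S ≤ volume G := by
  have h' : ∀ t ∈ S, ∃ c : Fin d → ℝ, ∃ D : ℝ, 0 < D ∧ D ≤ 1 ∧ P (lam * D) ∧ dist c t ≤ D ∧
      infDist c E = lam * D := by
    intro t ht
    obtain ⟨c, D, hD, hD1, hP, hct, hy⟩ := h t ht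
    obtain ⟨c', h1, h2⟩ := exists_infDist_eq E t c (lam * D) (mul_pos hlam hD) (hS ht) hy
    exact ⟨c', D, hD, hD1, hP, h2.trans hct, h1⟩
  choose! c D hD hD1 hP hct hinf using h'
  have hrD : ∀ t ∈ S, lam * D t ≤ D t := by
    intro t ht
    rw [← hinf t ht]
    exact (infDist_le_dist_of_mem (hS ht)).trans (hct t ht)
  obtain ⟨u, huS, hdisj, hcov⟩ :=
    Vitali.exists_disjoint_subfamily_covering_enlargement_closedBall S c D 1 hD1 5 (by norm_num)
  have hucount : u.Countable := by
    apply hdisj.countable_of_nonempty_interior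
    intro t ht
    refine ⟨c t, ?_⟩
    exact mem_interior_iff_mem_nhds.2 (closedBall_mem_nhds _ (hD t (huS ht)))
  have hsub : S ⊆ ⋃ b ∈ u, closedBall (c b) (5 * D b) := by
    intro t ht
    obtain ⟨b, hb, hbb⟩ := hcov t ht
    refine mem_biUnion hb (hbb ?_)
    rw [mem_closedBall, dist_comm]
    exact hct t ht
  have hdisj2 : u.PairwiseDisjoint fun b => ball (c b) (lam * D b / 2) := by
    refine hdisj.mono_on fun b hb => ?_
    have h1 := hrD b (huS hb)
    have h2 := hD b (huS hb)
    exact ball_subset_closedBall.trans (closedBall_subset_closedBall (by linarith))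
  have hsubG : (⋃ b ∈ u, ball (c b) (lam * D b / 2)) ⊆ G := by
    intro y hy
    obtain ⟨b, hb, hyb⟩ := mem_iUnion₂.1 hy
    have hbS := huS hb
    rw [mem_ball] at hyb
    have h1 := hrD b hbS
    have h2 := hD b hbS
    have h3 := hD1 b hbS
    have h4 := hct b hbS
    have h5 := hinf b hbS
    have h6 : infDist y E ≤ infDist (c b) E + dist y (c b) := infDist_le_infDist_add_dist
    have h7 : infDist (c b) E ≤ infDist y E + dist (c b) y := infDist_le_infDist_add_dist
    rw [dist_comm (c b) y] at h7
    refine hG b hbS (lam * D b) (hP b hbS) y ?_ (by linarith) (by linarith)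
    have := dist_triangle y (c b) b
    linarith
  calc ENNReal.ofReal ((lam / 10) ^ d) * volume S
      ≤ ENNReal.ofReal ((lam / 10) ^ d) * ∑' b : u, volume (closedBall (c b) (5 * D b)) := by
        gcongr
        exact (measure_mono hsub).trans (measure_biUnion_le _ hucount _)
    _ = ∑' b : u, volume (ball (c b) (lam * D b / 2)) := by
        rw [← ENNReal.tsum_mul_left]
        refine tsum_congr fun b => ?_
        have h2 := hD b (huS b.2)
        rw [Real.volume_pi_closedBall _ (by positivity), Real.volume_pi_ball _ (by positivity),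
          ← ENNReal.ofReal_mul (by positivity), Fintype.card_fin, ← mul_pow]
        congr 2
        ring
    _ = volume (⋃ b ∈ u, ball (c b) (lam * D b / 2)) := by
        rw [measure_biUnion hucount hdisj2 fun b _ => measurableSet_ball]
    _ ≤ volume G := measure_mono hsubG

end Pool.Agent.H282Z
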