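import Mathlib
import Pool.Agent.H282Z.Holes
import Pool.Agent.H282Z.Dirichlet

set_option autoImplicit false

open MeasureTheory Metric Set
open scoped ENNReal

namespace Pool.Agent.H282Z

theorem tsum_conv_le (g : ℕ → ℝ≥0∞) :
    ∑' i, ∑ j ∈ Finset.range (i + 1), (2⁻¹ : ℝ≥0∞) ^ (i - j) * g j ≤ 2 * ∑' j, g j := by
  have h1 : ∀ i, ∑ j ∈ Finset.range (i + 1), (2⁻¹ : ℝ≥0∞) ^ (i - j) * g j
      = ∑' j, (if j ≤ i then (2⁻¹ : ℝ≥0∞) ^ (i - j) else 0) * g j := by
    intro i
    rw [tsum_eq_sum (s := Finset.range (i + 1))]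
    · refine Finset.sum_congr rfl fun j hj => ?_
      rw [if_pos (by simpa [Nat.lt_succ_iff] using hj)]
    · intro j hj
      rw [if_neg (by simpa [Nat.lt_succ_iff] using hj), zero_mul]
  simp_rw [h1]
  rw [ENNReal.tsum_comm, ← ENNReal.tsum_mul_left]
  refine ENNReal.tsum_le_tsum fun j => ?_
  rw [ENNReal.tsum_mul_right]
  gcongr
  rw [← Summable.sum_add_tsum_nat_add' (k := j) ENNReal.summable]
  have h2 : ∑ i ∈ Finset.range j, (if j ≤ i then (2⁻¹ : ℝ≥0∞) ^ (i - j) else 0) = 0 := by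
    refine Finset.sum_eq_zero fun i hi => ?_
    rw [if_neg (by simpa using hi)]
  rw [h2, zero_add]
  simp only [le_add_iff_nonneg_left, zero_le, if_true, Nat.add_sub_cancel]
  rw [ENNReal.tsum_geometric]
  simp

/-- Radii of the holes of level `j`. -/
def Lev (T : ℕ → ℕ) (j : ℕ) (r : ℝ) : Prop :=
  ∃ q : ℕ, 1 ≤ q ∧ q < T j ∧ (∀ j' < j, T j' ≤ q) ∧ r = ((4 : ℝ) ^ j)⁻¹ / q

theorem Lev.le {T : ℕ → ℕ} {j j' : ℕ} {r r' : ℝ} (h : Lev T j r) (h' : Lev T j' r')
    (hj : j' < j) : 4 * r ≤ r' ∧ 0 < r := by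
  obtain ⟨q, hq1, -, hq, rfl⟩ := h
  obtain ⟨q', hq1', hq', -, rfl⟩ := h'
  have h1 : q' ≤ q := (hq'.trans_le (hq j' hj)).le
  have h2 : (0 : ℝ) < q' := by exact_mod_cast hq1'
  have h3 : (q' : ℝ) ≤ q := by exact_mod_cast h1
  have h4 : (4 : ℝ) ^ (j' + 1) ≤ 4 ^ j := pow_le_pow_right₀ (by norm_num) hj
  have h5 : (0 : ℝ) < q := h2.trans_le h3
  refine ⟨?_, by positivity⟩
  calc 4 * (((4 : ℝ) ^ j)⁻¹ / q) ≤ 4 * (((4 : ℝ) ^ (j' + 1))⁻¹ / q') := by gcongr
    _ = ((4 : ℝ) ^ j')⁻¹ / q' := by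
      rw [pow_succ]
      field_simp

theorem core {n d k : ℕ} (hd : 1 ≤ d) (hn : d + k = n)
    (Φ : (Fin n → ℝ) →L[ℝ] (Fin d → ℝ) × (Fin k → ℝ))
    (a : Fin n → ℝ) (A : (Fin d → ℝ) →ₗ[ℝ] (Fin n → ℝ)) (hΦ : ∀ t, Φ (A t) = (t, 0))
    (T : ℕ → ℕ) (hdiv : ∑' j, ENNReal.ofReal ((T j : ℝ) / 4 ^ (j * n)) = ∞)
    (E : Set (Fin d → ℝ))
    (hE : ∀ t ∈ E, ∀ j q : ℕ, 1 ≤ q → q < T j → ∀ p : Fin n → ℤ,
      ((4 : ℝ) ^ j)⁻¹ ≤ ‖Φ (fun i => (q : ℝ) * (a i + A t i) - p i)‖) :
    volume E = 0 := by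
  classical
  suffices hR : ∀ R : ℕ, volume (E ∩ ball 0 (R : ℝ)) = 0 by
    have : E = ⋃ R : ℕ, E ∩ ball 0 (R : ℝ) := by
      rw [← inter_iUnion, iUnion_ball_nat, inter_univ]
    rw [this]
    exact measure_iUnion_null hR
  intro R
  set S := E ∩ ball (0 : Fin d → ℝ) (R : ℝ) with hSdef
  set K : ℝ := 2 * ‖Φ‖ + 3 with hK
  have hK0 : 0 < K := by rw [hK]; positivity
  let G : ℕ → Set (Fin d → ℝ) := fun j => ball 0 ((R : ℝ) + 3) ∩
    ⋃ r, ⋃ (_ : Lev T j r), {y | r / 2 < infDist y E} ∩ {y | infDist y E < 3 * r / 2}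
  have hGopen : ∀ j, IsOpen (G j) := fun j =>
    isOpen_ball.inter (isOpen_iUnion fun r => isOpen_iUnion fun _ =>
      (isOpen_lt continuous_const (continuous_infDist_pt E)).inter
        (isOpen_lt (continuous_infDist_pt E) continuous_const))
  have hGdisj : Pairwise (Function.onFun Disjoint G) := by
    have : ∀ j j', j' < j → Disjoint (G j) (G j') := by
      intro j j' hj
      rw [Set.disjoint_left]
      rintro y ⟨-, hy⟩ ⟨-, hy'⟩
      simp only [mem_iUnion, mem_inter_iff, mem_ofPred_eq] at hy hy'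
      obtain ⟨r, hr, h1, h2⟩ := hy
      obtain ⟨r', hr', h1', h2'⟩ := hy'
      obtain ⟨h3, h4⟩ := hr.le hr' hj
      linarith
    intro j j' hne
    rcases lt_or_gt_of_ne hne with h | h
    · exact (this j' j h).symm
    · exact this j j' h
  have hGsum : ∑' j, volume (G j) < ∞ := by
    rw [← measure_iUnion hGdisj fun j => (hGopen j).measurableSet]
    refine lt_of_le_of_lt (measure_mono (iUnion_subset fun j => inter_subset_left)) ?_
    exact measure_ball_lt_top
  have hSfin : volume S < ∞ :=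
    lt_of_le_of_lt (measure_mono inter_subset_right) measure_ball_lt_top
  set C : ℝ := 2 * K ^ n * 10 ^ d with hC
  have hC0 : 0 < C := by rw [hC]; positivity
  have main : ∀ i : ℕ, ENNReal.ofReal ((T i : ℝ) / 4 ^ (i * n)) * volume S ≤
      ENNReal.ofReal C * (∑ j ∈ Finset.range (i + 1), (2⁻¹ : ℝ≥0∞) ^ (i - j) * volume (G j))
        + ENNReal.ofReal C * (2⁻¹ : ℝ≥0∞) ^ i * volume S := by
    intro i
    have hhalf : ∀ m : ℕ, (2⁻¹ : ℝ≥0∞) ^ m = ENNReal.ofReal ((2⁻¹ : ℝ) ^ m) := by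
      intro m
      rw [ENNReal.ofReal_pow (by norm_num), ENNReal.ofReal_inv_of_pos (by norm_num)]
      simp
    have hpow : ∀ m : ℕ, ((4 : ℝ) ^ (m * d))⁻¹ ≤ (2⁻¹ : ℝ) ^ m := by
      intro m
      rw [inv_pow]
      apply inv_anti₀ (by positivity)
      calc (2 : ℝ) ^ m ≤ 4 ^ m := by gcongr; norm_num
        _ ≤ 4 ^ (m * d) := pow_le_pow_right₀ (by norm_num) (Nat.le_mul_of_pos_right _ hd)
    by_cases hadm : 2 * K ^ n * 4 ^ (i * k) ≤ (T i : ℝ)
    · refine le_trans ?_ le_self_add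
      have hT0 : (0 : ℝ) < T i := lt_of_lt_of_le (by positivity) hadm
      set X : ℝ := 2 * K ^ n * 4 ^ (i * k) / T i with hX
      have hX0 : 0 < X := by rw [hX]; positivity
      have hX1 : X ≤ 1 := by rw [hX, div_le_one hT0]; exact hadm
      set ρ : ℝ := X ^ ((d : ℝ)⁻¹) with hρ
      have hρ0 : 0 < ρ := Real.rpow_pos_of_pos hX0 _
      have hρ1 : ρ ≤ 1 := Real.rpow_le_one hX0.le hX1 (by positivity)
      have hρd : ρ ^ d = X := Real.rpow_inv_natCast_pow hX0.le (by omega)
      let lam : ℕ → ℝ := fun j => ((4 : ℝ) ^ j)⁻¹ / ρ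
      have hlam : ∀ j, 0 < lam j := fun j => by simp only [lam]; positivity
      let Sj : ℕ → Set (Fin d → ℝ) := fun j => {t | t ∈ S ∧ ∃ c : Fin d → ℝ, ∃ D : ℝ, 0 < D ∧
        D ≤ 1 ∧ Lev T j (lam j * D) ∧ dist c t ≤ D ∧ ∀ y ∈ E, lam j * D ≤ dist y c}
      have hcover : S ⊆ ⋃ j ∈ Finset.range (i + 1), Sj j := by
        intro t ht
        have hσ0 : (0 : ℝ) < ((4 : ℝ) ^ i)⁻¹ := by positivity
        have hσ1 : ((4 : ℝ) ^ i)⁻¹ ≤ 1 := inv_le_one_of_one_le₀ (one_le_pow₀ (by norm_num))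
        have hcnt : ((2 * ‖Φ‖ + 3) / ρ) ^ d * ((2 * ‖Φ‖ + 3) / ((4 : ℝ) ^ i)⁻¹) ^ k < T i := by
          rw [← hK, div_pow, hρd, div_inv_eq_mul, mul_pow, ← pow_mul, hX, ← hn, pow_add]
          have : K ^ d / (2 * (K ^ d * K ^ k) * 4 ^ (i * k) / T i) * (K ^ k * 4 ^ (i * k))
              = T i / 2 := by
            field_simp
          rw [this]
          linarith
        obtain ⟨q, hq1, hqT, p, hp1, hp2⟩ :=
          dirichlet_box Φ (fun i => a i + A t i) ρ _ hρ0 hρ1 hσ0 hσ1 (T i) hcnt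
        have hex : ∃ j, q < T j := ⟨i, hqT⟩
        have hji : Nat.find hex ≤ i := Nat.find_min' hex hqT
        have hjT : q < T (Nat.find hex) := Nat.find_spec hex
        have hjmin : ∀ j' < Nat.find hex, T j' ≤ q := fun j' hj' =>
          not_lt.1 (Nat.find_min hex hj')
        set j := Nat.find hex with hj
        have hq0 : (0 : ℝ) < q := by exact_mod_cast hq1
        have hq1' : (1 : ℝ) ≤ q := by exact_mod_cast hq1
        set w := Φ (fun i => (q : ℝ) * (a i + A t i) - p i) with hw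
        have hr : lam j * (ρ / q) = ((4 : ℝ) ^ j)⁻¹ / q := by
          simp only [lam]
          field_simp
        refine mem_biUnion (s := (Finset.range (i + 1) : Set ℕ))
          (Finset.mem_coe.2 (Finset.mem_range.2 (Nat.lt_succ_of_le hji))) ?_
        refine ⟨ht, t - (q : ℝ)⁻¹ • w.1, ρ / q, by positivity, ?_, ⟨q, hq1, hjT, hjmin, hr⟩, ?_, ?_⟩
        · rw [div_le_one hq0]
          linarith
        · rw [dist_eq_norm, sub_sub_cancel_left, norm_neg, norm_smul, Real.norm_eq_abs,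
            abs_of_pos (by positivity), div_eq_inv_mul]
          gcongr
        · intro y hy
          have h1 := hE y hy j q hq1 hjT p
          have h2 : (fun i => (q : ℝ) * (a i + A y i) - p i)
              = (fun i => (q : ℝ) * (a i + A t i) - p i) + A ((q : ℝ) • (y - t)) := by
            funext i
            simp only [map_smul, map_sub, Pi.add_apply, Pi.smul_apply, Pi.sub_apply, smul_eq_mul]
            ring
          rw [h2, map_add, hΦ, ← hw, Prod.norm_def] at h1
          simp only [Prod.fst_add, Prod.snd_add, add_zero] at h1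
          have h3 : ‖w.2‖ < ((4 : ℝ) ^ j)⁻¹ := by
            refine hp2.trans_le ?_
            apply inv_anti₀ (by positivity)
            exact pow_le_pow_right₀ (by norm_num) hji
          have h4 : ((4 : ℝ) ^ j)⁻¹ ≤ ‖w.1 + (q : ℝ) • (y - t)‖ := by
            rcases le_max_iff.1 h1 with h | h
            · exact h
            · linarith
          have h5 : w.1 + (q : ℝ) • (y - t) = (q : ℝ) • (y - (t - (q : ℝ)⁻¹ • w.1)) := by
            rw [smul_sub, smul_sub, smul_sub, smul_smul, mul_inv_cancel₀ hq0.ne', one_smul]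
            abel
          rw [h5, norm_smul, Real.norm_eq_abs, abs_of_pos hq0] at h4
          rw [hr, dist_eq_norm, div_le_iff₀ hq0]
          linarith
      have hest : ∀ j, ENNReal.ofReal ((lam j / 10) ^ d) * volume (Sj j) ≤ volume (G j) := by
        intro j
        refine holes_estimate E (Sj j) (G j) (fun t ht => ht.1.1) (lam j) (hlam j) (Lev T j) ?_
          fun t ht => ht.2
        intro t ht r hr y hy h1 h2
        refine ⟨?_, ?_⟩
        · have h3 : dist t 0 < R := ht.1.2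
          have h4 := dist_triangle y t 0
          rw [mem_ball]
          linarith
        · simp only [mem_iUnion, mem_inter_iff, mem_ofPred_eq]
          exact ⟨r, hr, h1, h2⟩
      calc ENNReal.ofReal ((T i : ℝ) / 4 ^ (i * n)) * volume S
          ≤ ENNReal.ofReal ((T i : ℝ) / 4 ^ (i * n)) *
              ∑ j ∈ Finset.range (i + 1), volume (Sj j) := by
            gcongr
            exact (measure_mono hcover).trans (measure_biUnion_finset_le _ _)
        _ ≤ _ := by
            rw [Finset.mul_sum, Finset.mul_sum]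
            refine Finset.sum_le_sum fun j hj => ?_
            have hji : j ≤ i := Nat.lt_succ_iff.1 (Finset.mem_range.1 hj)
            have h1 : (T i : ℝ) / 4 ^ (i * n) ≤ C * (2⁻¹ : ℝ) ^ (i - j) * (lam j / 10) ^ d := by
              have h2 : (T i : ℝ) / 4 ^ (i * n)
                  = C * ((4 : ℝ) ^ ((i - j) * d))⁻¹ * (lam j / 10) ^ d := by
                simp only [lam]
                rw [div_pow, div_pow, hρd, hX, hC, inv_pow, ← pow_mul]
                have h3 : (4 : ℝ) ^ (i * n) = 4 ^ ((i - j) * d) * 4 ^ (j * d) * 4 ^ (i * k) := by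
                  rw [← pow_add, ← pow_add, ← hn]
                  congr 1
                  obtain ⟨m, rfl⟩ := Nat.exists_eq_add_of_le hji
                  rw [Nat.add_sub_cancel_left]
                  ring
                rw [h3]
                field_simp
              rw [h2]
              have := hlam j
              gcongr
              exact hpow _
            calc ENNReal.ofReal ((T i : ℝ) / 4 ^ (i * n)) * volume (Sj j)
                ≤ ENNReal.ofReal (C * (2⁻¹ : ℝ) ^ (i - j) * (lam j / 10) ^ d) * volume (Sj j) := by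
                  gcongr
              _ = ENNReal.ofReal C * ((2⁻¹ : ℝ≥0∞) ^ (i - j) *
                    (ENNReal.ofReal ((lam j / 10) ^ d) * volume (Sj j))) := by
                  rw [ENNReal.ofReal_mul (by positivity), ENNReal.ofReal_mul hC0.le, hhalf]
                  ring
              _ ≤ _ := by
                  gcongr
                  exact hest j
    · refine le_trans ?_ le_add_self
      gcongr
      rw [hhalf, ← ENNReal.ofReal_mul hC0.le]
      apply ENNReal.ofReal_le_ofReal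
      have h3 : (4 : ℝ) ^ (i * n) = 4 ^ (i * d) * 4 ^ (i * k) := by
        rw [← pow_add, ← hn]
        congr 1
        ring
      have h4 : (1 : ℝ) ≤ 10 ^ d := one_le_pow₀ (by norm_num)
      calc (T i : ℝ) / 4 ^ (i * n) ≤ 2 * K ^ n * 4 ^ (i * k) / 4 ^ (i * n) := by
            gcongr
            exact (not_le.1 hadm).le
        _ = 2 * K ^ n * 1 * ((4 : ℝ) ^ (i * d))⁻¹ := by
            rw [h3]
            field_simp
        _ ≤ C * (2⁻¹ : ℝ) ^ i := by
            rw [hC]
            gcongr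
            exact hpow i
  have hsum := ENNReal.tsum_le_tsum main
  rw [ENNReal.tsum_mul_right, hdiv, ENNReal.tsum_add, ENNReal.tsum_mul_left,
    ENNReal.tsum_mul_right, ENNReal.tsum_mul_left, ENNReal.tsum_geometric] at hsum
  by_contra hne
  rw [ENNReal.top_mul hne] at hsum
  refine absurd (top_le_iff.1 hsum) (ne_of_lt ?_)
  refine ENNReal.add_lt_top.2 ⟨ENNReal.mul_lt_top ENNReal.ofReal_lt_top ?_, ?_⟩
  · exact lt_of_le_of_lt (tsum_conv_le _) (ENNReal.mul_lt_top (by simp) hGsum)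
  · exact ENNReal.mul_lt_top (ENNReal.mul_lt_top ENNReal.ofReal_lt_top (by simp)) hSfin

end Pool.Agent.H282Z
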