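import Mathlib
import Pool.Agent.H282Z.Core

set_option autoImplicit false

open MeasureTheory Metric Set Filter Topology
open scoped ENNReal

namespace Pool.Agent.H282Z

/-- Points that are never `φ`-approximable (in the coordinates `Φ`) form a null set. -/
theorem never_null {n d k : ℕ} (hd : 1 ≤ d) (hn : d + k = n)
    (Φ : (Fin n → ℝ) →L[ℝ] (Fin d → ℝ) × (Fin k → ℝ))
    (a : Fin n → ℝ) (A : (Fin d → ℝ) →ₗ[ℝ] (Fin n → ℝ)) (hΦ : ∀ t, Φ (A t) = (t, 0))
    (φ : ℕ → ℝ) (hpos : ∀ q, 0 < φ q) (hle : ∀ q, φ q ≤ 1) (hanti : Antitone φ)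
    (hdiv : ¬ Summable fun q => φ q ^ n) :
    volume {t : Fin d → ℝ | ∀ q : ℕ, 1 ≤ q → ∀ p : Fin n → ℤ,
      φ q ≤ ‖Φ (fun i => (q : ℝ) * (a i + A t i) - p i)‖} = 0 := by
  classical
  by_cases hlim : ∀ c : ℝ, 0 < c → ∃ q, φ q ≤ c
  · have hex : ∀ j : ℕ, ∃ q, φ q ≤ ((4 : ℝ) ^ j)⁻¹ := fun j => hlim _ (by positivity)
    let T : ℕ → ℕ := fun j => Nat.find (hex j)
    have hT1 : ∀ j q, q < T j → ((4 : ℝ) ^ j)⁻¹ < φ q := fun j q hq =>
      not_le.1 (Nat.find_min (hex j) hq)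
    have hT2 : ∀ j q, T j ≤ q → φ q ≤ ((4 : ℝ) ^ j)⁻¹ := fun j q hq =>
      (hanti hq).trans (Nat.find_spec (hex j))
    refine core hd hn Φ a A hΦ T ?_ _ ?_
    · by_contra hfin
      apply hdiv
      have hpt : ∀ q, ENNReal.ofReal (φ q ^ n) ≤ ENNReal.ofReal (4 ^ n) *
          ∑' j, (if q < T j then ENNReal.ofReal (((4 : ℝ) ^ (j * n))⁻¹) else 0) := by
        intro q
        have hex2 : ∃ j, q < T j := by
          obtain ⟨j, hj⟩ := exists_pow_lt_of_lt_one (hpos q) (by norm_num : (4⁻¹ : ℝ) < 1)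
          refine ⟨j, not_le.1 fun h => ?_⟩
          have := hT2 j q h
          rw [inv_pow] at hj
          linarith
        have hj := Nat.find_spec hex2
        have hjm := fun j' (h : j' < Nat.find hex2) => Nat.find_min hex2 h
        set j := Nat.find hex2 with hjdef
        have hφ : φ q ≤ 4 * ((4 : ℝ) ^ j)⁻¹ := by
          rcases Nat.eq_zero_or_pos j with h0 | h0
          · rw [h0]
            have := hle q
            norm_num
            linarith
          · obtain ⟨m, hm⟩ : ∃ m, j = m + 1 := ⟨j - 1, by omega⟩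
            have h1 := hT2 m q (not_lt.1 (hjm m (by omega)))
            rw [hm, pow_succ]
            calc φ q ≤ ((4 : ℝ) ^ m)⁻¹ := h1
              _ = 4 * ((4 : ℝ) ^ m * 4)⁻¹ := by field_simp
        calc ENNReal.ofReal (φ q ^ n) ≤ ENNReal.ofReal (4 ^ n * ((4 : ℝ) ^ (j * n))⁻¹) := by
              apply ENNReal.ofReal_le_ofReal
              rw [pow_mul, ← inv_pow, ← mul_pow]
              exact pow_le_pow_left₀ (hpos q).le hφ n
          _ = ENNReal.ofReal (4 ^ n) *
                (if q < T j then ENNReal.ofReal (((4 : ℝ) ^ (j * n))⁻¹) else 0) := by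
              rw [if_pos hj, ENNReal.ofReal_mul (by positivity)]
          _ ≤ _ := by
              gcongr
              exact ENNReal.le_tsum (f := fun j =>
                if q < T j then ENNReal.ofReal (((4 : ℝ) ^ (j * n))⁻¹) else 0) j
      have hin : ∀ j, ∑' q, (if q < T j then ENNReal.ofReal (((4 : ℝ) ^ (j * n))⁻¹) else 0)
          = ENNReal.ofReal ((T j : ℝ) / 4 ^ (j * n)) := by
        intro j
        rw [tsum_eq_sum (s := Finset.range (T j))]
        · rw [Finset.sum_congr rfl (fun q hq => if_pos (Finset.mem_range.1 hq)), Finset.sum_const,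
            Finset.card_range, nsmul_eq_mul, div_eq_mul_inv, ENNReal.ofReal_mul (by positivity),
            ENNReal.ofReal_natCast]
        · intro q hq
          rw [if_neg (by simpa using hq)]
      have htot : ∑' q, ENNReal.ofReal (φ q ^ n) ≠ ∞ := by
        refine ne_top_of_le_ne_top ?_ (ENNReal.tsum_le_tsum hpt)
        rw [ENNReal.tsum_mul_left, ENNReal.tsum_comm]
        simp_rw [hin]
        exact ENNReal.mul_ne_top ENNReal.ofReal_ne_top hfin
      have := ENNReal.summable_toReal htot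
      refine this.congr fun q => ?_
      rw [ENNReal.toReal_ofReal (pow_nonneg (hpos q).le n)]
    · intro t ht j q hq1 hq p
      exact (hT1 j q hq).le.trans (ht q hq1 p)
  · push Not at hlim
    obtain ⟨c, hc0, hc⟩ := hlim
    have hc1 : c ≤ 1 := ((hc 0).le.trans (hle 0))
    convert measure_empty (μ := (volume : Measure (Fin d → ℝ)))
    rw [eq_empty_iff_forall_notMem]
    intro t ht
    obtain ⟨T, hT⟩ := exists_nat_gt (((2 * ‖Φ‖ + 3) / c) ^ d * ((2 * ‖Φ‖ + 3) / c) ^ k)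
    obtain ⟨q, hq1, -, p, hp1, hp2⟩ :=
      dirichlet_box Φ (fun i => a i + A t i) c c hc0 hc1 hc0 hc1 T hT
    have h1 := ht q hq1 p
    rw [Prod.norm_def] at h1
    have h2 := hc q
    rcases le_max_iff.1 h1 with h | h <;> linarith

/-- Adapted coordinates for an injective linear map. -/
theorem exists_coords {n d : ℕ} (A : (Fin d → ℝ) →ₗ[ℝ] (Fin n → ℝ)) (hA : Function.Injective A) :
    ∃ k : ℕ, d + k = n ∧ ∃ Φ : (Fin n → ℝ) ≃L[ℝ] (Fin d → ℝ) × (Fin k → ℝ),
      ∀ t, Φ (A t) = (t, 0) := by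
  obtain ⟨W, hW⟩ := Submodule.exists_isCompl (LinearMap.range A)
  refine ⟨Module.finrank ℝ W, ?_, ?_⟩
  · have h1 := Submodule.finrank_add_eq_of_isCompl hW
    rw [LinearMap.finrank_range_of_inj hA] at h1
    simpa using h1
  · let e1 : (Fin d → ℝ) ≃ₗ[ℝ] LinearMap.range A := LinearEquiv.ofInjective A hA
    let e2 : W ≃ₗ[ℝ] (Fin (Module.finrank ℝ W) → ℝ) := (Module.finBasis ℝ W).equivFun
    let Ψ : ((Fin d → ℝ) × (Fin (Module.finrank ℝ W) → ℝ)) ≃ₗ[ℝ] (Fin n → ℝ) :=
      (e1.prodCongr e2.symm).trans (Submodule.prodEquivOfIsCompl _ _ hW)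
    refine ⟨Ψ.symm.toContinuousLinearEquiv, fun t => ?_⟩
    show Ψ.symm (A t) = (t, 0)
    rw [LinearEquiv.symm_apply_eq]
    simp [Ψ, e1]

theorem khintchine_affine (n d : ℕ) (hd : 1 ≤ d) (a : Fin n → ℝ)
    (A : (Fin d → ℝ) →ₗ[ℝ] (Fin n → ℝ)) (hA : Function.Injective A)
    (ψ : ℕ → ℝ) (hψ0 : ∀ q, 0 ≤ ψ q) (hanti : Antitone ψ)
    (hdiv : ¬ Summable (fun q : ℕ => ψ q ^ n)) :
    ∀ᵐ t ∂(volume : Measure (Fin d → ℝ)),
      ∃ᶠ q : ℕ in atTop, ∀ i : Fin n,
        |(q : ℝ) * (a i + A t i) - (round ((q : ℝ) * (a i + A t i)) : ℝ)| < ψ q := by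
  obtain ⟨k, hn, Φ, hΦ⟩ := exists_coords A hA
  have hn0 : n ≠ 0 := by omega
  have hpos : ∀ q, 0 < ψ q := by
    intro q
    by_contra h
    apply hdiv
    refine summable_of_hasFiniteSupport ((Set.finite_lt_nat q).subset fun m hm => ?_)
    by_contra hmq
    apply hm
    have h1 : ψ m ≤ ψ q := hanti (not_lt.1 hmq)
    have h2 : ψ m = 0 := le_antisymm (h1.trans (not_lt.1 h)) (hψ0 m)
    show ψ m ^ n = 0
    rw [h2, zero_pow hn0]
  set K : ℝ := ‖(Φ.symm : ((Fin d → ℝ) × (Fin k → ℝ)) →L[ℝ] (Fin n → ℝ))‖ + 1 with hK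
  have hK1 : 1 ≤ K := by
    rw [hK]
    exact le_add_of_nonneg_left (norm_nonneg _)
  have hK0 : 0 < K := by linarith
  have hKy : ∀ y, ‖y‖ ≤ K * ‖Φ y‖ := by
    intro y
    have h1 := (Φ.symm : ((Fin d → ℝ) × (Fin k → ℝ)) →L[ℝ] (Fin n → ℝ)).le_opNorm (Φ y)
    simp only [ContinuousLinearEquiv.coe_coe, ContinuousLinearEquiv.symm_apply_apply] at h1
    refine h1.trans ?_
    gcongr
    rw [hK]
    linarith
  have h1 : ∀ m : ℕ, ∀ᵐ t ∂(volume : Measure (Fin d → ℝ)), ¬ ∀ q : ℕ, 1 ≤ q → ∀ p : Fin n → ℤ,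
      min (ψ q) (1 / ((m : ℝ) + 1)) / K ≤ ‖Φ (fun i => (q : ℝ) * (a i + A t i) - p i)‖ := by
    intro m
    have hη : (0 : ℝ) < 1 / ((m : ℝ) + 1) := by positivity
    have hη1 : 1 / ((m : ℝ) + 1) ≤ 1 := by
      rw [div_le_one (by positivity)]
      linarith [Nat.cast_nonneg (α := ℝ) m]
    have := never_null hd hn (Φ : (Fin n → ℝ) →L[ℝ] (Fin d → ℝ) × (Fin k → ℝ)) a A hΦ
      (fun q => min (ψ q) (1 / ((m : ℝ) + 1)) / K)
      (fun q => div_pos (lt_min (hpos q) hη) hK0)
      (fun q => by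
        rw [div_le_one hK0]
        exact (min_le_right _ _).trans (hη1.trans hK1))
      (fun q q' h => div_le_div_of_nonneg_right (min_le_min_right _ (hanti h)) hK0.le)
      (by
        intro hs
        apply hdiv
        have hs' : Summable fun q => min (ψ q) (1 / ((m : ℝ) + 1)) ^ n := by
          refine (hs.mul_left (K ^ n)).congr fun q => ?_
          rw [div_pow]
          field_simp
        have hev : ∀ᶠ q in atTop, min (ψ q) (1 / ((m : ℝ) + 1)) ^ n < (1 / ((m : ℝ) + 1)) ^ n :=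
          hs'.tendsto_atTop_zero.eventually (gt_mem_nhds (by positivity))
        refine hs'.congr_atTop ?_
        filter_upwards [hev] with q hq
        rcases min_choice (ψ q) (1 / ((m : ℝ) + 1)) with h | h
        · rw [h]
        · rw [h] at hq
          exact absurd hq (lt_irrefl _))
    rw [ae_iff]
    simpa using this
  have h2 : ∀ (q : ℕ) (p : Fin n → ℤ), ∀ᵐ t ∂(volume : Measure (Fin d → ℝ)),
      1 ≤ q → (fun i => (q : ℝ) * (a i + A t i) - p i) ≠ 0 := by
    intro q p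
    haveI : Nonempty (Fin d) := ⟨⟨0, hd⟩⟩
    rw [ae_iff]
    refine Set.Subsingleton.measure_zero ?_ _
    intro t ht t' ht'
    simp only [mem_ofPred_eq, Classical.not_imp, not_not, ne_eq] at ht ht'
    apply hA
    funext i
    have e1 := congrFun ht.2 i
    have e2 := congrFun ht'.2 i
    have hq : (q : ℝ) ≠ 0 := by
      have := ht.1
      exact_mod_cast (by omega : q ≠ 0)
    simp only [Pi.zero_apply] at e1 e2
    have : (q : ℝ) * (A t i) = (q : ℝ) * (A t' i) := by linarith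
    exact mul_left_cancel₀ hq this
  have h1' := ae_all_iff.2 h1
  have h2' := ae_all_iff.2 fun q => ae_all_iff.2 (h2 q)
  filter_upwards [h1', h2'] with t ht1 ht2
  by_contra hcon
  rw [not_frequently, eventually_atTop] at hcon
  obtain ⟨Q, hQ⟩ := hcon
  have hev : ∀ᶠ m : ℕ in atTop, ∀ q ∈ Finset.range Q, 1 ≤ q → 1 / ((m : ℝ) + 1) ≤
      ‖(fun i => (q : ℝ) * (a i + A t i) - (round ((q : ℝ) * (a i + A t i)) : ℝ))‖ := by
    rw [eventually_all_finset]
    intro q _
    by_cases hq : 1 ≤ q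
    · have h3 := ht2 q (fun i => round ((q : ℝ) * (a i + A t i))) hq
      have h4 := norm_pos_iff.2 h3
      filter_upwards [tendsto_one_div_add_atTop_nhds_zero_nat.eventually (ge_mem_nhds h4)]
        with m hm _
      exact hm
    · exact Eventually.of_forall fun m h => absurd h hq
  obtain ⟨m, hm⟩ := hev.exists
  apply ht1 m
  intro q hq1 p
  rw [div_le_iff₀ hK0, mul_comm]
  refine le_trans ?_ (hKy _)
  have hround : ‖(fun i => (q : ℝ) * (a i + A t i) - (round ((q : ℝ) * (a i + A t i)) : ℝ))‖ ≤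
      ‖(fun i => (q : ℝ) * (a i + A t i) - p i)‖ := by
    refine (pi_norm_le_iff_of_nonneg (norm_nonneg _)).2 fun i => ?_
    exact (round_le _ (p i)).trans
      (norm_le_pi_norm (fun i => (q : ℝ) * (a i + A t i) - p i) i)
  refine le_trans ?_ hround
  by_cases hqQ : q < Q
  · exact (min_le_right _ _).trans (hm q (Finset.mem_range.2 hqQ) hq1)
  · have h3 := hQ q (not_lt.1 hqQ)
    push Not at h3
    obtain ⟨i, hi⟩ := h3
    exact (min_le_left _ _).trans (hi.trans (norm_le_pi_norm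
      (fun i => (q : ℝ) * (a i + A t i) - (round ((q : ℝ) * (a i + A t i)) : ℝ)) i))

end Pool.Agent.H282Z
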