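import Mathlib
import Pool.Agent.H282Z.Dirichlet

set_option autoImplicit false

open Set

namespace Pool.Agent.H282Z

/-- The coefficient vector `u + A b`. -/
def Vv {d m : ℕ} (A : Fin (d + 1) → Fin m → ℝ) (z : (Fin (d + 1) → ℤ) × (Fin m → ℤ)) :
    Fin (d + 1) → ℝ := fun i => z.1 i + ∑ k, A i k * z.2 k

theorem Vv_sub {d m : ℕ} (A : Fin (d + 1) → Fin m → ℝ) (z z' : (Fin (d + 1) → ℤ) × (Fin m → ℤ)) :
    Vv A (z - z') = Vv A z - Vv A z' := by
  funext i
  simp only [Vv, Prod.fst_sub, Prod.snd_sub, Pi.sub_apply, Int.cast_sub, mul_sub,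
    Finset.sum_sub_distrib]
  ring

theorem one_le_norm_Vv {d m : ℕ} (A : Fin (d + 1) → Fin m → ℝ)
    (z : (Fin (d + 1) → ℤ) × (Fin m → ℤ)) (hz : z ≠ 0) (hb : z.2 = 0) : 1 ≤ ‖Vv A z‖ := by
  have h1 : z.1 ≠ 0 := fun h => hz (Prod.ext h hb)
  obtain ⟨i, hi⟩ := Function.ne_iff.1 h1
  have h2 : Vv A z i = z.1 i := by simp [Vv, hb]
  have h3 : (1 : ℝ) ≤ |(z.1 i : ℝ)| := by
    have : 1 ≤ |z.1 i| := Int.one_le_abs hi
    exact_mod_cast this
  rw [← h2] at h3
  exact h3.trans (norm_le_pi_norm (Vv A z) i)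

theorem card_Icc_ceil_floor (x y : ℝ) (h : x ≤ y) :
    ((Finset.Icc ⌈x⌉ ⌊y⌋).card : ℝ) ≤ y - x + 1 := by
  rw [Int.card_Icc]
  rcases le_total (⌊y⌋ + 1 - ⌈x⌉) 0 with h0 | h0
  · rw [Int.toNat_of_nonpos h0]
    simp only [Nat.cast_zero]
    linarith
  · have h1 : (((⌊y⌋ + 1 - ⌈x⌉).toNat : ℤ) : ℝ) = ((⌊y⌋ + 1 - ⌈x⌉ : ℤ) : ℝ) := by
      rw [Int.toNat_of_nonneg h0]
    rw [Int.cast_natCast] at h1
    rw [h1]
    push_cast
    have := Int.floor_le y
    have := Int.le_ceil x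
    linarith

theorem count_large {d m : ℕ} (A : Fin (d + 1) → Fin m → ℝ) (Q t : ℝ) (hQ : 0 ≤ Q) (ht : 0 ≤ t)
    (F : Finset ((Fin (d + 1) → ℤ) × (Fin m → ℤ)))
    (hF : ∀ z ∈ F, (∀ k, |(z.2 k : ℝ)| ≤ Q) ∧ ‖Vv A z‖ ≤ t) :
    (F.card : ℝ) ≤ (2 * t + 1) ^ (d + 1) * (2 * Q + 1) ^ m := by
  classical
  let B : Finset (Fin m → ℤ) := Fintype.piFinset fun _ => Finset.Icc ⌈-Q⌉ ⌊Q⌋
  have hB : (B.card : ℝ) ≤ (2 * Q + 1) ^ m := by
    simp only [B, Fintype.card_piFinset, Finset.prod_const, Finset.card_univ, Fintype.card_fin,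
      Nat.cast_pow]
    gcongr
    have := card_Icc_ceil_floor (-Q) Q (by linarith)
    linarith
  have hmaps : ∀ z ∈ F, z.2 ∈ B := by
    intro z hz
    simp only [B, Fintype.mem_piFinset, Finset.mem_Icc]
    intro k
    have := abs_le.1 ((hF z hz).1 k)
    exact ⟨Int.ceil_le.2 this.1, Int.le_floor.2 this.2⟩
  rw [Finset.card_eq_sum_card_fiberwise hmaps]
  push_cast
  calc ∑ b ∈ B, ((F.filter fun z => z.2 = b).card : ℝ) ≤ ∑ _b ∈ B, (2 * t + 1) ^ (d + 1) := by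
        refine Finset.sum_le_sum fun b _ => ?_
        let U : Finset (Fin (d + 1) → ℤ) := Fintype.piFinset fun i =>
          Finset.Icc ⌈-t - ∑ k, A i k * b k⌉ ⌊t - ∑ k, A i k * b k⌋
        have hU : (U.card : ℝ) ≤ (2 * t + 1) ^ (d + 1) := by
          simp only [U, Fintype.card_piFinset, Nat.cast_prod]
          calc ∏ i : Fin (d + 1), ((Finset.Icc ⌈-t - ∑ k, A i k * b k⌉
                ⌊t - ∑ k, A i k * b k⌋).card : ℝ) ≤ ∏ _i : Fin (d + 1), (2 * t + 1) := by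
                refine Finset.prod_le_prod (fun i _ => by positivity) fun i _ => ?_
                have := card_Icc_ceil_floor (-t - ∑ k, A i k * b k) (t - ∑ k, A i k * b k)
                  (by linarith)
                linarith
            _ = _ := by simp
        refine le_trans ?_ hU
        have : (F.filter fun z => z.2 = b).card ≤ U.card := by
          refine Finset.card_le_card_of_injOn (fun z => z.1) ?_ ?_
          · intro z hz
            obtain ⟨hz1, hz2⟩ := Finset.mem_filter.1 (Finset.mem_coe.1 hz)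
            simp only [U, Finset.mem_coe, Fintype.mem_piFinset, Finset.mem_Icc]
            intro i
            have h1 := abs_le.1 ((norm_le_pi_norm (Vv A z) i).trans (hF z hz1).2)
            simp only [Vv, hz2] at h1
            exact ⟨Int.ceil_le.2 (by linarith [h1.1]), Int.le_floor.2 (by linarith [h1.2])⟩
          · intro z hz z' hz' h
            obtain ⟨-, hz2⟩ := Finset.mem_filter.1 (Finset.mem_coe.1 hz)
            obtain ⟨-, hz2'⟩ := Finset.mem_filter.1 (Finset.mem_coe.1 hz')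
            exact Prod.ext h (hz2.trans hz2'.symm)
        exact_mod_cast this
    _ ≤ _ := by
        rw [Finset.sum_const, nsmul_eq_mul, mul_comm]
        gcongr

/-- The Diophantine condition in a convenient form. -/
def Dio {d m : ℕ} (A : Fin (d + 1) → Fin m → ℝ) (c w : ℝ) : Prop :=
  ∀ z : (Fin (d + 1) → ℤ) × (Fin m → ℤ), z.2 ≠ 0 → ∀ H : ℝ, 0 < H → (∀ k, |(z.2 k : ℝ)| ≤ H) →
    c ≤ ‖Vv A z‖ * H ^ w

theorem count_small {d m : ℕ} (A : Fin (d + 1) → Fin m → ℝ) (c w : ℝ) (hc : 0 < c) (hw : 0 < w)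
    (hA : Dio A c w) (Q t : ℝ) (hQ : 0 < Q) (ht : 0 < t) (ht1 : t ≤ 1 / 4)
    (F : Finset ((Fin (d + 1) → ℤ) × (Fin m → ℤ)))
    (hF : ∀ z ∈ F, z ≠ 0 ∧ (∀ k, |(z.2 k : ℝ)| ≤ Q) ∧ ‖Vv A z‖ ≤ t) :
    (F.card : ℝ) ≤ 5 ^ m * (4 / c) ^ ((m : ℝ) / w) * Q ^ m * t ^ ((m : ℝ) / w) := by
  classical
  rcases F.eq_empty_or_nonempty with rfl | ⟨z0, hz0⟩
  · simp only [Finset.card_empty, Nat.cast_zero]
    positivity
  set s : ℝ := (c / (4 * t)) ^ w⁻¹ with hs
  have hs0 : 0 < s := by rw [hs]; positivity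
  have hsw : s ^ w = c / (4 * t) := by
    rw [hs, Real.rpow_inv_rpow (by positivity) hw.ne']
  have hsQ : s ≤ Q := by
    obtain ⟨h1, h2, h3⟩ := hF z0 hz0
    have hb : z0.2 ≠ 0 := by
      intro hb
      have := one_le_norm_Vv A z0 h1 hb
      linarith
    have h4 := hA z0 hb Q hQ h2
    have h5 : 0 < Q ^ w := by positivity
    have h6 : c ≤ t * Q ^ w := h4.trans (by gcongr)
    rw [← Real.rpow_le_rpow_iff hs0.le hQ.le hw, hsw, div_le_iff₀ (by positivity)]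
    nlinarith
  have hρ0 : 0 < s / Q := by positivity
  have hρ1 : s / Q ≤ 1 := (div_le_one hQ).2 hsQ
  let box : Finset (Fin m → ℤ) :=
    Fintype.piFinset fun _ => Finset.Icc (-(⌈1 / (s / Q)⌉)) (⌈1 / (s / Q)⌉)
  have hcard : F.card ≤ box.card := by
    refine Finset.card_le_card_of_injOn (fun z k => ⌊((z.2 k : ℝ) / Q) / (s / Q)⌋) ?_ ?_
    · intro z hz
      simp only [box, Finset.mem_coe, Fintype.mem_piFinset]
      intro k
      refine floor_mem_Icc 1 _ _ hρ0 ?_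
      rw [abs_div, abs_of_pos hQ, div_le_one hQ]
      exact (hF z hz).2.1 k
    · intro z hz z' hz' h
      by_contra hne
      have hne' : z - z' ≠ 0 := sub_ne_zero.2 hne
      have hn : ‖Vv A (z - z')‖ ≤ 2 * t := by
        rw [Vv_sub]
        refine (norm_sub_le _ _).trans ?_
        linarith [(hF z hz).2.2, (hF z' hz').2.2]
      have hb : (z - z').2 ≠ 0 := by
        intro hb
        have := one_le_norm_Vv A _ hne' hb
        linarith
      have hk : ∀ k, |(((z - z').2 k : ℤ) : ℝ)| ≤ s := by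
        intro k
        have h1 := abs_sub_lt_of_floor_eq (s / Q) _ _ hρ0 (congrFun h k)
        rw [← sub_div, abs_div, abs_of_pos hQ, div_lt_div_iff_of_pos_right hQ] at h1
        simp only [Prod.snd_sub, Pi.sub_apply, Int.cast_sub]
        exact h1.le
      have h2 := hA _ hb s hs0 hk
      rw [hsw] at h2
      have h3 : ‖Vv A (z - z')‖ * (c / (4 * t)) ≤ 2 * t * (c / (4 * t)) := by gcongr
      have h4 : 2 * t * (c / (4 * t)) = c / 2 := by
        field_simp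
        ring
      linarith
  have hbox : (box.card : ℝ) ≤ (5 / (s / Q)) ^ m := by
    simp only [box, Fintype.card_piFinset, Finset.prod_const, Finset.card_univ, Fintype.card_fin,
      Nat.cast_pow]
    gcongr
    have := card_Icc_le 1 (s / Q) zero_le_one hρ0 hρ1
    norm_num at this ⊢
    exact this
  have hsm : (s ^ m)⁻¹ = (4 / c) ^ ((m : ℝ) / w) * t ^ ((m : ℝ) / w) := by
    rw [← Real.mul_rpow (by positivity) ht.le, hs, ← Real.rpow_natCast,
      ← Real.rpow_mul (by positivity), ← Real.inv_rpow (by positivity)]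
    congr 1
    · field_simp
    · field_simp
  calc (F.card : ℝ) ≤ box.card := by exact_mod_cast hcard
    _ ≤ (5 / (s / Q)) ^ m := hbox
    _ = 5 ^ m * Q ^ m * (s ^ m)⁻¹ := by
        rw [div_pow, div_pow]
        field_simp
    _ = _ := by
        rw [hsm]
        ring

theorem geo_sum_le (α β X : ℝ) (hα : 1 < α) (hβ : 0 ≤ β) (hX : 0 ≤ X) (J : Finset ℕ)
    (hJ : ∀ j ∈ J, β * α ^ j ≤ X) : ∑ j ∈ J, β * α ^ j ≤ X * (α / (α - 1)) := by
  have h1 : 0 < α - 1 := by linarith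
  rcases J.eq_empty_or_nonempty with rfl | hne
  · simp only [Finset.sum_empty]
    positivity
  have hsub : J ⊆ Finset.range (J.max' hne + 1) := fun j hj =>
    Finset.mem_range.2 (Nat.lt_succ_of_le (J.le_max' j hj))
  have h2 := hJ _ (J.max'_mem hne)
  set M := J.max' hne
  calc ∑ j ∈ J, β * α ^ j ≤ ∑ j ∈ Finset.range (M + 1), β * α ^ j :=
        Finset.sum_le_sum_of_subset_of_nonneg hsub fun j _ _ => by positivity
    _ = β * ((α ^ (M + 1) - 1) / (α - 1)) := by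
        rw [← Finset.mul_sum, geom_sum_eq hα.ne']
    _ ≤ β * (α ^ (M + 1) / (α - 1)) := by
        gcongr
        linarith
    _ = β * α ^ M * (α / (α - 1)) := by
        rw [pow_succ]
        ring
    _ ≤ _ := by gcongr

theorem dyadic_sum {ι : Type*} (F : Finset ι) (f : ι → ℝ) (d : ℕ) (hd : 1 ≤ d) (θ : ℝ)
    (hθ : θ < 1) (K1 K2 t0 ρ : ℝ) (hK1 : 0 ≤ K1) (hK2 : 0 ≤ K2) (ht0 : 0 < t0) (hρ : 0 < ρ)
    (hf : ∀ x ∈ F, t0 ≤ f x ∧ f x ≤ ρ)
    (hN : ∀ t : ℝ, 0 < t → ∀ G : Finset ι, G ⊆ F → (∀ x ∈ G, f x ≤ t) →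
      (G.card : ℝ) ≤ K1 * t ^ (d + 1) + K2 * t ^ θ) :
    ∑ x ∈ F, 1 / f x ≤ 4 * K1 * ρ ^ d +
      2 * K2 * (t0 ^ (θ - 1) * ((2 : ℝ) ^ (1 - θ) / ((2 : ℝ) ^ (1 - θ) - 1))) := by
  classical
  have hex : ∀ x ∈ F, ∃ j : ℕ, ρ * (2⁻¹ : ℝ) ^ (j + 1) < f x ∧ f x ≤ ρ * (2⁻¹ : ℝ) ^ j := by
    intro x hx
    obtain ⟨h1, h2⟩ := hf x hx
    obtain ⟨j, h3, h4⟩ := exists_nat_pow_near_of_lt_one (x := f x / ρ) (y := (2⁻¹ : ℝ))
      (div_pos (ht0.trans_le h1) hρ) ((div_le_one hρ).2 h2) (by norm_num) (by norm_num)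
    refine ⟨j, ?_, ?_⟩
    · rwa [lt_div_iff₀ hρ, mul_comm] at h3
    · rwa [div_le_iff₀ hρ, mul_comm] at h4
  choose! jf hj1 hj2 using hex
  set α : ℝ := (2 : ℝ) ^ (1 - θ) with hα
  have hα1 : 1 < α := Real.one_lt_rpow (by norm_num) (by linarith)
  have hpow : ∀ j : ℕ, (ρ * (2⁻¹ : ℝ) ^ j) ^ (θ - 1) = ρ ^ (θ - 1) * α ^ j := by
    intro j
    rw [Real.mul_rpow hρ.le (by positivity), hα, ← Real.rpow_natCast, ← Real.rpow_natCast,
      ← Real.rpow_mul (by norm_num), ← Real.rpow_mul (by norm_num),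
      Real.inv_rpow (by norm_num), ← Real.rpow_neg (by norm_num)]
    congr 2
    ring
  rw [← Finset.sum_fiberwise_of_maps_to (s := F) (t := F.image jf) (g := jf)
    (fun x hx => Finset.mem_image_of_mem jf hx)]
  calc ∑ j ∈ F.image jf, ∑ x ∈ F with jf x = j, 1 / f x
      ≤ ∑ j ∈ F.image jf, (2 * K1 * ρ ^ d * (2⁻¹ : ℝ) ^ j + 2 * K2 * (ρ ^ (θ - 1) * α ^ j)) := by
        refine Finset.sum_le_sum fun j _ => ?_
        set t : ℝ := ρ * (2⁻¹ : ℝ) ^ j with ht
        have ht' : 0 < t := by rw [ht]; positivity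
        have h1 := hN t ht' (F.filter fun x => jf x = j) (Finset.filter_subset _ _) (by
          intro x hx
          obtain ⟨hx1, hx2⟩ := Finset.mem_filter.1 hx
          rw [ht, ← hx2]
          exact hj2 x hx1)
        calc ∑ x ∈ F with jf x = j, 1 / f x ≤ ∑ x ∈ F with jf x = j, 2 / t := by
              refine Finset.sum_le_sum fun x hx => ?_
              obtain ⟨hx1, hx2⟩ := Finset.mem_filter.1 hx
              have h2 := hj1 x hx1
              rw [hx2, pow_succ, ← mul_assoc, ← ht] at h2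
              rw [div_le_div_iff₀ (ht0.trans_le (hf x hx1).1) ht']
              linarith
          _ = ((F.filter fun x => jf x = j).card : ℝ) * (2 / t) := by
              rw [Finset.sum_const, nsmul_eq_mul]
          _ ≤ (K1 * t ^ (d + 1) + K2 * t ^ θ) * (2 / t) := by gcongr
          _ = 2 * K1 * t ^ d + 2 * K2 * t ^ (θ - 1) := by
              rw [Real.rpow_sub_one ht'.ne', pow_succ]
              field_simp
          _ ≤ _ := by
              rw [← hpow j, ← ht]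
              have h3 : t ^ d ≤ ρ ^ d * (2⁻¹ : ℝ) ^ j := by
                rw [ht, mul_pow, ← pow_mul]
                gcongr ρ ^ d * ?_
                exact pow_le_pow_of_le_one (by norm_num) (by norm_num)
                  (Nat.le_mul_of_pos_right _ hd)
              have h4 : 2 * K1 * t ^ d ≤ 2 * K1 * (ρ ^ d * (2⁻¹ : ℝ) ^ j) := by gcongr
              linarith
    _ = 2 * K1 * ρ ^ d * ∑ j ∈ F.image jf, (2⁻¹ : ℝ) ^ j
          + 2 * K2 * ∑ j ∈ F.image jf, ρ ^ (θ - 1) * α ^ j := by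
        rw [Finset.sum_add_distrib, Finset.mul_sum, Finset.mul_sum]
    _ ≤ 2 * K1 * ρ ^ d * 2 + 2 * K2 * (t0 ^ (θ - 1) * (α / (α - 1))) := by
        gcongr
        · have h1 : Summable fun j : ℕ => (2⁻¹ : ℝ) ^ j :=
            summable_geometric_of_lt_one (by norm_num) (by norm_num)
          refine (h1.sum_le_tsum _ fun j _ => by positivity).trans ?_
          rw [tsum_geometric_of_lt_one (by norm_num) (by norm_num)]
          norm_num
        · refine geo_sum_le α _ _ hα1 (by positivity) (by positivity) _ fun j hj => ?_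
          obtain ⟨x, hx, rfl⟩ := Finset.mem_image.1 hj
          rw [← hpow]
          exact Real.rpow_le_rpow_of_nonpos ht0 ((hf x hx).1.trans (hj2 x hx)) (by linarith)
    _ = _ := by ring

/-- The main counting estimate. -/
theorem sum_inv_norm_le {d m : ℕ} (hd : 1 ≤ d) (A : Fin (d + 1) → Fin m → ℝ) (c w : ℝ)
    (hc : 0 < c) (hc1 : c ≤ 1) (hw : (m : ℝ) < w) (hA : Dio A c w) :
    ∃ K : ℝ, 0 < K ∧ ∀ Q ρ : ℝ, 1 ≤ Q → 0 < ρ →
      ∀ F : Finset ((Fin (d + 1) → ℤ) × (Fin m → ℤ)),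
        (∀ z ∈ F, z ≠ 0 ∧ (∀ k, |(z.2 k : ℝ)| ≤ Q) ∧ ‖Vv A z‖ ≤ ρ) →
        ∑ z ∈ F, 1 / ‖Vv A z‖ ≤ K * (Q ^ m * ρ ^ d + Q ^ w) := by
  have hw0 : 0 < w := lt_of_le_of_lt (Nat.cast_nonneg m) hw
  set θ : ℝ := (m : ℝ) / w with hθ
  have hθ1 : θ < 1 := (div_lt_one hw0).2 hw
  have hα1 : 1 < (2 : ℝ) ^ (1 - θ) := Real.one_lt_rpow (by norm_num) (by linarith)
  set γ : ℝ := (2 : ℝ) ^ (1 - θ) / ((2 : ℝ) ^ (1 - θ) - 1) with hγ
  have hγ0 : 0 < γ := div_pos (by linarith) (by linarith)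
  set k1 : ℝ := 6 ^ (d + 1) * 3 ^ m with hk1
  set k2 : ℝ := 5 ^ m * (4 / c) ^ θ with hk2
  have hk10 : 0 < k1 := by rw [hk1]; positivity
  have hk20 : 0 < k2 := by rw [hk2]; positivity
  refine ⟨4 * k1 + 2 * k2 * c ^ (θ - 1) * γ, by positivity, ?_⟩
  intro Q ρ hQ hρ F hF
  have hQ0 : 0 < Q := by linarith
  have hQw : 1 ≤ Q ^ w := Real.one_le_rpow hQ hw0.le
  have ht0 : 0 < c / Q ^ w := by positivity
  have h := dyadic_sum F (fun z => ‖Vv A z‖) d hd θ hθ1 (k1 * Q ^ m) (k2 * Q ^ m) (c / Q ^ w) ρ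
    (by positivity) (by positivity) ht0 hρ ?_ ?_
  · refine h.trans ?_
    have h1 : Q ^ m * (c / Q ^ w) ^ (θ - 1) = c ^ (θ - 1) * Q ^ w := by
      rw [Real.div_rpow hc.le (by positivity), ← Real.rpow_mul hQ0.le, ← Real.rpow_natCast Q m,
        div_eq_mul_inv, ← Real.rpow_neg hQ0.le, mul_left_comm, ← Real.rpow_add hQ0]
      congr 2
      rw [hθ]
      field_simp
      ring
    have h2 : 2 * (k2 * Q ^ m) * ((c / Q ^ w) ^ (θ - 1) * γ)
        = 2 * k2 * c ^ (θ - 1) * γ * Q ^ w := by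
      calc _ = 2 * k2 * γ * (Q ^ m * (c / Q ^ w) ^ (θ - 1)) := by ring
        _ = _ := by rw [h1]; ring
    rw [← hγ, h2]
    have h3 : 0 ≤ 4 * k1 * Q ^ w := by positivity
    have h4 : 0 ≤ 2 * k2 * c ^ (θ - 1) * γ * (Q ^ m * ρ ^ d) := by positivity
    nlinarith
  · intro z hz
    obtain ⟨h1, h2, h3⟩ := hF z hz
    refine ⟨?_, h3⟩
    rw [div_le_iff₀ (by positivity)]
    by_cases hb : z.2 = 0
    · have := one_le_norm_Vv A z h1 hb
      nlinarith
    · exact hA z hb Q hQ0 h2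
  · intro t ht G hG hGt
    rcases le_total t (1 / 4) with h4 | h4
    · have := count_small A c w hc hw0 hA Q t hQ0 ht h4 G fun z hz =>
        ⟨(hF z (hG hz)).1, (hF z (hG hz)).2.1, hGt z hz⟩
      have h5 : 0 ≤ k1 * Q ^ m * t ^ (d + 1) := by positivity
      rw [← hθ, ← hk2] at this
      linarith
    · have := count_large A Q t hQ0.le ht.le G fun z hz => ⟨(hF z (hG hz)).2.1, hGt z hz⟩
      have h5 : 0 ≤ k2 * Q ^ m * t ^ θ := by positivity
      have h6 : (2 * t + 1) ^ (d + 1) * (2 * Q + 1) ^ m ≤ (6 * t) ^ (d + 1) * (3 * Q) ^ m := by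
        gcongr
        · linarith
        · linarith
      have h7 : (6 * t) ^ (d + 1) * (3 * Q) ^ m = k1 * Q ^ m * t ^ (d + 1) := by
        rw [hk1, mul_pow, mul_pow]
        ring
      linarith

end Pool.Agent.H282Z
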