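import Mathlib

set_option autoImplicit false

open MeasureTheory

namespace Pool.Agent.H282Z.Gro

/-- Distance from a real number to the nearest integer. -/
noncomputable def nearInt (x : ℝ) : ℝ := |x - round x|

/-- Maximum over the coordinates of the distance to the nearest integer. -/
noncomputable def distInt {k : ℕ} (v : Fin k → ℝ) : ℝ := ‖fun i => nearInt (v i)‖

/-- Sup norm of an integer vector. -/
def height {k : ℕ} (q : Fin k → ℤ) : ℕ := Finset.univ.sup fun i => (q i).natAbs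

/-- The Diophantine exponent of the matrix `A`. -/
noncomputable def omega {d m : ℕ} (A : Matrix (Fin (d + 1)) (Fin m) ℝ) : EReal :=
  sSup ((fun w : ℝ => (w : EReal)) '' {w : ℝ |
    {q : Fin m → ℤ | distInt (A.mulVec fun k => (q k : ℝ)) < (height q : ℝ) ^ (-w)}.Infinite})

/-- The point `(x, (1, x) A)` of the affine subspace defined by `A`. -/
def point {d m : ℕ} (A : Matrix (Fin (d + 1)) (Fin m) ℝ) (x : Fin d → ℝ) : Fin (d + m) → ℝ :=
  Fin.append x (Matrix.vecMul (Fin.cons 1 x) A)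

/-- The set of dually `ψ`-approximable points. -/
def W (n : ℕ) (ψ : ℕ → ℝ) : Set (Fin n → ℝ) :=
  {y | {q : Fin n → ℤ | q ≠ 0 ∧ nearInt (∑ i, (q i : ℝ) * y i) < ψ (height q)}.Infinite}

/-- `ψ` is positive and non-increasing on the positive integers. -/
def Admissible (ψ : ℕ → ℝ) : Prop :=
  (∀ k, 1 ≤ k → 0 < ψ k) ∧ ∀ k l, 1 ≤ k → k ≤ l → ψ l ≤ ψ k

/-- Groshev type for convergence. -/
def GroshevConv {d m : ℕ} (A : Matrix (Fin (d + 1)) (Fin m) ℝ) : Prop :=
  ∀ ψ : ℕ → ℝ, Admissible ψ →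
    Summable (fun k : ℕ => ((k + 1 : ℕ) : ℝ) ^ (d + m - 1) * ψ (k + 1)) →
    volume {x : Fin d → ℝ | point A x ∈ W (d + m) ψ} = 0

/-- Groshev type for divergence. -/
def GroshevDiv {d m : ℕ} (A : Matrix (Fin (d + 1)) (Fin m) ℝ) : Prop :=
  ∀ ψ : ℕ → ℝ, Admissible ψ →
    ¬ Summable (fun k : ℕ => ((k + 1 : ℕ) : ℝ) ^ (d + m - 1) * ψ (k + 1)) →
    volume {x : Fin d → ℝ | point A x ∉ W (d + m) ψ} = 0

end Pool.Agent.H282Z.Gro
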