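import Mathlib

set_option autoImplicit false

open MeasureTheory Metric Set
open scoped ENNReal

namespace Pool.Agent.H282Z

/-- The affine form with coefficient vector `v`. -/
def Lf {d : ℕ} (v : Fin (d + 1) → ℝ) (x : Fin d → ℝ) : ℝ := v 0 + ∑ j, v j.succ * x j

theorem continuous_Lf {d : ℕ} (v : Fin (d + 1) → ℝ) : Continuous (Lf v) := by
  unfold Lf
  fun_prop

theorem line_preimage {e : ℕ} (j : Fin (e + 1)) (S : Set (Fin (e + 1) → ℝ)) (z : Fin e → ℝ) :
    ((fun s : ℝ => (s, z)) ⁻¹'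
      ((MeasurableEquiv.piFinSuccAbove (fun _ : Fin (e + 1) => ℝ) j).symm ⁻¹' S))
      = {s : ℝ | (j.insertNth s z : Fin (e + 1) → ℝ) ∈ S} := by
  ext s
  simp [MeasurableEquiv.piFinSuccAbove_symm_apply, Fin.insertNthEquiv]

theorem fubini_line {e : ℕ} (j : Fin (e + 1)) (S : Set (Fin (e + 1) → ℝ)) (hS : MeasurableSet S) :
    volume S = ∫⁻ z : Fin e → ℝ, volume {s : ℝ | (j.insertNth s z : Fin (e + 1) → ℝ) ∈ S} := by
  have h := (volume_preserving_piFinSuccAbove (fun _ : Fin (e + 1) => ℝ) j).symm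
  rw [← h.measure_preimage hS.nullMeasurableSet, Measure.volume_eq_prod,
    Measure.prod_apply_symm (h.measurable hS)]
  simp_rw [line_preimage]

theorem measurable_line {e : ℕ} (j : Fin (e + 1)) (S : Set (Fin (e + 1) → ℝ))
    (hS : MeasurableSet S) :
    Measurable fun z : Fin e → ℝ => volume {s : ℝ | (j.insertNth s z : Fin (e + 1) → ℝ) ∈ S} := by
  have h := measurable_measure_prodMk_right (μ := (volume : Measure ℝ))
    ((MeasurableEquiv.piFinSuccAbove (fun _ : Fin (e + 1) => ℝ) j).symm.measurable hS)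
  simpa only [line_preimage] using h

theorem Lf_insertNth {e : ℕ} (v : Fin (e + 2) → ℝ) (j : Fin (e + 1)) (s : ℝ) (z : Fin e → ℝ) :
    Lf v (j.insertNth s z) = v j.succ * s + (v 0 + ∑ k, v (j.succAbove k).succ * z k) := by
  unfold Lf
  rw [Fin.sum_univ_succAbove _ j]
  simp only [Fin.insertNth_apply_same, Fin.insertNth_apply_succAbove]
  ring

theorem norm_insertNth_le {e : ℕ} (j : Fin (e + 1)) (s : ℝ) (z : Fin e → ℝ) (R : ℝ) (hR : 0 ≤ R)
    (h : ‖(j.insertNth s z : Fin (e + 1) → ℝ)‖ ≤ R) : |s| ≤ R ∧ ‖z‖ ≤ R := by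
  constructor
  · have := (norm_le_pi_norm (j.insertNth s z : Fin (e + 1) → ℝ) j).trans h
    simpa using this
  · refine (pi_norm_le_iff_of_nonneg hR).2 fun k => ?_
    have := (norm_le_pi_norm (j.insertNth s z : Fin (e + 1) → ℝ) (j.succAbove k)).trans h
    simpa using this

/-- A set all of whose sections in direction `j` have measure at most `b`. -/
theorem volume_le_of_lines {e : ℕ} (R : ℝ) (hR : 0 ≤ R) (g : (Fin e → ℝ) → ℝ≥0∞) (b : ℝ≥0∞)
    (h0 : ∀ z, R < ‖z‖ → g z = 0) (hb : ∀ z, g z ≤ b) :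
    ∫⁻ z, g z ≤ b * ENNReal.ofReal ((2 * R) ^ e) := by
  calc ∫⁻ z, g z ≤ ∫⁻ z, (closedBall (0 : Fin e → ℝ) R).indicator (fun _ => b) z := by
        refine lintegral_mono fun z => ?_
        by_cases hz : z ∈ closedBall (0 : Fin e → ℝ) R
        · rw [indicator_of_mem hz]
          exact hb z
        · rw [h0 z (by simpa using hz)]
          exact zero_le
    _ = _ := by
        rw [lintegral_indicator_const measurableSet_closedBall, Real.volume_pi_closedBall _ hR,
          Fintype.card_fin]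

theorem slab_coord {e : ℕ} (v : Fin (e + 2) → ℝ) (j : Fin (e + 1)) (hj : v j.succ ≠ 0)
    (R δ : ℝ) (hR : 0 ≤ R) (hδ : 0 ≤ δ) :
    volume ({x | |Lf v x| < δ} ∩ closedBall (0 : Fin (e + 1) → ℝ) R) ≤
      ENNReal.ofReal (2 * δ / |v j.succ| * (2 * R) ^ e) := by
  have hm : MeasurableSet ({x | |Lf v x| < δ} ∩ closedBall (0 : Fin (e + 1) → ℝ) R) :=
    (isOpen_lt (continuous_Lf v).abs continuous_const).measurableSet.inter measurableSet_closedBall
  have hv : 0 < |v j.succ| := abs_pos.2 hj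
  rw [fubini_line j _ hm, ENNReal.ofReal_mul (by positivity)]
  refine volume_le_of_lines R hR _ _ ?_ ?_
  · intro z hz
    convert measure_empty (μ := (volume : Measure ℝ))
    rw [eq_empty_iff_forall_notMem]
    intro s hs
    have := (norm_insertNth_le j s z R hR (by simpa using hs.2)).2
    linarith
  · intro z
    set c := v 0 + ∑ k, v (j.succAbove k).succ * z k with hc
    calc volume {s : ℝ | (j.insertNth s z : Fin (e + 1) → ℝ) ∈
            ({x | |Lf v x| < δ} ∩ closedBall (0 : Fin (e + 1) → ℝ) R)}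
        ≤ volume (ball (-c / v j.succ) (δ / |v j.succ|)) := by
          refine measure_mono fun s hs => ?_
          have h1 : |Lf v (j.insertNth s z)| < δ := hs.1
          rw [Lf_insertNth, ← hc] at h1
          rw [mem_ball, Real.dist_eq, lt_div_iff₀ hv, ← abs_mul]
          have h2 : (s - -c / v j.succ) * v j.succ = v j.succ * s + c := by
            field_simp
            ring
          rw [h2]
          exact h1
      _ = _ := by
          rw [Real.volume_ball]
          congr 1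
          ring

theorem exists_big_coord {e : ℕ} (v : Fin (e + 2) → ℝ) (x : Fin (e + 1) → ℝ) (R δ : ℝ)
    (hR : 1 ≤ R) (hx : ‖x‖ ≤ R) (hL : |Lf v x| < δ) (hδ : 2 * δ ≤ ‖v‖) :
    ∃ j : Fin (e + 1), ‖v‖ ≤ 2 * (e + 1) * R * |v j.succ| := by
  obtain ⟨j, -, hj⟩ := Finset.exists_max_image Finset.univ (fun j : Fin (e + 1) => |v j.succ|)
    Finset.univ_nonempty
  refine ⟨j, ?_⟩
  set M := |v j.succ| with hM
  have hM0 : 0 ≤ M := abs_nonneg _
  have he : (1 : ℝ) ≤ (e + 1) * R := by
    have : (0 : ℝ) ≤ e := Nat.cast_nonneg e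
    nlinarith
  have hsum : |∑ k, v (Fin.succ k) * x k| ≤ (e + 1) * R * M := by
    refine (Finset.abs_sum_le_sum_abs _ _).trans ?_
    calc ∑ k, |v (Fin.succ k) * x k| ≤ ∑ _k : Fin (e + 1), M * R := by
          refine Finset.sum_le_sum fun k _ => ?_
          rw [abs_mul]
          exact mul_le_mul (hj k (Finset.mem_univ _)) ((norm_le_pi_norm x k).trans hx)
            (abs_nonneg _) hM0
      _ = (e + 1) * R * M := by
          simp only [Finset.sum_const, Finset.card_univ, Fintype.card_fin, nsmul_eq_mul]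
          push_cast
          ring
  have h0 : |v 0| ≤ δ + (e + 1) * R * M := by
    have h1 : v 0 = Lf v x - ∑ k, v (Fin.succ k) * x k := by
      unfold Lf
      ring
    rw [h1]
    refine (abs_sub _ _).trans ?_
    linarith
  have hδ0 : 0 ≤ δ := (abs_nonneg _).trans hL.le
  have hnorm : ‖v‖ ≤ δ + (e + 1) * R * M := by
    refine (pi_norm_le_iff_of_nonneg (by positivity)).2 fun k => ?_
    refine Fin.cases h0 (fun k => ?_) k
    have h2 : |v k.succ| ≤ M := hj k (Finset.mem_univ _)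
    have h3 : M ≤ (e + 1) * R * M := le_mul_of_one_le_left hM0 he
    rw [Real.norm_eq_abs]
    linarith
  linarith

theorem slab_le {e : ℕ} (v : Fin (e + 2) → ℝ) (hv : v ≠ 0) (R δ : ℝ) (hR : 1 ≤ R) (hδ : 0 ≤ δ) :
    volume ({x | |Lf v x| < δ} ∩ closedBall (0 : Fin (e + 1) → ℝ) R) ≤
      ENNReal.ofReal (2 * (e + 1) * (2 * R) ^ (e + 1) * δ * (1 / ‖v‖)) := by
  have hv0 : 0 < ‖v‖ := norm_pos_iff.2 hv
  have hR0 : 0 ≤ R := by linarith
  have he0 : (0 : ℝ) ≤ e := Nat.cast_nonneg e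
  by_cases h : 2 * δ ≤ ‖v‖
  · rcases eq_empty_or_nonempty ({x | |Lf v x| < δ} ∩ closedBall (0 : Fin (e + 1) → ℝ) R) with
      h0 | ⟨x, hx1, hx2⟩
    · rw [h0]
      simp
    · obtain ⟨j, hj⟩ := exists_big_coord v x R δ hR (by simpa using hx2) hx1 h
      have hj0 : v j.succ ≠ 0 := by
        intro h0
        rw [h0] at hj
        simp at hj
        exact hv hj
      refine (slab_coord v j hj0 R δ hR0 hδ).trans (ENNReal.ofReal_le_ofReal ?_)
      have hj1 : 0 < |v j.succ| := abs_pos.2 hj0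
      have h1 : 1 / |v j.succ| ≤ 2 * (e + 1) * R * (1 / ‖v‖) := by
        rw [mul_one_div, div_le_div_iff₀ hj1 hv0]
        linarith
      calc 2 * δ / |v j.succ| * (2 * R) ^ e = 2 * δ * (2 * R) ^ e * (1 / |v j.succ|) := by ring
        _ ≤ 2 * δ * (2 * R) ^ e * (2 * (e + 1) * R * (1 / ‖v‖)) := by gcongr
        _ = _ := by ring
  · refine (measure_mono inter_subset_right).trans ?_
    rw [Real.volume_pi_closedBall _ hR0, Fintype.card_fin]
    refine ENNReal.ofReal_le_ofReal ?_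
    have h1 : 1 ≤ 2 * δ * (1 / ‖v‖) := by
      rw [mul_one_div, le_div_iff₀ hv0]
      linarith
    have h2 : (0 : ℝ) ≤ (2 * R) ^ (e + 1) := by positivity
    calc (2 * R) ^ (e + 1) ≤ (2 * R) ^ (e + 1) * (2 * δ * (1 / ‖v‖)) :=
          le_mul_of_one_le_right h2 h1
      _ = 1 * ((2 * R) ^ (e + 1) * (2 * δ * (1 / ‖v‖))) := by ring
      _ ≤ (e + 1) * ((2 * R) ^ (e + 1) * (2 * δ * (1 / ‖v‖))) := by
          gcongr
          linarith
      _ = _ := by ring

end Pool.Agent.H282Z
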