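import Mathlib
import Pool.Agent.H282Z.GDefs
import Pool.Agent.H282Z.Slab
import Pool.Agent.H282Z.Count

set_option autoImplicit false

open MeasureTheory Metric Set Filter Topology
open scoped ENNReal

namespace Pool.Agent.H282Z.Gro

theorem height_le_iff {k : ℕ} (q : Fin k → ℤ) (N : ℕ) :
    height q ≤ N ↔ ∀ i, |(q i : ℝ)| ≤ N := by
  unfold height
  rw [Finset.sup_le_iff]
  simp only [Finset.mem_univ, true_imp_iff]
  refine forall_congr' fun i => ?_
  rw [← Int.cast_abs, ← Int.natCast_natAbs]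
  exact_mod_cast Iff.rfl

theorem abs_le_height {k : ℕ} (q : Fin k → ℤ) (i : Fin k) : |(q i : ℝ)| ≤ height q :=
  (height_le_iff q _).1 le_rfl i

theorem height_pos {k : ℕ} (q : Fin k → ℤ) (hq : q ≠ 0) : 1 ≤ height q := by
  by_contra h
  apply hq
  funext i
  have h1 : height q ≤ 0 := by omega
  have h2 := (height_le_iff q 0).1 h1 i
  simp only [Nat.cast_zero, abs_nonpos_iff, Int.cast_eq_zero] at h2
  exact h2

theorem height_le_real {k : ℕ} (q : Fin k → ℤ) (H : ℝ) (hH : 0 ≤ H) (h : ∀ i, |(q i : ℝ)| ≤ H) :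
    (height q : ℝ) ≤ H := by
  have h1 : height q ≤ ⌊H⌋₊ := by
    unfold height
    refine Finset.sup_le fun i _ => Nat.le_floor ?_
    have := h i
    rwa [← Int.cast_abs, ← Int.natCast_natAbs, Int.cast_natCast] at this
  exact (Nat.cast_le.2 h1).trans (Nat.floor_le hH)

theorem finite_height_le {k : ℕ} (N : ℕ) : {q : Fin k → ℤ | height q ≤ N}.Finite := by
  refine (Fintype.piFinset fun _ : Fin k => Finset.Icc (-(N : ℤ)) N).finite_toSet.subset ?_
  intro q hq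
  simp only [Finset.mem_coe, Fintype.mem_piFinset, Finset.mem_Icc]
  intro i
  have := abs_le.1 ((height_le_iff q N).1 hq i)
  exact ⟨by exact_mod_cast this.1, by exact_mod_cast this.2⟩

theorem nearInt_le (x : ℝ) (p : ℤ) : nearInt x ≤ |(p : ℝ) + x| := by
  have := round_le x (-p)
  unfold nearInt
  refine this.trans (le_of_eq ?_)
  congr 1
  push_cast
  ring

theorem nearInt_nonneg (x : ℝ) : 0 ≤ nearInt x := abs_nonneg _

/-- The pair `(u, b)` attached to `p` and `q`. -/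
def zOf {d m : ℕ} (p : ℤ) (q : Fin (d + m) → ℤ) : (Fin (d + 1) → ℤ) × (Fin m → ℤ) :=
  (Fin.cons p fun j => q (Fin.castAdd m j), fun k => q (Fin.natAdd d k))

theorem zOf_ne_zero {d m : ℕ} (p : ℤ) (q : Fin (d + m) → ℤ) (hq : q ≠ 0) : zOf p q ≠ 0 := by
  intro h
  apply hq
  funext i
  refine Fin.addCases (fun j => ?_) (fun k => ?_) i
  · have := congrFun (congrArg Prod.fst h) j.succ
    simpa [zOf] using this
  · have := congrFun (congrArg Prod.snd h) k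
    simpa [zOf] using this

theorem Lf_zOf {d m : ℕ} (A : Matrix (Fin (d + 1)) (Fin m) ℝ) (p : ℤ) (q : Fin (d + m) → ℤ)
    (x : Fin d → ℝ) : Lf (Vv A (zOf p q)) x = p + ∑ i, (q i : ℝ) * point A x i := by
  unfold Lf Vv zOf point
  rw [Fin.sum_univ_add]
  simp only [Fin.cons_zero, Fin.cons_succ, Fin.append_left, Fin.append_right, Matrix.vecMul,
    dotProduct, Fin.sum_univ_succ, one_mul, add_mul, mul_add, Finset.sum_add_distrib,
    Finset.sum_mul, Finset.mul_sum]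
  rw [Finset.sum_comm (s := (Finset.univ : Finset (Fin d)))]
  have h1 : ∑ k, A 0 k * (q (Fin.natAdd d k) : ℝ) = ∑ k, (q (Fin.natAdd d k) : ℝ) * A 0 k :=
    Finset.sum_congr rfl fun k _ => mul_comm _ _
  have h2 : ∑ k, ∑ j, A (Fin.succ j) k * (q (Fin.natAdd d k) : ℝ) * x j
      = ∑ k, ∑ j, (q (Fin.natAdd d k) : ℝ) * (x j * A (Fin.succ j) k) :=
    Finset.sum_congr rfl fun k _ => Finset.sum_congr rfl fun j _ => by ring
  rw [h1, h2]
  ring

/-- Size of the matrix. -/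
noncomputable def sz {d m : ℕ} (A : Matrix (Fin (d + 1)) (Fin m) ℝ) : ℝ := ∑ i, ∑ k, |A i k|

theorem sz_nonneg {d m : ℕ} (A : Matrix (Fin (d + 1)) (Fin m) ℝ) : 0 ≤ sz A := by
  unfold sz
  positivity

theorem abs_Vv_succ_le {d m : ℕ} (A : Matrix (Fin (d + 1)) (Fin m) ℝ) (p : ℤ)
    (q : Fin (d + m) → ℤ) (Q : ℝ) (hQ : 0 ≤ Q) (hq : ∀ i, |(q i : ℝ)| ≤ Q) (j : Fin d) :
    |Vv A (zOf p q) j.succ| ≤ (1 + sz A) * Q := by
  have h1 : |∑ k, A j.succ k * (q (Fin.natAdd d k) : ℝ)| ≤ sz A * Q := by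
    refine (Finset.abs_sum_le_sum_abs _ _).trans ?_
    calc ∑ k, |A j.succ k * (q (Fin.natAdd d k) : ℝ)| ≤ ∑ k, |A j.succ k| * Q := by
          refine Finset.sum_le_sum fun k _ => ?_
          rw [abs_mul]
          gcongr
          exact hq _
      _ = (∑ k, |A j.succ k|) * Q := by rw [Finset.sum_mul]
      _ ≤ sz A * Q := by
          gcongr
          exact Finset.single_le_sum (f := fun i => ∑ k, |A i k|) (fun i _ => by positivity)
            (Finset.mem_univ j.succ)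
  have h2 : Vv A (zOf p q) j.succ
      = q (Fin.castAdd m j) + ∑ k, A j.succ k * (q (Fin.natAdd d k) : ℝ) := by
    simp [Vv, zOf]
  rw [h2]
  refine (abs_add_le _ _).trans ?_
  have := hq (Fin.castAdd m j)
  linarith

theorem norm_Vv_le {d m : ℕ} (A : Matrix (Fin (d + 1)) (Fin m) ℝ) (p : ℤ)
    (q : Fin (d + m) → ℤ) (Q R : ℝ) (hQ : 1 ≤ Q) (hR : 0 ≤ R) (hq : ∀ i, |(q i : ℝ)| ≤ Q)
    (x : Fin d → ℝ) (hx : ‖x‖ ≤ R) (hL : |Lf (Vv A (zOf p q)) x| ≤ 1) :
    ‖Vv A (zOf p q)‖ ≤ (1 + (d * R + 1) * (1 + sz A)) * Q := by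
  have hs := sz_nonneg A
  have hQ0 : 0 ≤ Q := by linarith
  have hj := abs_Vv_succ_le A p q Q hQ0 hq
  set v := Vv A (zOf p q)
  have h1 : |∑ j, v (Fin.succ j) * x j| ≤ d * R * ((1 + sz A) * Q) := by
    refine (Finset.abs_sum_le_sum_abs _ _).trans ?_
    calc ∑ j, |v (Fin.succ j) * x j| ≤ ∑ _j : Fin d, (1 + sz A) * Q * R := by
          refine Finset.sum_le_sum fun j _ => ?_
          rw [abs_mul]
          exact mul_le_mul (hj j) ((norm_le_pi_norm x j).trans hx) (abs_nonneg _) (by positivity)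
      _ = _ := by
          simp only [Finset.sum_const, Finset.card_univ, Fintype.card_fin, nsmul_eq_mul]
          ring
  have h2 : 0 ≤ d * R * ((1 + sz A) * Q) := by positivity
  have h3 : 0 ≤ (1 + sz A) * Q := by positivity
  refine (pi_norm_le_iff_of_nonneg (by positivity)).2 fun k => ?_
  rw [Real.norm_eq_abs]
  refine Fin.cases ?_ (fun j => ?_) k
  · have h4 : v 0 = Lf v x - ∑ j, v (Fin.succ j) * x j := by
      unfold Lf
      ring
    rw [h4]
    refine (abs_sub _ _).trans ?_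
    nlinarith
  · have := hj j
    nlinarith

theorem dio_of_omega {d m : ℕ} (hd : 1 ≤ d) (A : Matrix (Fin (d + 1)) (Fin m) ℝ)
    (h : omega A < ((d + m : ℕ) : ℝ)) :
    ∃ c w : ℝ, 0 < c ∧ c ≤ 1 ∧ (m : ℝ) < w ∧ w < (d + m : ℕ) ∧ Dio A c w := by
  classical
  have h1 : max (omega A) ((m : ℝ) : EReal) < (((d + m : ℕ) : ℝ) : EReal) := by
    refine max_lt h ?_
    rw [EReal.coe_lt_coe_iff]
    exact_mod_cast (by omega : m < d + m)
  obtain ⟨w, hw1, hw2⟩ := EReal.lt_iff_exists_real_btwn.1 h1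
  rw [max_lt_iff] at hw1
  have hmw : (m : ℝ) < w := EReal.coe_lt_coe_iff.1 hw1.2
  have hwn : w < (d + m : ℕ) := EReal.coe_lt_coe_iff.1 hw2
  have hw0 : 0 < w := lt_of_le_of_lt (Nat.cast_nonneg m) hmw
  have hfin : {q : Fin m → ℤ |
      distInt (A.mulVec fun k => (q k : ℝ)) < (height q : ℝ) ^ (-w)}.Finite := by
    by_contra hinf
    have : (w : EReal) ≤ omega A := le_sSup ⟨w, hinf, rfl⟩
    exact absurd hw1.1 (not_lt.2 this)
  have hle : ∀ z : (Fin (d + 1) → ℤ) × (Fin m → ℤ),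
      distInt (A.mulVec fun k => (z.2 k : ℝ)) ≤ ‖Vv A z‖ := by
    intro z
    refine (pi_norm_le_iff_of_nonneg (norm_nonneg _)).2 fun i => ?_
    rw [Real.norm_eq_abs, abs_of_nonneg (nearInt_nonneg _)]
    exact (nearInt_le _ (z.1 i)).trans (norm_le_pi_norm (Vv A z) i)
  have hpos : ∀ b : Fin m → ℤ, b ≠ 0 → 0 < distInt (A.mulVec fun k => (b k : ℝ)) := by
    intro b hb
    refine lt_of_le_of_ne (norm_nonneg _) fun h0 => ?_
    have h2 : ∀ i, (A.mulVec fun k => (b k : ℝ)) i = round ((A.mulVec fun k => (b k : ℝ)) i) := by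
      intro i
      have h3 := congrFun (norm_eq_zero.1 h0.symm) i
      simp only [nearInt, Pi.zero_apply, abs_eq_zero] at h3
      linarith
    refine hfin.not_infinite (infinite_of_injective_forall_mem
      (f := fun k : ℕ => ((k : ℤ) + 1) • b) ?_ ?_)
    · intro k l hkl
      obtain ⟨i, hi⟩ := Function.ne_iff.1 hb
      have := congrFun hkl i
      simp only [Pi.smul_apply, smul_eq_mul] at this
      have h4 := mul_right_cancel₀ hi this
      omega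
    · intro k
      have hne : ((k : ℤ) + 1) • b ≠ 0 := smul_ne_zero (by omega) hb
      have hh : (0 : ℝ) < height (((k : ℤ) + 1) • b) := by exact_mod_cast height_pos _ hne
      have h5 : distInt (A.mulVec fun j => (((((k : ℤ) + 1) • b) j : ℤ) : ℝ)) = 0 := by
        unfold distInt
        rw [norm_eq_zero]
        funext i
        have h6 : (A.mulVec fun j => (((((k : ℤ) + 1) • b) j : ℤ) : ℝ)) i
            = ((((k : ℤ) + 1) * round ((A.mulVec fun k => (b k : ℝ)) i) : ℤ) : ℝ) := by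
          push_cast
          rw [← h2 i]
          simp only [Matrix.mulVec, dotProduct, Pi.smul_apply, smul_eq_mul, Int.cast_mul,
            Int.cast_add, Int.cast_natCast, Int.cast_one, Finset.mul_sum]
          exact Finset.sum_congr rfl fun j _ => by ring
        simp only [nearInt, h6, round_intCast, sub_self, abs_zero, Pi.zero_apply]
      show distInt _ < _
      rw [h5]
      positivity
  obtain ⟨c, hc0, hc1, hc⟩ : ∃ c : ℝ, 0 < c ∧ c ≤ 1 ∧ ∀ b ∈ hfin.toFinset, b ≠ 0 →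
      c ≤ distInt (A.mulVec fun k => (b k : ℝ)) := by
    have : ∀ᶠ c : ℝ in 𝓝[>] 0, ∀ b ∈ hfin.toFinset, b ≠ 0 →
        c ≤ distInt (A.mulVec fun k => (b k : ℝ)) := by
      rw [eventually_all_finset]
      intro b _
      by_cases hb : b = 0
      · exact Eventually.of_forall fun c h => absurd hb h
      · filter_upwards [nhdsWithin_le_nhds (ge_mem_nhds (hpos b hb))] with c hc _
        exact hc
    have e1 : ∀ᶠ c : ℝ in 𝓝[>] 0, 0 < c := self_mem_nhdsWithin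
    have e2 : ∀ᶠ c : ℝ in 𝓝[>] 0, c ≤ 1 := nhdsWithin_le_nhds (ge_mem_nhds zero_lt_one)
    obtain ⟨c, h2, h3, h4⟩ := (this.and (e1.and e2)).exists
    exact ⟨c, h3, h4, h2⟩
  refine ⟨c, w, hc0, hc1, hmw, hwn, ?_⟩
  intro z hz H hH hzH
  have hh1 : (1 : ℝ) ≤ height z.2 := by exact_mod_cast height_pos _ hz
  have hhH : (height z.2 : ℝ) ≤ H := height_le_real _ H hH.le hzH
  have hHw : (height z.2 : ℝ) ^ w ≤ H ^ w := Real.rpow_le_rpow (by linarith) hhH hw0.le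
  have h1w : 1 ≤ (height z.2 : ℝ) ^ w := Real.one_le_rpow hh1 hw0.le
  have hn := norm_nonneg (Vv A z)
  by_cases hmem : z.2 ∈ hfin.toFinset
  · have h2 := (hc _ hmem hz).trans (hle z)
    nlinarith
  · rw [Finite.mem_toFinset, mem_ofPred_eq, not_lt] at hmem
    have h2 := hmem.trans (hle z)
    rw [Real.rpow_neg (by linarith), inv_le_iff_one_le_mul₀ (by linarith)] at h2
    nlinarith

theorem Vv_ne_zero {d m : ℕ} (A : Fin (d + 1) → Fin m → ℝ) (c w : ℝ) (hc : 0 < c)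
    (hA : Dio A c w) (z : (Fin (d + 1) → ℤ) × (Fin m → ℤ)) (hz : z ≠ 0) : Vv A z ≠ 0 := by
  intro h0
  by_cases hb : z.2 = 0
  · have := one_le_norm_Vv A z hz hb
    rw [h0, norm_zero] at this
    linarith
  · have hh1 : (1 : ℝ) ≤ height z.2 := by exact_mod_cast height_pos _ hb
    have := hA z hb (height z.2) (by linarith) (abs_le_height z.2)
    rw [h0, norm_zero, zero_mul] at this
    linarith

/-- Points where some admissible form with small coefficient vector is small. -/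
def Bad {d m : ℕ} (A : Fin (d + 1) → Fin m → ℝ) (R Q ρ δ : ℝ) : Set (Fin d → ℝ) :=
  {x | ‖x‖ ≤ R ∧ ∃ z : (Fin (d + 1) → ℤ) × (Fin m → ℤ), z ≠ 0 ∧ (∀ k, |(z.2 k : ℝ)| ≤ Q) ∧
    ‖Vv A z‖ ≤ ρ ∧ |Lf (Vv A z) x| < δ}

theorem bad_le {e m : ℕ} (A : Fin (e + 2) → Fin m → ℝ) (c w : ℝ)
    (hc : 0 < c) (hc1 : c ≤ 1) (hw : (m : ℝ) < w) (hA : Dio A c w) (R : ℝ) (hR : 1 ≤ R) :
    ∃ K : ℝ, 0 < K ∧ ∀ Q ρ δ : ℝ, 1 ≤ Q → 0 < ρ → 0 ≤ δ →
      volume (Bad A R Q ρ δ) ≤ ENNReal.ofReal (K * δ * (Q ^ m * ρ ^ (e + 1) + Q ^ w)) := by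
  classical
  obtain ⟨K, hK, hKs⟩ := sum_inv_norm_le (d := e + 1) (by omega) A c w hc hc1 hw hA
  set C : ℝ := 2 * (e + 1) * (2 * R) ^ (e + 1) with hC
  have hC0 : 0 < C := by rw [hC]; positivity
  refine ⟨C * K, by positivity, fun Q ρ δ hQ hρ hδ => ?_⟩
  let T : Set ((Fin (e + 2) → ℤ) × (Fin m → ℤ)) :=
    {z | z ≠ 0 ∧ (∀ k, |(z.2 k : ℝ)| ≤ Q) ∧ ‖Vv A z‖ ≤ ρ}
  have hsub : Bad A R Q ρ δ ⊆
      ⋃ z : T, ({x | |Lf (Vv A z.1) x| < δ} ∩ closedBall (0 : Fin (e + 1) → ℝ) R) := by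
    rintro x ⟨hx, z, h1, h2, h3, h4⟩
    exact mem_iUnion.2 ⟨⟨z, h1, h2, h3⟩, h4, by simpa using hx⟩
  refine (measure_mono hsub).trans ((measure_iUnion_le _).trans ?_)
  refine ENNReal.summable.tsum_le_of_sum_le fun F => ?_
  calc ∑ z ∈ F, volume ({x | |Lf (Vv A z.1) x| < δ} ∩ closedBall (0 : Fin (e + 1) → ℝ) R)
      ≤ ∑ z ∈ F, ENNReal.ofReal (C * δ * (1 / ‖Vv A z.1‖)) :=
        Finset.sum_le_sum fun z _ => slab_le _ (Vv_ne_zero A c w hc hA _ z.2.1) R δ hR hδ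
    _ = ENNReal.ofReal (C * δ * ∑ z ∈ F.map (Function.Embedding.subtype _), 1 / ‖Vv A z‖) := by
        rw [← ENNReal.ofReal_sum_of_nonneg fun z _ => by positivity, Finset.sum_map,
          Finset.mul_sum]
        rfl
    _ ≤ _ := by
        refine ENNReal.ofReal_le_ofReal ?_
        have h1 := hKs Q ρ hQ hρ (F.map (Function.Embedding.subtype _)) (by
          intro z hz
          obtain ⟨z', -, rfl⟩ := Finset.mem_map.1 hz
          exact z'.2)
        calc C * δ * ∑ z ∈ F.map (Function.Embedding.subtype _), 1 / ‖Vv A z‖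
            ≤ C * δ * (K * (Q ^ m * ρ ^ (e + 1) + Q ^ w)) := by gcongr
          _ = _ := by ring

theorem cond_upper (n : ℕ) (ψ : ℕ → ℝ) (hψ : Admissible ψ) (I : ℕ) :
    ∑ k ∈ Finset.Ico (1 : ℕ) (2 ^ I), (k : ℝ) ^ n * ψ k ≤
      2 ^ n * ∑ i ∈ Finset.range I, ((2 : ℝ) ^ i) ^ (n + 1) * ψ (2 ^ i) := by
  induction I with
  | zero => simp
  | succ I ih =>
    have h1 : 1 ≤ 2 ^ I := Nat.one_le_two_pow
    have h2 : 2 ^ I ≤ 2 ^ (I + 1) := Nat.pow_le_pow_right (by norm_num) (by omega)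
    rw [← Finset.sum_Ico_consecutive _ h1 h2, Finset.sum_range_succ, mul_add]
    refine add_le_add ih ?_
    have h3 := (hψ.1 _ h1).le
    calc ∑ k ∈ Finset.Ico (2 ^ I : ℕ) (2 ^ (I + 1)), (k : ℝ) ^ n * ψ k
        ≤ ∑ _k ∈ Finset.Ico (2 ^ I : ℕ) (2 ^ (I + 1)), ((2 : ℝ) ^ (I + 1)) ^ n * ψ (2 ^ I) := by
          refine Finset.sum_le_sum fun k hk => ?_
          obtain ⟨h4, h5⟩ := Finset.mem_Ico.1 hk
          have h6 : (k : ℝ) ≤ 2 ^ (I + 1) := by exact_mod_cast h5.le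
          exact mul_le_mul (pow_le_pow_left₀ (Nat.cast_nonneg k) h6 n) (hψ.2 _ _ h1 h4)
            (hψ.1 k (h1.trans h4)).le (by positivity)
      _ = _ := by
          rw [Finset.sum_const, Nat.card_Ico, nsmul_eq_mul,
            (by rw [pow_succ]; omega : 2 ^ (I + 1) - 2 ^ I = 2 ^ I)]
          push_cast
          rw [pow_succ (2 : ℝ) I, mul_pow, pow_succ]
          ring

theorem cond_lower (n : ℕ) (ψ : ℕ → ℝ) (hψ : Admissible ψ) (I : ℕ) :
    ∑ i ∈ Finset.range I, ((2 : ℝ) ^ (i + 1)) ^ (n + 1) * ψ (2 ^ (i + 1)) ≤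
      2 ^ (n + 1) * ∑ k ∈ Finset.Ico (1 : ℕ) (2 ^ I), (k : ℝ) ^ n * ψ k := by
  induction I with
  | zero => simp
  | succ I ih =>
    have h1 : 1 ≤ 2 ^ I := Nat.one_le_two_pow
    have h2 : 2 ^ I ≤ 2 ^ (I + 1) := Nat.pow_le_pow_right (by norm_num) (by omega)
    rw [← Finset.sum_Ico_consecutive _ h1 h2, Finset.sum_range_succ, mul_add]
    refine add_le_add ih ?_
    have h3 := (hψ.1 _ (h1.trans h2)).le
    calc ((2 : ℝ) ^ (I + 1)) ^ (n + 1) * ψ (2 ^ (I + 1))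
        = 2 ^ (n + 1) *
          ∑ _k ∈ Finset.Ico (2 ^ I : ℕ) (2 ^ (I + 1)), ((2 : ℝ) ^ I) ^ n * ψ (2 ^ (I + 1)) := by
          rw [Finset.sum_const, Nat.card_Ico, nsmul_eq_mul,
            (by rw [pow_succ]; omega : 2 ^ (I + 1) - 2 ^ I = 2 ^ I)]
          push_cast
          rw [pow_succ (2 : ℝ) I, mul_pow, pow_succ ((2 : ℝ) ^ I)]
          ring
      _ ≤ _ := by
          gcongr with k hk
          · obtain ⟨h4, h5⟩ := Finset.mem_Ico.1 hk
            exact_mod_cast h4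
          · obtain ⟨h4, h5⟩ := Finset.mem_Ico.1 hk
            exact hψ.2 _ _ (h1.trans h4) h5.le

theorem sum_Ico_eq (n : ℕ) (ψ : ℕ → ℝ) (N : ℕ) :
    ∑ k ∈ Finset.Ico 1 N, (k : ℝ) ^ n * ψ k
      = ∑ k ∈ Finset.range (N - 1), ((k + 1 : ℕ) : ℝ) ^ n * ψ (k + 1) := by
  rw [Finset.sum_Ico_eq_sum_range]
  simp only [add_comm 1]

theorem summable_dyadic_iff (n : ℕ) (ψ : ℕ → ℝ) (hψ : Admissible ψ) :
    Summable (fun k : ℕ => ((k + 1 : ℕ) : ℝ) ^ n * ψ (k + 1)) ↔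
      Summable (fun i : ℕ => ((2 : ℝ) ^ i) ^ (n + 1) * ψ (2 ^ i)) := by
  have hn1 : ∀ k : ℕ, 0 ≤ ((k + 1 : ℕ) : ℝ) ^ n * ψ (k + 1) := fun k =>
    mul_nonneg (by positivity) (hψ.1 _ (by omega)).le
  have hn2 : ∀ i : ℕ, 0 ≤ ((2 : ℝ) ^ i) ^ (n + 1) * ψ (2 ^ i) := fun i =>
    mul_nonneg (by positivity) (hψ.1 _ Nat.one_le_two_pow).le
  constructor
  · intro h
    rw [← summable_nat_add_iff 1]
    refine summable_of_sum_range_le (fun i => hn2 (i + 1))
      (c := 2 ^ (n + 1) * ∑' k : ℕ, ((k + 1 : ℕ) : ℝ) ^ n * ψ (k + 1)) fun I => ?_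
    refine (cond_lower n ψ hψ I).trans ?_
    rw [sum_Ico_eq]
    gcongr
    exact h.sum_le_tsum _ fun k _ => hn1 k
  · intro h
    refine summable_of_sum_range_le hn1
      (c := 2 ^ n * ∑' i : ℕ, ((2 : ℝ) ^ i) ^ (n + 1) * ψ (2 ^ i)) fun N => ?_
    have h1 : N ≤ 2 ^ N - 1 := by
      have := Nat.lt_two_pow_self (n := N)
      omega
    calc ∑ k ∈ Finset.range N, ((k + 1 : ℕ) : ℝ) ^ n * ψ (k + 1)
        ≤ ∑ k ∈ Finset.range (2 ^ N - 1), ((k + 1 : ℕ) : ℝ) ^ n * ψ (k + 1) :=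
          Finset.sum_le_sum_of_subset_of_nonneg (Finset.range_mono h1) fun k _ _ => hn1 k
      _ ≤ _ := by
          rw [← sum_Ico_eq]
          refine (cond_upper n ψ hψ N).trans ?_
          gcongr
          exact h.sum_le_tsum _ fun i _ => hn2 i

end Pool.Agent.H282Z.Gro
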