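import Mathlib
import Pool.Agent.H282Z.GBasic

set_option autoImplicit false

open MeasureTheory Metric Set Filter Topology
open scoped ENNReal

namespace Pool.Agent.H282Z.Gro

theorem null_of_balls {d : ℕ} (S : Set (Fin d → ℝ))
    (h : ∀ R : ℕ, volume (S ∩ closedBall 0 ((R : ℝ) + 1)) = 0) : volume S = 0 := by
  have : S = ⋃ R : ℕ, S ∩ closedBall 0 ((R : ℝ) + 1) := by
    ext x
    simp only [mem_iUnion, mem_inter_iff, mem_closedBall, dist_zero_right]
    constructor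
    · intro hx
      obtain ⟨R, hR⟩ := exists_nat_ge ‖x‖
      exact ⟨R, hx, by linarith⟩
    · rintro ⟨R, hx, -⟩
      exact hx
  rw [this]
  exact measure_iUnion_null h

theorem conv {e m : ℕ} (A : Matrix (Fin (e + 1 + 1)) (Fin m) ℝ) (c w : ℝ)
    (hc : 0 < c) (hc1 : c ≤ 1) (hw : (m : ℝ) < w) (hwn : w < (e + 1 + m : ℕ)) (hA : Dio A c w) :
    GroshevConv A := by
  intro ψ hψ hsum
  rw [summable_dyadic_iff _ ψ hψ, (by omega : e + 1 + m - 1 + 1 = e + 1 + m)] at hsum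
  refine null_of_balls _ fun R0 => ?_
  set R : ℝ := (R0 : ℝ) + 1 with hRdef
  have hR : 1 ≤ R := by
    rw [hRdef]
    linarith [Nat.cast_nonneg (α := ℝ) R0]
  obtain ⟨K, hK, hKb⟩ := bad_le A c w hc hc1 hw hA R hR
  set C1 : ℝ := 1 + (((e + 1 : ℕ) : ℝ) * R + 1) * (1 + sz A) with hC1
  have hs := sz_nonneg A
  have hC10 : 0 < C1 := by rw [hC1]; positivity
  let B : ℕ → Set (Fin (e + 1) → ℝ) := fun i =>
    Bad A R ((2 : ℝ) ^ (i + 1)) (C1 * 2 ^ (i + 1)) (ψ (2 ^ i))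
  have hB : ∀ i, volume (B i) ≤ ENNReal.ofReal
      (K * (C1 ^ (e + 1) + 1) * 2 ^ (e + 1 + m) * (((2 : ℝ) ^ i) ^ (e + 1 + m) * ψ (2 ^ i))) := by
    intro i
    have hQ : (1 : ℝ) ≤ 2 ^ (i + 1) := one_le_pow₀ (by norm_num)
    have hδ := (hψ.1 _ (Nat.one_le_two_pow (n := i))).le
    refine (hKb _ _ _ hQ (by positivity) hδ).trans (ENNReal.ofReal_le_ofReal ?_)
    have h1 : ((2 : ℝ) ^ (i + 1)) ^ w ≤ ((2 : ℝ) ^ (i + 1)) ^ (e + 1 + m) := by
      rw [← Real.rpow_natCast ((2 : ℝ) ^ (i + 1)) (e + 1 + m)]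
      exact Real.rpow_le_rpow_of_exponent_le hQ hwn.le
    calc K * ψ (2 ^ i) * (((2 : ℝ) ^ (i + 1)) ^ m * (C1 * 2 ^ (i + 1)) ^ (e + 1)
            + ((2 : ℝ) ^ (i + 1)) ^ w)
        ≤ K * ψ (2 ^ i) * (((2 : ℝ) ^ (i + 1)) ^ m * (C1 * 2 ^ (i + 1)) ^ (e + 1)
            + ((2 : ℝ) ^ (i + 1)) ^ (e + 1 + m)) := by gcongr
      _ = _ := by
          rw [pow_succ (2 : ℝ) i]
          simp only [mul_pow, pow_add]
          ring
  have htot : ∑' i, volume (B i) ≠ ∞ := by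
    refine ne_top_of_le_ne_top ?_ (ENNReal.tsum_le_tsum hB)
    rw [← ENNReal.ofReal_tsum_of_nonneg _ (hsum.mul_left _)]
    · exact ENNReal.ofReal_ne_top
    · intro i
      have := (hψ.1 _ (Nat.one_le_two_pow (n := i))).le
      positivity
  refine measure_mono_null ?_ (measure_limsup_atTop_eq_zero htot)
  rintro x ⟨hx, hxR⟩
  rw [mem_closedBall, dist_zero_right] at hxR
  rw [mem_limsup_iff_frequently_mem]
  by_contra hcon
  rw [not_frequently, eventually_atTop] at hcon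
  obtain ⟨I, hI⟩ := hcon
  refine hx ((finite_height_le (2 ^ I)).subset ?_)
  rintro q ⟨hq0, hq⟩
  by_contra hh
  have hh' : 2 ^ I < height q := not_le.1 hh
  have h1 := height_pos q hq0
  have hi1 : 2 ^ Nat.log 2 (height q) ≤ height q := Nat.pow_log_le_self 2 (by omega)
  have hi2 : height q < 2 ^ (Nat.log 2 (height q) + 1) := Nat.lt_pow_succ_log_self (by norm_num) _
  have hi3 : I ≤ Nat.log 2 (height q) := Nat.le_log_of_pow_le (by norm_num) hh'.le
  set i := Nat.log 2 (height q)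
  apply hI i hi3
  have hqb : ∀ k, |(q k : ℝ)| ≤ (2 : ℝ) ^ (i + 1) := by
    intro k
    refine (abs_le_height q k).trans ?_
    exact_mod_cast hi2.le
  have hL : Lf (Vv A (zOf (-round (∑ k, (q k : ℝ) * point A x k)) q)) x
      = ∑ k, (q k : ℝ) * point A x k - round (∑ k, (q k : ℝ) * point A x k) := by
    rw [Lf_zOf]
    push_cast
    ring
  refine ⟨hxR, zOf (-round (∑ k, (q k : ℝ) * point A x k)) q, zOf_ne_zero _ q hq0,
    fun k => hqb _, ?_, ?_⟩
  · refine norm_Vv_le A _ q _ R (one_le_pow₀ (by norm_num)) (by linarith) hqb x hxR ?_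
    rw [hL]
    exact (abs_sub_round _).trans (by norm_num)
  · rw [hL]
    exact lt_of_lt_of_le hq (hψ.2 _ _ Nat.one_le_two_pow hi1)

end Pool.Agent.H282Z.Gro
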