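import Mathlib

set_option autoImplicit false

open MeasureTheory Metric Set
open scoped ENNReal

namespace Pool.Agent.H282Z

theorem exists_infDist_eq_real (E : Set ℝ) (t c r : ℝ) (hr : 0 < r)
    (ht : t ∈ E) (hdisj : ∀ y ∈ E, r ≤ dist y c) :
    ∃ c' : ℝ, infDist c' E = r ∧ dist c' t ≤ dist c t := by
  have hcont : Continuous fun s : ℝ => infDist (t + s • (c - t)) E :=
    (continuous_infDist_pt E).comp (by fun_prop)
  have h0 : infDist (t + (0 : ℝ) • (c - t)) E = 0 := by
    simp [infDist_zero_of_mem ht]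
  have h1 : r ≤ infDist (t + (1 : ℝ) • (c - t)) E := by
    have : t + (1 : ℝ) • (c - t) = c := by simp
    rw [this]
    refine (le_infDist ⟨t, ht⟩).2 fun y hy => ?_
    rw [dist_comm]
    exact hdisj y hy
  obtain ⟨s, hs, hs'⟩ : r ∈ (fun s : ℝ => infDist (t + s • (c - t)) E) '' Icc (0 : ℝ) 1 := by
    apply intermediate_value_Icc zero_le_one hcont.continuousOn
    exact ⟨by rw [h0]; exact hr.le, h1⟩
  refine ⟨t + s • (c - t), hs', ?_⟩
  rw [dist_eq_norm, dist_eq_norm, add_sub_cancel_left, norm_smul, Real.norm_eq_abs,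
    abs_of_nonneg hs.1]
  exact mul_le_of_le_one_left (norm_nonneg _) hs.2

theorem holes_estimate_real (E S G : Set ℝ) (hS : S ⊆ E) (lam : ℝ) (hlam : 0 < lam)
    (P : ℝ → Prop)
    (hG : ∀ t ∈ S, ∀ r, P r → ∀ y, dist y t ≤ 2 → r / 2 < infDist y E → infDist y E < 3 * r / 2 →
      y ∈ G)
    (h : ∀ t ∈ S, ∃ c : ℝ, ∃ D : ℝ, 0 < D ∧ D ≤ 1 ∧ P (lam * D) ∧ dist c t ≤ D ∧
      ∀ y ∈ E, lam * D ≤ dist y c) :
    ENNReal.ofReal (lam / 10) * volume S ≤ volume G := by
  have h' : ∀ t ∈ S, ∃ c : ℝ, ∃ D : ℝ, 0 < D ∧ D ≤ 1 ∧ P (lam * D) ∧ dist c t ≤ D ∧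
      infDist c E = lam * D := by
    intro t ht
    obtain ⟨c, D, hD, hD1, hP, hct, hy⟩ := h t ht
    obtain ⟨c', h1, h2⟩ := exists_infDist_eq_real E t c (lam * D) (mul_pos hlam hD) (hS ht) hy
    exact ⟨c', D, hD, hD1, hP, h2.trans hct, h1⟩
  choose! c D hD hD1 hP hct hinf using h'
  have hrD : ∀ t ∈ S, lam * D t ≤ D t := by
    intro t ht
    rw [← hinf t ht]
    exact (infDist_le_dist_of_mem (hS ht)).trans (hct t ht)
  obtain ⟨u, huS, hdisj, hcov⟩ :=
    Vitali.exists_disjoint_subfamily_covering_enlargement_closedBall S c D 1 hD1 5 (by norm_num)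
  have hucount : u.Countable := by
    apply hdisj.countable_of_nonempty_interior
    intro t ht
    refine ⟨c t, ?_⟩
    exact mem_interior_iff_mem_nhds.2 (closedBall_mem_nhds _ (hD t (huS ht)))
  have hsub : S ⊆ ⋃ b ∈ u, closedBall (c b) (5 * D b) := by
    intro t ht
    obtain ⟨b, hb, hbb⟩ := hcov t ht
    refine mem_biUnion hb (hbb ?_)
    rw [mem_closedBall, dist_comm]
    exact hct t ht
  have hdisj2 : u.PairwiseDisjoint fun b => ball (c b) (lam * D b / 2) := by
    refine hdisj.mono_on fun b hb => ?_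
    have h1 := hrD b (huS hb)
    have h2 := hD b (huS hb)
    exact ball_subset_closedBall.trans (closedBall_subset_closedBall (by linarith))
  have hsubG : (⋃ b ∈ u, ball (c b) (lam * D b / 2)) ⊆ G := by
    intro y hy
    obtain ⟨b, hb, hyb⟩ := mem_iUnion₂.1 hy
    have hbS := huS hb
    rw [mem_ball] at hyb
    have h1 := hrD b hbS
    have h2 := hD b hbS
    have h3 := hD1 b hbS
    have h4 := hct b hbS
    have h5 := hinf b hbS
    have h6 : infDist y E ≤ infDist (c b) E + dist y (c b) := infDist_le_infDist_add_dist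
    have h7 : infDist (c b) E ≤ infDist y E + dist (c b) y := infDist_le_infDist_add_dist
    rw [dist_comm (c b) y] at h7
    refine hG b hbS (lam * D b) (hP b hbS) y ?_ (by linarith) (by linarith)
    have := dist_triangle y (c b) b
    linarith
  calc ENNReal.ofReal (lam / 10) * volume S
      ≤ ENNReal.ofReal (lam / 10) * ∑' b : u, volume (closedBall (c b) (5 * D b)) := by
        gcongr
        exact (measure_mono hsub).trans (measure_biUnion_le _ hucount _)
    _ = ∑' b : u, volume (ball (c b) (lam * D b / 2)) := by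
        rw [← ENNReal.tsum_mul_left]
        refine tsum_congr fun b => ?_
        rw [Real.volume_closedBall, Real.volume_ball, ← ENNReal.ofReal_mul (by positivity)]
        congr 1
        ring
    _ = volume (⋃ b ∈ u, ball (c b) (lam * D b / 2)) := by
        rw [measure_biUnion hucount hdisj2 fun b _ => measurableSet_ball]
    _ ≤ volume G := measure_mono hsubG

/-- Sets with bounded overlap inside a fixed set. -/
theorem tsum_measure_le_of_overlap (G : ℕ → Set ℝ) (hG : ∀ i, MeasurableSet (G i)) (B : Set ℝ)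
    (hB : MeasurableSet B) (hGB : ∀ i, G i ⊆ B) (L : ℕ)
    (hL : ∀ i i' y, y ∈ G i → y ∈ G i' → i' < i + L) :
    ∑' i, volume (G i) ≤ L * volume B := by
  classical
  calc ∑' i, volume (G i) = ∑' i, ∫⁻ y, (G i).indicator (fun _ => (1 : ℝ≥0∞)) y := by
        refine tsum_congr fun i => ?_
        rw [lintegral_indicator_const (hG i), one_mul]
    _ = ∫⁻ y, ∑' i, (G i).indicator (fun _ => (1 : ℝ≥0∞)) y :=
        (lintegral_tsum fun i => (measurable_const.indicator (hG i)).aemeasurable).symm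
    _ ≤ ∫⁻ y, B.indicator (fun _ => (L : ℝ≥0∞)) y := by
        refine lintegral_mono fun y => ?_
        by_cases hex : ∃ i, y ∈ G i
        · have h0 := Nat.find_spec hex
          rw [indicator_of_mem (hGB _ h0),
            tsum_eq_sum (s := Finset.Ico (Nat.find hex) (Nat.find hex + L))]
          · calc ∑ i ∈ Finset.Ico (Nat.find hex) (Nat.find hex + L),
                  (G i).indicator (fun _ => (1 : ℝ≥0∞)) y
                ≤ ∑ _i ∈ Finset.Ico (Nat.find hex) (Nat.find hex + L), (1 : ℝ≥0∞) :=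
                  Finset.sum_le_sum fun i _ => indicator_le_self' (fun _ _ => zero_le) y
              _ = L := by simp
          · intro i hi
            refine indicator_of_notMem (fun hy => hi ?_) _
            exact Finset.mem_Ico.2 ⟨Nat.find_min' hex hy, hL _ _ y h0 hy⟩
        · push Not at hex
          simp [indicator_of_notMem (hex _)]
    _ = L * volume B := lintegral_indicator_const hB _

/-- One-dimensional estimate: holes of relative size `lam i` at geometrically decreasing scales. -/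
theorem line_estimate (E : Set ℝ) (S : ℕ → Set ℝ) (R : ℝ) (hSE : ∀ i, S i ⊆ E)
    (hSR : ∀ i, ∀ s ∈ S i, |s| ≤ R) (lam ρ : ℕ → ℝ) (hlam : ∀ i, 0 < lam i) (hρ : ∀ i, 0 < ρ i)
    (hdec : ∀ i, 2 * ρ (i + 1) ≤ ρ i) (L : ℕ)
    (h : ∀ i, ∀ s ∈ S i, ∃ c D : ℝ, 0 < D ∧ D ≤ 1 ∧ (ρ i ≤ lam i * D ∧ 3 * (lam i * D) ≤ 2 ^ L * ρ i)
      ∧ dist c s ≤ D ∧ ∀ y ∈ E, lam i * D ≤ dist y c) :
    ∑' i, ENNReal.ofReal (lam i / 10) * volume (S i) ≤ L * ENNReal.ofReal (2 * (R + 3)) := by
  let G : ℕ → Set ℝ := fun i => ball 0 (R + 3) ∩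
    ({y | ρ i / 2 < infDist y E} ∩ {y | infDist y E < 2 ^ L * ρ i / 2})
  have hGm : ∀ i, MeasurableSet (G i) := fun i =>
    (isOpen_ball.inter ((isOpen_lt continuous_const (continuous_infDist_pt E)).inter
      (isOpen_lt (continuous_infDist_pt E) continuous_const))).measurableSet
  have hdec' : ∀ i k, 2 ^ k * ρ (i + k) ≤ ρ i := by
    intro i k
    induction k with
    | zero => simp
    | succ k ih =>
      have h1 := hdec (i + k)
      calc (2 : ℝ) ^ (k + 1) * ρ (i + (k + 1)) = 2 ^ k * (2 * ρ (i + k + 1)) := by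
            rw [pow_succ, ← add_assoc]
            ring
        _ ≤ 2 ^ k * ρ (i + k) := by gcongr
        _ ≤ ρ i := ih
  have hov : ∀ i i' y, y ∈ G i → y ∈ G i' → i' < i + L := by
    rintro i i' y ⟨-, h1, -⟩ ⟨-, -, h2⟩
    by_contra hcon
    obtain ⟨k, rfl⟩ := Nat.exists_eq_add_of_le (not_lt.1 hcon)
    have h3 := hdec' i (L + k)
    rw [← add_assoc] at h3
    have h4 : (2 : ℝ) ^ L * ρ (i + L + k) ≤ 2 ^ (L + k) * ρ (i + L + k) := by
      have := hρ (i + L + k)
      gcongr
      · norm_num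
      · omega
    simp only [mem_ofPred_eq] at h1 h2
    linarith
  calc ∑' i, ENNReal.ofReal (lam i / 10) * volume (S i) ≤ ∑' i, volume (G i) := by
        refine ENNReal.tsum_le_tsum fun i => ?_
        refine holes_estimate_real E (S i) (G i) (hSE i) (lam i) (hlam i)
          (fun r => ρ i ≤ r ∧ 3 * r ≤ 2 ^ L * ρ i) ?_ (h i)
        intro t ht r hr y hy h1 h2
        refine ⟨?_, ?_, ?_⟩
        · have h3 := hSR i t ht
          have h4 := dist_triangle y t 0
          rw [Real.dist_eq t 0, sub_zero] at h4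
          rw [mem_ball]
          linarith
        · simp only [mem_ofPred_eq]
          linarith [hr.1]
        · simp only [mem_ofPred_eq]
          linarith [hr.2]
    _ ≤ L * volume (ball (0 : ℝ) (R + 3)) :=
        tsum_measure_le_of_overlap G hGm _ measurableSet_ball (fun i => inter_subset_left) L hov
    _ = _ := by rw [Real.volume_ball]

/-- Dirichlet's theorem for one linear form. -/
theorem dirichlet_dual {n : ℕ} (hn : 1 ≤ n) (y : Fin n → ℝ) (Q : ℕ) (hQ : 1 ≤ Q) :
    ∃ q : Fin n → ℤ, q ≠ 0 ∧ (∀ i, |(q i : ℝ)| ≤ Q) ∧ ∃ p : ℤ,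
      |(p : ℝ) + ∑ i, (q i : ℝ) * y i| < 1 / (Q : ℝ) ^ n := by
  classical
  have hQ0 : (0 : ℝ) < (Q : ℝ) ^ n := by positivity
  let f : (Fin n → ℕ) → ℤ := fun a => ⌊Int.fract (∑ i, (a i : ℝ) * y i) * (Q : ℝ) ^ n⌋
  have hmaps : ∀ a ∈ Fintype.piFinset (fun _ : Fin n => Finset.range (Q + 1)),
      f a ∈ Finset.Ico (0 : ℤ) ((Q ^ n : ℕ) : ℤ) := by
    intro a _
    rw [Finset.mem_Ico]
    constructor
    · exact Int.floor_nonneg.2 (mul_nonneg (Int.fract_nonneg _) hQ0.le)
    · rw [Int.floor_lt]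
      push_cast
      exact mul_lt_of_lt_one_left hQ0 (Int.fract_lt_one _)
  have hcard : (Finset.Ico (0 : ℤ) ((Q ^ n : ℕ) : ℤ)).card <
      (Fintype.piFinset (fun _ : Fin n => Finset.range (Q + 1))).card := by
    simp only [Int.card_Ico, sub_zero, Int.toNat_natCast, Fintype.card_piFinset, Finset.card_range,
      Finset.prod_const, Finset.card_univ, Fintype.card_fin]
    exact Nat.pow_lt_pow_left (Nat.lt_succ_self Q) (by omega)
  obtain ⟨a, ha, b, hb, hab, hf⟩ := Finset.exists_ne_map_eq_of_card_lt_of_maps_to hcard hmaps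
  rw [Fintype.mem_piFinset] at ha hb
  refine ⟨fun i => (a i : ℤ) - b i, ?_, ?_,
    ⌊∑ i, (b i : ℝ) * y i⌋ - ⌊∑ i, (a i : ℝ) * y i⌋, ?_⟩
  · intro h
    apply hab
    funext i
    have := congrFun h i
    simp only [Pi.zero_apply] at this
    omega
  · intro i
    have h1 : (a i : ℝ) ≤ Q := by exact_mod_cast Nat.lt_succ_iff.1 (Finset.mem_range.1 (ha i))
    have h2 : (b i : ℝ) ≤ Q := by exact_mod_cast Nat.lt_succ_iff.1 (Finset.mem_range.1 (hb i))
    have h3 : (0 : ℝ) ≤ a i := Nat.cast_nonneg _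
    have h4 : (0 : ℝ) ≤ b i := Nat.cast_nonneg _
    push_cast
    rw [abs_le]
    constructor <;> linarith
  · have h1 := Int.abs_sub_lt_one_of_floor_eq_floor hf
    rw [← sub_mul, abs_mul, abs_of_pos hQ0, ← lt_div_iff₀ hQ0] at h1
    have h2 : ((⌊∑ i, (b i : ℝ) * y i⌋ - ⌊∑ i, (a i : ℝ) * y i⌋ : ℤ) : ℝ) +
        ∑ i, ((((a i : ℤ) - b i : ℤ)) : ℝ) * y i
        = Int.fract (∑ i, (a i : ℝ) * y i) - Int.fract (∑ i, (b i : ℝ) * y i) := by
      simp only [Int.fract]
      push_cast
      simp only [sub_mul, Finset.sum_sub_distrib]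
      ring
    rw [h2]
    exact h1

end Pool.Agent.H282Z
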