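import Mathlib
import Pool.Agent.H282Z.GConv
import Pool.Agent.H282Z.Line

set_option autoImplicit false

open MeasureTheory Metric Set Filter Topology
open scoped ENNReal

namespace Pool.Agent.H282Z.Gro

theorem div_core {e m : ℕ} (A : Matrix (Fin (e + 1 + 1)) (Fin m) ℝ) (c w : ℝ)
    (hc : 0 < c) (hc1 : c ≤ 1) (hw : (m : ℝ) < w) (hwn : w < (e + 1 + m : ℕ)) (hA : Dio A c w)
    (φ : ℕ → ℝ) (hφ : Admissible φ)
    (hdiv : ¬ Summable fun i : ℕ => ((2 : ℝ) ^ i) ^ (e + 1 + m) * φ (2 ^ i)) :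
    volume {x : Fin (e + 1) → ℝ | ∀ (p : ℤ) (q : Fin (e + 1 + m) → ℤ), q ≠ 0 →
      φ (height q) ≤ |Lf (Vv A (zOf p q)) x|} = 0 := by
  classical
  set E := {x : Fin (e + 1) → ℝ | ∀ (p : ℤ) (q : Fin (e + 1 + m) → ℤ), q ≠ 0 →
      φ (height q) ≤ |Lf (Vv A (zOf p q)) x|} with hE
  have hEm : MeasurableSet E := by
    have : E = ⋂ (p : ℤ), ⋂ (q : Fin (e + 1 + m) → ℤ), ⋂ (_ : q ≠ 0),
        {x | φ (height q) ≤ |Lf (Vv A (zOf p q)) x|} := by
      ext x
      simp [hE]
    rw [this]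
    exact (isClosed_iInter fun p => isClosed_iInter fun q => isClosed_iInter fun _ =>
      isClosed_le continuous_const (continuous_Lf _).abs).measurableSet
  refine null_of_balls _ fun R0 => ?_
  set R : ℝ := (R0 : ℝ) + 1 with hRdef
  have hR : 1 ≤ R := by
    rw [hRdef]
    linarith [Nat.cast_nonneg (α := ℝ) R0]
  have hR0 : 0 ≤ R := by linarith
  set ER := E ∩ closedBall (0 : Fin (e + 1) → ℝ) R with hER
  have hERm : MeasurableSet ER := hEm.inter measurableSet_closedBall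
  have hfin : volume ER ≠ ∞ :=
    ne_top_of_le_ne_top measure_closedBall_lt_top.ne (measure_mono inter_subset_right)
  by_contra hne
  set a : ℝ := (volume ER).toReal with ha
  have ha0 : 0 < a := ENNReal.toReal_pos hne hfin
  have haE : volume ER = ENNReal.ofReal a := (ENNReal.ofReal_toReal hfin).symm
  obtain ⟨K, hK, hKb⟩ := bad_le A c w hc hc1 hw hA R hR
  set ε : ℝ := min 1 (a / (4 * K)) with hε
  have hε0 : 0 < ε := lt_min zero_lt_one (by positivity)
  have hε1 : ε ≤ 1 := min_le_left _ _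
  have hε2 : K * ε ^ (e + 1) ≤ a / 4 := by
    have h1 : ε ^ (e + 1) ≤ ε := pow_le_of_le_one hε0.le hε1 (by omega)
    have h2 : ε ≤ a / (4 * K) := min_le_right _ _
    calc K * ε ^ (e + 1) ≤ K * (a / (4 * K)) := by gcongr; exact h1.trans h2
      _ = a / 4 := by field_simp
  set ε' : ℝ := ε / (2 * (e + 1) * R) with hε'
  have hε'0 : 0 < ε' := by rw [hε']; positivity
  have hs := sz_nonneg A
  obtain ⟨L, hL⟩ : ∃ L : ℕ, 3 * (1 + sz A) / ε' ≤ 2 ^ L :=
    ((tendsto_pow_atTop_atTop_of_one_lt (by norm_num : (1 : ℝ) < 2)).eventually_ge_atTop _).exists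
  obtain ⟨i0, hi0⟩ : ∃ i0 : ℕ, ∀ i ≥ i0, K * ((2 : ℝ) ^ i) ^ (w - (e + 1 + m : ℕ)) ≤ a / 4 ∧
      2 ≤ ε * 2 ^ i ∧ 1 ≤ ε' * 2 ^ i := by
    have h2 := tendsto_pow_atTop_atTop_of_one_lt (by norm_num : (1 : ℝ) < 2)
    have h3 : Tendsto (fun i : ℕ => K * ((2 : ℝ) ^ i) ^ (w - (e + 1 + m : ℕ))) atTop (𝓝 0) := by
      have h4 := (tendsto_rpow_neg_atTop (y := (e + 1 + m : ℕ) - w) (by linarith)).comp h2
      have h5 := h4.const_mul K
      rw [mul_zero] at h5
      refine h5.congr fun i => ?_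
      simp only [Function.comp, neg_sub]
    rw [← eventually_atTop]
    exact (h3.eventually (ge_mem_nhds (by positivity))).and
      (((h2.const_mul_atTop hε0).eventually_ge_atTop _).and
        ((h2.const_mul_atTop hε'0).eventually_ge_atTop _))
  let S : ℕ → Fin (e + 1) → Set (Fin (e + 1) → ℝ) := fun i j =>
    ER ∩ ⋃ (p : ℤ), ⋃ (q : Fin (e + 1 + m) → ℤ), ⋃ (_ : q ≠ 0 ∧ (∀ k, |(q k : ℝ)| ≤ (2 : ℝ) ^ i) ∧
      ε' * 2 ^ i ≤ |Vv A (zOf p q) j.succ|),
      {x | |Lf (Vv A (zOf p q)) x| < 1 / ((2 : ℝ) ^ i) ^ (e + 1 + m)}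
  have hSm : ∀ i j, MeasurableSet (S i j) := fun i j =>
    hERm.inter (isOpen_iUnion fun p => isOpen_iUnion fun q => isOpen_iUnion fun _ =>
      isOpen_lt (continuous_Lf _).abs continuous_const).measurableSet
  have hlow : ∀ i ≥ i0, ENNReal.ofReal (a / 2) ≤ ∑ j, volume (S i j) := by
    intro i hi
    obtain ⟨h1, h2, h3⟩ := hi0 i hi
    have hQ : (1 : ℝ) ≤ 2 ^ i := one_le_pow₀ (by norm_num)
    have hQn : (1 : ℝ) ≤ ((2 : ℝ) ^ i) ^ (e + 1 + m) := one_le_pow₀ hQ
    have hδ1 : 1 / ((2 : ℝ) ^ i) ^ (e + 1 + m) ≤ 1 := by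
      rw [div_le_one (by positivity)]
      exact hQn
    have hbad : volume (Bad A R ((2 : ℝ) ^ i) (ε * 2 ^ i) (1 / ((2 : ℝ) ^ i) ^ (e + 1 + m)))
        ≤ ENNReal.ofReal (a / 2) := by
      refine (hKb _ _ _ hQ (by positivity) (by positivity)).trans (ENNReal.ofReal_le_ofReal ?_)
      have h4 : K * (1 / ((2 : ℝ) ^ i) ^ (e + 1 + m)) *
          (((2 : ℝ) ^ i) ^ m * (ε * 2 ^ i) ^ (e + 1) + ((2 : ℝ) ^ i) ^ w)
          = K * ε ^ (e + 1) + K * ((2 : ℝ) ^ i) ^ (w - (e + 1 + m : ℕ)) := by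
        rw [Real.rpow_sub (by positivity), Real.rpow_natCast, mul_pow, pow_add _ (e + 1) m]
        field_simp
      rw [h4]
      linarith
    have hcov : ER ⊆ Bad A R ((2 : ℝ) ^ i) (ε * 2 ^ i) (1 / ((2 : ℝ) ^ i) ^ (e + 1 + m))
        ∪ ⋃ j, S i j := by
      intro x hx
      have hxR : ‖x‖ ≤ R := by simpa using hx.2
      obtain ⟨q, hq0, hq, p, hp⟩ := dirichlet_dual (n := e + 1 + m) (by omega) (point A x) (2 ^ i)
        Nat.one_le_two_pow
      push_cast at hq hp
      rw [← Lf_zOf] at hp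
      by_cases hv : ‖Vv A (zOf p q)‖ ≤ ε * 2 ^ i
      · exact Or.inl ⟨hxR, zOf p q, zOf_ne_zero p q hq0, fun k => hq _, hv, hp⟩
      · right
        rw [not_le] at hv
        obtain ⟨j, hj⟩ := exists_big_coord (Vv A (zOf p q)) x R _ hR hxR hp (by linarith)
        refine mem_iUnion.2 ⟨j, hx, ?_⟩
        simp only [mem_iUnion, mem_ofPred_eq]
        refine ⟨p, q, ⟨hq0, hq, ?_⟩, hp⟩
        rw [hε', div_mul_eq_mul_div, div_le_iff₀ (by positivity)]
        linarith
    have h5 : ENNReal.ofReal (a / 2) + ENNReal.ofReal (a / 2) ≤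
        ENNReal.ofReal (a / 2) + ∑ j, volume (S i j) := by
      rw [← ENNReal.ofReal_add (by positivity) (by positivity), add_halves, ← haE]
      refine (measure_mono hcov).trans ((measure_union_le _ _).trans (add_le_add hbad ?_))
      exact measure_iUnion_fintype_le _ _
    exact (ENNReal.add_le_add_iff_left ENNReal.ofReal_ne_top).1 h5
  let lam : ℕ → ℝ := fun i => ((2 : ℝ) ^ (i + i0)) ^ (e + 1 + m) * φ (2 ^ (i + i0))
  have hφ2 : ∀ i : ℕ, 0 < φ (2 ^ i) := fun i => hφ.1 _ Nat.one_le_two_pow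
  have hlam : ∀ i, 0 < lam i := fun i => mul_pos (by positivity) (hφ2 _)
  have hup : ∀ j, ∑' i, ENNReal.ofReal (lam i / 10) * volume (S (i + i0) j) ≤
      (L * ENNReal.ofReal (2 * (R + 3))) * ENNReal.ofReal ((2 * R) ^ e) := by
    intro j
    have h1 : ∑' i, ENNReal.ofReal (lam i / 10) * volume (S (i + i0) j) =
        ∫⁻ z : Fin e → ℝ, ∑' i, ENNReal.ofReal (lam i / 10) *
          volume {s : ℝ | (j.insertNth s z : Fin (e + 1) → ℝ) ∈ S (i + i0) j} := by
      rw [lintegral_tsum fun i =>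
        ((measurable_line j _ (hSm (i + i0) j)).const_mul _).aemeasurable]
      refine tsum_congr fun i => ?_
      rw [lintegral_const_mul _ (measurable_line j _ (hSm (i + i0) j)),
        ← fubini_line j _ (hSm (i + i0) j)]
    rw [h1]
    refine volume_le_of_lines R hR0 _ _ ?_ ?_
    · intro z hz
      refine ENNReal.tsum_eq_zero.2 fun i => ?_
      have : {s : ℝ | (j.insertNth s z : Fin (e + 1) → ℝ) ∈ S (i + i0) j} = ∅ := by
        rw [eq_empty_iff_forall_notMem]
        intro s hs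
        have := (norm_insertNth_le j s z R hR0 (by simpa using hs.1.2)).2
        linarith
      rw [this]
      simp
    · intro z
      refine line_estimate {s : ℝ | (j.insertNth s z : Fin (e + 1) → ℝ) ∈ E}
        (fun i => {s : ℝ | (j.insertNth s z : Fin (e + 1) → ℝ) ∈ S (i + i0) j}) R
        (fun i s hs => hs.1.1)
        (fun i s hs => (norm_insertNth_le j s z R hR0 (by simpa using hs.1.2)).1) lam
        (fun i => φ (2 ^ (i + i0)) / ((1 + sz A) * 2 ^ (i + i0))) hlam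
        (fun i => by have := hφ2 (i + i0); positivity) ?_ L ?_
      · intro i
        have h2 : φ (2 ^ (i + 1 + i0)) ≤ φ (2 ^ (i + i0)) :=
          hφ.2 _ _ Nat.one_le_two_pow (Nat.pow_le_pow_right (by norm_num) (by omega))
        have h3 := hφ2 (i + i0)
        calc 2 * (φ (2 ^ (i + 1 + i0)) / ((1 + sz A) * 2 ^ (i + 1 + i0)))
            ≤ 2 * (φ (2 ^ (i + i0)) / ((1 + sz A) * 2 ^ (i + 1 + i0))) := by gcongr
          _ = _ := by
            rw [(by omega : i + 1 + i0 = i + i0 + 1), pow_succ]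
            field_simp
      · intro i s hs
        obtain ⟨-, hs⟩ := hs
        simp only [mem_iUnion, mem_ofPred_eq] at hs
        obtain ⟨p, q, ⟨hq0, hq, hv⟩, hp⟩ := hs
        obtain ⟨-, -, h3⟩ := hi0 (i + i0) (by omega)
        set Q : ℝ := (2 : ℝ) ^ (i + i0) with hQdef
        have hQ : 1 ≤ Q := one_le_pow₀ (by norm_num)
        have hQn : (1 : ℝ) ≤ Q ^ (e + 1 + m) := one_le_pow₀ hQ
        have hv2 := abs_Vv_succ_le A p q Q (by linarith) hq j
        set v := Vv A (zOf p q) with hvdef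
        have hv1 : 1 ≤ |v j.succ| := h3.trans hv
        have hv0 : 0 < |v j.succ| := by linarith
        have hvne : v j.succ ≠ 0 := abs_pos.1 hv0
        set c0 := v 0 + ∑ k, v (j.succAbove k).succ * z k with hc0
        have hdist : ∀ y : ℝ, dist y (-c0 / v j.succ) = |Lf v (j.insertNth y z)| / |v j.succ| := by
          intro y
          rw [Lf_insertNth, ← hc0, Real.dist_eq, ← abs_div]
          congr 1
          field_simp
          ring
        have hφQ := hφ2 (i + i0)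
        have hr : lam i * (1 / Q ^ (e + 1 + m) / |v j.succ|) = φ (2 ^ (i + i0)) / |v j.succ| := by
          simp only [lam]
          rw [← hQdef]
          field_simp
        refine ⟨-c0 / v j.succ, 1 / Q ^ (e + 1 + m) / |v j.succ|, by positivity, ?_, ⟨?_, ?_⟩,
          ?_, ?_⟩
        · rw [div_div, div_le_one (by positivity)]
          nlinarith
        · rw [hr]
          gcongr
        · rw [hr]
          rw [div_le_iff₀ hε'0] at hL
          calc 3 * (φ (2 ^ (i + i0)) / |v j.succ|) ≤ 3 * (φ (2 ^ (i + i0)) / (ε' * Q)) := by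
                gcongr
            _ = (3 * (1 + sz A)) * (φ (2 ^ (i + i0)) / (ε' * ((1 + sz A) * Q))) := by
                field_simp
            _ ≤ (2 ^ L * ε') * (φ (2 ^ (i + i0)) / (ε' * ((1 + sz A) * Q))) := by gcongr
            _ = _ := by field_simp
        · rw [dist_comm, hdist]
          gcongr
        · intro y hy
          rw [hr, hdist]
          gcongr
          refine le_trans ?_ (hy p q hq0)
          refine hφ.2 _ _ (height_pos q hq0) ((height_le_iff q _).2 fun k => ?_)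
          push_cast
          exact hq k
  have htot : ∑' i, ENNReal.ofReal (lam i / 10 * (a / 2)) ≠ ∞ := by
    have h1 : ∑' i, ENNReal.ofReal (lam i / 10 * (a / 2)) ≤
        ∑ j, ∑' i, ENNReal.ofReal (lam i / 10) * volume (S (i + i0) j) := by
      rw [← Summable.tsum_finsetSum fun j _ => ENNReal.summable]
      refine ENNReal.tsum_le_tsum fun i => ?_
      rw [← Finset.mul_sum, ENNReal.ofReal_mul (by have := hlam i; positivity)]
      gcongr
      exact hlow _ (by omega)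
    refine ne_top_of_le_ne_top ?_ (h1.trans (Finset.sum_le_sum fun j _ => hup j))
    refine ENNReal.sum_ne_top.2 fun j _ => ?_
    exact ENNReal.mul_ne_top (ENNReal.mul_ne_top (by simp) ENNReal.ofReal_ne_top)
      ENNReal.ofReal_ne_top
  apply hdiv
  rw [← summable_nat_add_iff i0]
  refine ((ENNReal.summable_toReal htot).mul_left (20 / a)).congr fun i => ?_
  rw [ENNReal.toReal_ofReal (by have := hlam i; positivity)]
  simp only [lam]
  field_simp
  ring

theorem div {e m : ℕ} (A : Matrix (Fin (e + 1 + 1)) (Fin m) ℝ) (c w : ℝ)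
    (hc : 0 < c) (hc1 : c ≤ 1) (hw : (m : ℝ) < w) (hwn : w < (e + 1 + m : ℕ)) (hA : Dio A c w) :
    GroshevDiv A := by
  intro ψ hψ hsum
  rw [summable_dyadic_iff _ ψ hψ, (by omega : e + 1 + m - 1 + 1 = e + 1 + m)] at hsum
  have h1 : ∀ N : ℕ, ∀ᵐ x ∂(volume : Measure (Fin (e + 1) → ℝ)),
      ¬ ∀ (p : ℤ) (q : Fin (e + 1 + m) → ℤ), q ≠ 0 →
        min (ψ (height q)) (1 / ((N : ℝ) + 1)) ≤ |Lf (Vv A (zOf p q)) x| := by
    intro N
    have hη : (0 : ℝ) < 1 / ((N : ℝ) + 1) := by positivity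
    have := div_core A c w hc hc1 hw hwn hA (fun k => min (ψ k) (1 / ((N : ℝ) + 1)))
      ⟨fun k hk => lt_min (hψ.1 k hk) hη, fun k l hk hkl => min_le_min_right _ (hψ.2 k l hk hkl)⟩
      (by
        intro hs
        apply hsum
        have hev : ∀ᶠ i : ℕ in atTop, ((2 : ℝ) ^ i) ^ (e + 1 + m) *
            min (ψ (2 ^ i)) (1 / ((N : ℝ) + 1)) < 1 / ((N : ℝ) + 1) :=
          hs.tendsto_atTop_zero.eventually (gt_mem_nhds hη)
        refine hs.congr_atTop ?_
        filter_upwards [hev] with i hi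
        rcases min_choice (ψ (2 ^ i)) (1 / ((N : ℝ) + 1)) with h | h
        · rw [h]
        · rw [h] at hi
          have h2 : (1 : ℝ) ≤ ((2 : ℝ) ^ i) ^ (e + 1 + m) := one_le_pow₀ (one_le_pow₀ (by norm_num))
          nlinarith)
    rw [ae_iff]
    simpa only [not_not] using this
  have h2 : ∀ (p : ℤ) (q : Fin (e + 1 + m) → ℤ), ∀ᵐ x ∂(volume : Measure (Fin (e + 1) → ℝ)),
      q ≠ 0 → Lf (Vv A (zOf p q)) x ≠ 0 := by
    intro p q
    by_cases hq : q = 0
    · exact Eventually.of_forall fun x h => absurd hq h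
    have hv := Vv_ne_zero A c w hc hA _ (zOf_ne_zero p q hq)
    rw [ae_iff]
    refine null_of_balls _ fun R0 => ?_
    have hR : (1 : ℝ) ≤ (R0 : ℝ) + 1 := by linarith [Nat.cast_nonneg (α := ℝ) R0]
    refine le_antisymm (ENNReal.le_of_forall_pos_le_add fun η hη _ => ?_) zero_le
    set C : ℝ := 2 * (e + 1) * (2 * ((R0 : ℝ) + 1)) ^ (e + 1) with hC
    have hC0 : 0 < C := by rw [hC]; positivity
    have hn : 0 < ‖Vv A (zOf p q)‖ := norm_pos_iff.2 hv
    have hη' : (0 : ℝ) < η := hη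
    have h3 := slab_le _ hv ((R0 : ℝ) + 1) (η * ‖Vv A (zOf p q)‖ / C) hR (by positivity)
    rw [← hC] at h3
    have h4 : C * (η * ‖Vv A (zOf p q)‖ / C) * (1 / ‖Vv A (zOf p q)‖) = η := by field_simp
    rw [h4, ENNReal.ofReal_coe_nnreal] at h3
    rw [zero_add]
    refine le_trans (measure_mono (inter_subset_inter_left _ fun x hx => ?_)) h3
    simp only [mem_ofPred_eq, Classical.not_imp, not_not, ne_eq] at hx
    rw [mem_ofPred_eq, hx.2, abs_zero]
    positivity
  have h3 : ∀ᵐ x ∂(volume : Measure (Fin (e + 1) → ℝ)), point A x ∈ W (e + 1 + m) ψ := by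
    filter_upwards [ae_all_iff.2 h1, ae_all_iff.2 fun p => ae_all_iff.2 (h2 p)] with x hx1 hx2
    intro hfin
    have hev : ∀ᶠ N : ℕ in atTop, ∀ q ∈ hfin.toFinset,
        1 / ((N : ℝ) + 1) ≤ nearInt (∑ i, (q i : ℝ) * point A x i) := by
      rw [eventually_all_finset]
      intro q hq
      rw [Finite.mem_toFinset] at hq
      have h4 := hx2 (-round (∑ i, (q i : ℝ) * point A x i)) q hq.1
      rw [Lf_zOf] at h4
      have h5 : 0 < nearInt (∑ i, (q i : ℝ) * point A x i) := by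
        refine abs_pos.2 fun h => h4 ?_
        push_cast
        linarith
      exact tendsto_one_div_add_atTop_nhds_zero_nat.eventually (ge_mem_nhds h5)
    obtain ⟨N, hN⟩ := hev.exists
    apply hx1 N
    intro p q hq
    rw [Lf_zOf]
    refine le_trans ?_ (nearInt_le _ p)
    by_cases hmem : q ∈ hfin.toFinset
    · exact (min_le_right _ _).trans (hN q hmem)
    · rw [Finite.mem_toFinset, mem_ofPred_eq, not_and, not_lt] at hmem
      exact (min_le_left _ _).trans (hmem hq)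
  exact ae_iff.1 h3

theorem groshev {d m : ℕ} (hd : 1 ≤ d) (A : Matrix (Fin (d + 1)) (Fin m) ℝ)
    (h : omega A < ((d + m : ℕ) : ℝ)) : GroshevConv A ∧ GroshevDiv A := by
  obtain ⟨c, w, hc, hc1, hw, hwn, hA⟩ := dio_of_omega hd A h
  obtain ⟨e, rfl⟩ : ∃ e, d = e + 1 := ⟨d - 1, by omega⟩
  exact ⟨conv A c w hc hc1 hw hwn hA, div A c w hc hc1 hw hwn hA⟩

end Pool.Agent.H282Z.Gro
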