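import Mathlib

/-!
Definitions for MP_719818_al: word metric, quasi-geodesics, Morse gauges, Morse elements, stable
subgroups, the Morse local-to-global property, growth rates and right-angled Artin groups.
The Cayley graph is represented by its vertex set with the word metric.
-/

set_option autoImplicit false

namespace Pool.Agent.H282Z.MG

open Filter

variable {G : Type} [Group G]

/-- The word length `|g|_S`: the least length of a word in `S ∪ S⁻¹` with value `g`. -/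
noncomputable def wordLength (S : Set G) (g : G) : ℕ :=
  sInf {n : ℕ | ∃ l : List G, l.length = n ∧ (∀ x ∈ l, x ∈ S ∨ x⁻¹ ∈ S) ∧ l.prod = g}

/-- The word metric `d(x, y) = |x⁻¹ y|_S` (the path metric of the Cayley graph on vertices). -/
noncomputable def wdist (S : Set G) (x y : G) : ℕ := wordLength S (x⁻¹ * y)

/-- `γ` restricted to the parameter set `I` is a `(l, e)`-quasi-geodesic:
`|s - t| / l - e ≤ d(γ s, γ t) ≤ l |s - t| + e` for all `s, t ∈ I`. -/
def IsQG (S : Set G) (l e : ℝ) (I : Set ℝ) (γ : ℝ → G) : Prop :=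
  ∀ s ∈ I, ∀ t ∈ I, |s - t| / l - e ≤ (wdist S (γ s) (γ t) : ℝ) ∧
    (wdist S (γ s) (γ t) : ℝ) ≤ l * |s - t| + e

/-- `T` (the image of a quasi-geodesic) is `M`-Morse: for `l ≥ 1`, `e ≥ 0`, every
`(l, e)`-quasi-geodesic with both endpoints on `T` lies in the `M l e`-neighbourhood of `T`. -/
def IsMorse (S : Set G) (M : ℝ → ℝ → NNReal) (T : Set G) : Prop :=
  ∀ l e : ℝ, 1 ≤ l → 0 ≤ e → ∀ (a b : ℝ) (q : ℝ → G), a ≤ b → IsQG S l e (Set.Icc a b) q →
    q a ∈ T → q b ∈ T → ∀ p ∈ Set.Icc a b, ∃ x ∈ T, (wdist S (q p) x : ℝ) ≤ (M l e : ℝ)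

/-- The Morse local-to-global property. -/
def MorseLocalToGlobal (S : Set G) : Prop :=
  ∀ (M : ℝ → ℝ → NNReal) (l e : ℝ), 1 ≤ l → 0 ≤ e →
    ∃ (L : ℝ) (M' : ℝ → ℝ → NNReal) (l' e' : ℝ), 0 ≤ L ∧ 1 ≤ l' ∧ 0 ≤ e' ∧
      ∀ (I : Set ℝ) (γ : ℝ → G), I.OrdConnected →
        (∀ a ∈ I, ∀ b ∈ I, a ≤ b → b - a ≤ L →
          IsQG S l e (Set.Icc a b) γ ∧ IsMorse S M (γ '' Set.Icc a b)) →
        IsQG S l' e' I γ ∧ IsMorse S M' (γ '' I)

/-- `g` has infinite order and `n ↦ gⁿ` is an `M`-Morse quasi-geodesic for some gauge `M`. -/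
def IsMorseElement (S : Set G) (g : G) : Prop :=
  ¬ IsOfFinOrder g ∧ ∃ (M : ℝ → ℝ → NNReal) (l e : ℝ), 1 ≤ l ∧ 0 ≤ e ∧
    (∀ m n : ℤ, |(m : ℝ) - n| / l - e ≤ (wdist S (g ^ m) (g ^ n) : ℝ) ∧
      (wdist S (g ^ m) (g ^ n) : ℝ) ≤ l * |(m : ℝ) - n| + e) ∧
    IsMorse S M (Set.range fun n : ℤ => g ^ n)

/-- `p 0, p 1, …, p n` is a geodesic of the Cayley graph. -/
def IsGeodesic (S : Set G) (n : ℕ) (p : ℕ → G) : Prop :=
  ∀ i ≤ n, ∀ j ≤ n, (wdist S (p i) (p j) : ℝ) = |(i : ℝ) - j|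

/-- `H` is finitely generated and undistorted, and all geodesics joining two points of `H` are
`M`-Morse for one gauge `M`. -/
def IsStable (S : Set G) (H : Subgroup G) : Prop :=
  (∃ (T : Set H) (C : ℝ), T.Finite ∧ Subgroup.closure T = ⊤ ∧
      ∀ h : H, (wordLength T h : ℝ) ≤ C * (wordLength S (h : G) : ℝ) + C) ∧
    ∃ M : ℝ → ℝ → NNReal, ∀ (n : ℕ) (p : ℕ → G), IsGeodesic S n p → p 0 ∈ H → p n ∈ H →
      IsMorse S M (p '' Set.Iic n)

/-- The growth rate `λ_S(A) = limsup |{h ∈ A : |h|_S ≤ n}|^(1/n)`. -/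
noncomputable def growthRate (S : Set G) (A : Set G) : ℝ :=
  limsup (fun n : ℕ => (({h | h ∈ A ∧ wordLength S h ≤ n}.ncard : ℝ)) ^ (1 / (n : ℝ))) atTop

/-- `G` has a cyclic subgroup of finite index. -/
def VirtuallyCyclic (G : Type) [Group G] : Prop :=
  ∃ K : Subgroup G, K.FiniteIndex ∧ IsCyclic K

/-- The defining relators `[u, v]` (`u`, `v` adjacent) of a right-angled Artin group. -/
def raagRels {V : Type} (Γ : SimpleGraph V) : Set (FreeGroup V) :=
  {r | ∃ u v, Γ.Adj u v ∧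
    r = FreeGroup.of u * FreeGroup.of v * (FreeGroup.of u)⁻¹ * (FreeGroup.of v)⁻¹}

/-- The right-angled Artin group of the graph `Γ`. -/
abbrev RAAG {V : Type} (Γ : SimpleGraph V) : Type := PresentedGroup (raagRels Γ)

/-- The standard generating set (the vertices) of the right-angled Artin group. -/
def raagGens {V : Type} (Γ : SimpleGraph V) : Set (RAAG Γ) :=
  Set.range fun v : V => (PresentedGroup.of v : RAAG Γ)

/-- `Γ` is a join: the vertices split into two nonempty parts with all edges between them. -/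
def IsJoin {V : Type} (Γ : SimpleGraph V) : Prop :=
  ∃ P : Set V, P.Nonempty ∧ Pᶜ.Nonempty ∧ ∀ u ∈ P, ∀ v ∉ P, Γ.Adj u v

end Pool.Agent.H282Z.MG
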