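import Mathlib
import Pool.Agent.H282Z.MDefs

set_option autoImplicit false

namespace Pool.Agent.H282Z.MG

variable {G : Type} [Group G] {S : Set G}

lemma exists_word (hS : Subgroup.closure S = ⊤) (g : G) :
    ∃ l : List G, (∀ x ∈ l, x ∈ S ∨ x⁻¹ ∈ S) ∧ l.prod = g := by
  have hg : g ∈ Subgroup.closure S := by rw [hS]; trivial
  induction hg using Subgroup.closure_induction with
  | mem x hx => exact ⟨[x], by simpa using Or.inl hx, by simp⟩
  | one => exact ⟨[], by simp, by simp⟩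
  | mul x y _ _ hx hy =>
    obtain ⟨l1, h1, rfl⟩ := hx
    obtain ⟨l2, h2, rfl⟩ := hy
    refine ⟨l1 ++ l2, ?_, by simp⟩
    intro x hx
    rcases List.mem_append.1 hx with h | h
    · exact h1 x h
    · exact h2 x h
  | inv x _ hx =>
    obtain ⟨l1, h1, rfl⟩ := hx
    refine ⟨(l1.map fun x => x⁻¹).reverse, ?_, by rw [List.prod_inv_reverse]⟩
    intro x hx
    simp only [List.mem_reverse, List.mem_map] at hx
    obtain ⟨y, hy, rfl⟩ := hx
    rcases h1 y hy with h | h
    · right; simpa using h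
    · left; exact h

lemma wl_spec (hS : Subgroup.closure S = ⊤) (g : G) :
    ∃ l : List G, l.length = wordLength S g ∧ (∀ x ∈ l, x ∈ S ∨ x⁻¹ ∈ S) ∧ l.prod = g := by
  obtain ⟨l, h1, h2⟩ := exists_word hS g
  have hne : {n : ℕ | ∃ l : List G, l.length = n ∧ (∀ x ∈ l, x ∈ S ∨ x⁻¹ ∈ S) ∧
      l.prod = g}.Nonempty := ⟨l.length, l, rfl, h1, h2⟩
  exact Nat.sInf_mem hne

lemma wl_le (l : List G) (h : ∀ x ∈ l, x ∈ S ∨ x⁻¹ ∈ S) : wordLength S l.prod ≤ l.length :=
  Nat.sInf_le ⟨l, rfl, h, rfl⟩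

lemma wl_one : wordLength S 1 = 0 := by
  have := wl_le (S := S) [] (by simp)
  simpa using this

lemma wl_letter {s : G} (h : s ∈ S ∨ s⁻¹ ∈ S) : wordLength S s ≤ 1 := by
  have := wl_le (S := S) [s] (by simpa using h)
  simpa using this

lemma wl_mul (hS : Subgroup.closure S = ⊤) (g h : G) :
    wordLength S (g * h) ≤ wordLength S g + wordLength S h := by
  obtain ⟨l1, e1, h1, rfl⟩ := wl_spec hS g
  obtain ⟨l2, e2, h2, rfl⟩ := wl_spec hS h
  have := wl_le (S := S) (l1 ++ l2) (by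
    intro x hx
    rcases List.mem_append.1 hx with h | h
    · exact h1 x h
    · exact h2 x h)
  rw [List.prod_append, List.length_append] at this
  omega

lemma wl_inv_le (hS : Subgroup.closure S = ⊤) (g : G) : wordLength S g⁻¹ ≤ wordLength S g := by
  obtain ⟨l1, e1, h1, rfl⟩ := wl_spec hS g
  have := wl_le (S := S) (l1.map fun x => x⁻¹).reverse (by
    intro x hx
    simp only [List.mem_reverse, List.mem_map] at hx
    obtain ⟨y, hy, rfl⟩ := hx
    rcases h1 y hy with h | h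
    · right; simpa using h
    · left; exact h)
  rw [← List.prod_inv_reverse] at this
  simpa [e1] using this

lemma wl_inv (hS : Subgroup.closure S = ⊤) (g : G) : wordLength S g⁻¹ = wordLength S g := by
  apply le_antisymm (wl_inv_le hS g)
  simpa using wl_inv_le hS g⁻¹

lemma wl_eq_zero (hS : Subgroup.closure S = ⊤) {g : G} (h : wordLength S g = 0) : g = 1 := by
  obtain ⟨l1, e1, _, rfl⟩ := wl_spec hS g
  rw [h, List.length_eq_zero_iff] at e1
  simp [e1]

lemma wl_le_one (hS : Subgroup.closure S = ⊤) {g : G} (h : wordLength S g ≤ 1) :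
    g = 1 ∨ g ∈ S ∨ g⁻¹ ∈ S := by
  obtain ⟨l1, e1, h1, rfl⟩ := wl_spec hS g
  rcases l1 with _ | ⟨x, _ | ⟨y, l⟩⟩
  · simp
  · right; simpa using h1 x (by simp)
  · rw [← e1] at h; simp at h

lemma wl_succ (hS : Subgroup.closure S = ⊤) {g : G} {n : ℕ} (h : wordLength S g = n + 1) :
    ∃ s : G, (s ∈ S ∨ s⁻¹ ∈ S) ∧ wordLength S (s⁻¹ * g) = n := by
  obtain ⟨l1, e1, h1, rfl⟩ := wl_spec hS g
  rcases l1 with _ | ⟨x, l⟩
  · rw [h] at e1; simp at e1
  · have hx := h1 x (by simp)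
    refine ⟨x, hx, ?_⟩
    have h2 : wordLength S l.prod ≤ l.length := wl_le l fun y hy => h1 y (by simp [hy])
    have h3 := wl_mul hS x l.prod
    have h4 := wl_letter hx
    rw [h] at e1
    simp only [List.prod_cons, List.length_cons] at *
    rw [inv_mul_cancel_left]
    omega

lemma wd_self (x : G) : wdist S x x = 0 := by simp [wdist, wl_one]

lemma wd_comm (hS : Subgroup.closure S = ⊤) (x y : G) : wdist S x y = wdist S y x := by
  unfold wdist
  rw [← wl_inv hS]
  simp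

lemma wd_tri (hS : Subgroup.closure S = ⊤) (x y z : G) :
    wdist S x z ≤ wdist S x y + wdist S y z := by
  unfold wdist
  have := wl_mul hS (x⁻¹ * y) (y⁻¹ * z)
  simpa [mul_assoc] using this

lemma wd_left (g x y : G) : wdist S (g * x) (g * y) = wdist S x y := by
  simp [wdist, mul_assoc]

lemma wd_mul_right (x s : G) : wdist S x (x * s) = wordLength S s := by simp [wdist]

lemma wd_eq_zero (hS : Subgroup.closure S = ⊤) {x y : G} (h : wdist S x y = 0) : x = y := by
  have := wl_eq_zero hS h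
  exact (inv_mul_eq_one.1 this)

lemma wd_succ (hS : Subgroup.closure S = ⊤) {x y : G} {n : ℕ} (h : wdist S x y = n + 1) :
    ∃ s : G, (s ∈ S ∨ s⁻¹ ∈ S) ∧ wdist S (x * s) y = n := by
  obtain ⟨s, hs, h2⟩ := wl_succ hS h
  exact ⟨s, hs, by simpa [wdist, mul_assoc] using h2⟩

lemma wd_triR (hS : Subgroup.closure S = ⊤) (x y z : G) :
    (wdist S x z : ℝ) ≤ wdist S x y + wdist S y z := by
  exact_mod_cast wd_tri hS x y z

/-- a geodesic edge path from `x` to `y` -/
lemma exists_path (hS : Subgroup.closure S = ⊤) (n : ℕ) : ∀ x y : G, wdist S x y = n →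
    ∃ p : ℕ → G, p 0 = x ∧ (∀ i, n ≤ i → p i = y) ∧
      ∀ i, p (i + 1) = p i ∨ ∃ s, (s ∈ S ∨ s⁻¹ ∈ S) ∧ p (i + 1) = p i * s := by
  induction n with
  | zero =>
    intro x y h
    exact ⟨fun _ => x, rfl, fun _ _ => wd_eq_zero hS h, fun _ => Or.inl rfl⟩
  | succ n ih =>
    intro x y h
    obtain ⟨s, hs, h2⟩ := wd_succ hS h
    obtain ⟨p, p0, pn, ps⟩ := ih _ _ h2
    refine ⟨fun i => Nat.casesOn i x p, rfl, ?_, ?_⟩
    · intro i hi
      rcases i with _ | i
      · omega
      · exact pn i (by omega)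
    · intro i
      rcases i with _ | i
      · exact Or.inr ⟨s, hs, p0⟩
      · exact ps i

lemma path_le (hS : Subgroup.closure S = ⊤) {p : ℕ → G}
    (hp : ∀ i, wdist S (p i) (p (i + 1)) ≤ 1) (i k : ℕ) : wdist S (p i) (p (i + k)) ≤ k := by
  induction k with
  | zero => simp [wd_self]
  | succ k ih =>
    have h1 := wd_tri hS (p i) (p (i + k)) (p (i + (k + 1)))
    have h2 := hp (i + k)
    rw [← add_assoc] at h1 ⊢
    omega

lemma path_geo (hS : Subgroup.closure S = ⊤) {p : ℕ → G} {n : ℕ}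
    (hp : ∀ i, wdist S (p i) (p (i + 1)) ≤ 1) (hn : wdist S (p 0) (p n) = n) {i j : ℕ}
    (hij : i ≤ j) (hj : j ≤ n) : wdist S (p i) (p j) = j - i := by
  have h1 := path_le hS hp 0 i
  have h2 := path_le hS hp i (j - i)
  have h3 := path_le hS hp j (n - j)
  rw [zero_add] at h1
  rw [show i + (j - i) = j by omega] at h2
  rw [show j + (n - j) = n by omega] at h3
  have h4 := wd_tri hS (p 0) (p i) (p j)
  have h5 := wd_tri hS (p 0) (p j) (p n)
  omega

lemma step_le_one {x y : G} (h : y = x ∨ ∃ s, (s ∈ S ∨ s⁻¹ ∈ S) ∧ y = x * s) :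
    wdist S x y ≤ 1 := by
  rcases h with rfl | ⟨s, hs, rfl⟩
  · simp [wd_self]
  · rw [wd_mul_right]; exact wl_letter hs

lemma exists_geodesic (hS : Subgroup.closure S = ⊤) (x y : G) :
    ∃ p : ℕ → G, p 0 = x ∧ p (wdist S x y) = y ∧ IsGeodesic S (wdist S x y) p := by
  obtain ⟨p, p0, pn, ps⟩ := exists_path hS _ x y rfl
  have hp : ∀ i, wdist S (p i) (p (i + 1)) ≤ 1 := fun i => step_le_one (ps i)
  have hn : wdist S (p 0) (p (wdist S x y)) = wdist S x y := by rw [p0, pn _ le_rfl]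
  refine ⟨p, p0, pn _ le_rfl, ?_⟩
  intro i hi j hj
  rcases le_total i j with h | h
  · rw [path_geo hS hp hn h hj, Nat.cast_sub h, abs_sub_comm, abs_of_nonneg]
    have : (i : ℝ) ≤ j := by exact_mod_cast h
    linarith
  · rw [wd_comm hS, path_geo hS hp hn h hi, Nat.cast_sub h, abs_of_nonneg]
    have : (j : ℝ) ≤ i := by exact_mod_cast h
    linarith

/-! Cut vertices -/

/-- every edge path from `x` to `y` passes through `v` -/
def Sep (S : Set G) (v x y : G) : Prop :=
  x = v ∨ y = v ∨ ¬ Relation.ReflTransGen (fun a b => a ≠ v ∧ b ≠ v ∧ wdist S a b ≤ 1) x y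

lemma Sep.left (x y : G) : Sep S x x y := Or.inl rfl

lemma Sep.right (x y : G) : Sep S y x y := Or.inr (Or.inl rfl)

lemma Sep.symm (hS : Subgroup.closure S = ⊤) {v x y : G} (h : Sep S v x y) : Sep S v y x := by
  rcases h with h | h | h
  · exact Or.inr (Or.inl h)
  · exact Or.inl h
  · refine Or.inr (Or.inr fun h2 => h ?_)
    clear h
    induction h2 with
    | refl => exact Relation.ReflTransGen.refl
    | tail _ hab ih =>
      exact Relation.ReflTransGen.head ⟨hab.2.1, hab.1, by rw [wd_comm hS]; exact hab.2.2⟩ ih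

lemma Sep.split {v x y : G} (h : Sep S v x y) (z : G) : Sep S v x z ∨ Sep S v z y := by
  by_contra hc
  push Not at hc
  obtain ⟨h1, h2⟩ := hc
  unfold Sep at h1 h2
  push Not at h1 h2
  rcases h with h | h | h
  · exact h1.1 h
  · exact h2.2.1 h
  · exact h (h1.2.2.trans h2.2.2)

lemma Sep.add (hS : Subgroup.closure S = ⊤) {v y : G} (n : ℕ) : ∀ x : G, wdist S x y = n →
    Sep S v x y → wdist S x y = wdist S x v + wdist S v y := by
  induction n with
  | zero =>
    intro x hn h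
    have hxy := wd_eq_zero hS hn
    subst hxy
    rcases h with h | h | h
    · subst h; simp [wd_self]
    · subst h; simp [wd_self]
    · exact absurd Relation.ReflTransGen.refl h
  | succ n ih =>
    intro x hn h
    by_cases hx : x = v
    · subst hx; simp [wd_self]
    obtain ⟨s, hs, h2⟩ := wd_succ hS hn
    have h1 : wdist S x (x * s) ≤ 1 := by rw [wd_mul_right]; exact wl_letter hs
    have hsep : Sep S v (x * s) y := by
      rcases h with h | h | h
      · exact absurd h hx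
      · exact Or.inr (Or.inl h)
      · by_cases hv : x * s = v
        · exact Or.inl hv
        · exact Or.inr (Or.inr fun h3 => h (Relation.ReflTransGen.head ⟨hx, hv, h1⟩ h3))
    have h3 := ih _ h2 hsep
    have h4 := wd_tri hS x (x * s) v
    have h5 := wd_tri hS x v y
    omega

lemma Sep.eq (hS : Subgroup.closure S = ⊤) {v x y : G} (h : Sep S v x y) :
    wdist S x y = wdist S x v + wdist S v y := Sep.add hS _ x rfl h

lemma Sep.mul {v x y : G} (h : Sep S v x y) (g : G) : Sep S (g * v) (g * x) (g * y) := by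
  rcases h with h | h | h
  · exact Or.inl (by rw [h])
  · exact Or.inr (Or.inl (by rw [h]))
  · refine Or.inr (Or.inr fun h2 => h ?_)
    have key : ∀ z, Relation.ReflTransGen
        (fun a b => a ≠ g * v ∧ b ≠ g * v ∧ wdist S a b ≤ 1) (g * x) z →
        Relation.ReflTransGen (fun a b => a ≠ v ∧ b ≠ v ∧ wdist S a b ≤ 1) x (g⁻¹ * z) := by
      intro z hz
      induction hz with
      | refl => simpa using Relation.ReflTransGen.refl
      | tail _ hab ih =>
        obtain ⟨h1, h2, h3⟩ := hab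
        refine Relation.ReflTransGen.tail ih
          ⟨fun h => h1 ?_, fun h => h2 ?_, by rw [wd_left]; exact h3⟩
        · rw [← h]; simp
        · rw [← h]; simp
    simpa using key _ h2

lemma Sep.antisymm (hS : Subgroup.closure S = ⊤) {u v x : G} (h1 : Sep S u x v)
    (h2 : Sep S v x u) : u = v := by
  have e1 := h1.eq hS
  have e2 := h2.eq hS
  exact wd_eq_zero hS (by omega)

lemma Sep.trans (hS : Subgroup.closure S = ⊤) {v w x y : G} (h1 : Sep S v x w)
    (h2 : Sep S w x y) : Sep S v x y := by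
  rcases h1.split y with h | h
  · exact h
  · rcases h2.split v with h3 | h3
    · have := Sep.antisymm hS h1 h3
      subst this
      exact h2
    · have := Sep.antisymm hS h (h3.symm hS)
      subst this
      exact h2

/-- a coarsely continuous path passes near every cut vertex between its endpoints -/
lemma near_of_sep (hS : Subgroup.closure S = ⊤) {γ : ℝ → G} {J : ℝ} {v : G} {a : ℝ} (n : ℕ) :
    ∀ b : ℝ, a ≤ b → b - a ≤ n + 1 →
      (∀ s ∈ Set.Icc a b, ∀ t ∈ Set.Icc a b, |s - t| ≤ 1 → (wdist S (γ s) (γ t) : ℝ) ≤ J) →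
      Sep S v (γ a) (γ b) → ∃ τ ∈ Set.Icc a b, (wdist S (γ τ) v : ℝ) ≤ J := by
  induction n with
  | zero =>
    intro b hab hb hJ h
    refine ⟨a, ⟨le_rfl, hab⟩, ?_⟩
    have h1 := hJ a ⟨le_rfl, hab⟩ b ⟨hab, le_rfl⟩ (by
      rw [abs_sub_comm, abs_of_nonneg (by linarith)]; simpa using hb)
    have h2 := h.eq hS
    have h3 : (wdist S (γ a) v : ℝ) ≤ wdist S (γ a) (γ b) := by
      exact_mod_cast (by omega)
    linarith
  | succ n ih =>
    intro b hab hb hJ h
    by_cases hb1 : b - a ≤ n + 1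
    · exact ih b hab hb1 hJ h
    push Not at hb1
    have hn : (0 : ℝ) ≤ n := Nat.cast_nonneg n
    have hab' : a ≤ b - 1 := by linarith
    rcases h.split (γ (b - 1)) with h2 | h2
    · obtain ⟨τ, hτ, h3⟩ := ih (b - 1) hab' (by push_cast at hb; linarith)
        (fun s hs t ht => hJ s ⟨hs.1, by linarith [hs.2]⟩ t ⟨ht.1, by linarith [ht.2]⟩) h2
      exact ⟨τ, ⟨hτ.1, by linarith [hτ.2]⟩, h3⟩
    · refine ⟨b - 1, ⟨hab', by linarith⟩, ?_⟩
      have h1 := hJ (b - 1) ⟨hab', by linarith⟩ b ⟨hab, le_rfl⟩ (by simp)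
      have h4 := h2.eq hS
      have h3 : (wdist S (γ (b - 1)) v : ℝ) ≤ wdist S (γ (b - 1)) (γ b) := by
        exact_mod_cast (by omega)
      linarith

lemma near_of_sep' (hS : Subgroup.closure S = ⊤) {γ : ℝ → G} {J : ℝ} {v : G} {a b : ℝ}
    (hab : a ≤ b)
    (hJ : ∀ s ∈ Set.Icc a b, ∀ t ∈ Set.Icc a b, |s - t| ≤ 1 → (wdist S (γ s) (γ t) : ℝ) ≤ J)
    (h : Sep S v (γ a) (γ b)) : ∃ τ ∈ Set.Icc a b, (wdist S (γ τ) v : ℝ) ≤ J :=
  near_of_sep hS ⌈b - a⌉₊ b hab (by linarith [Nat.le_ceil (b - a)]) hJ h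

lemma IsQG.step {l e : ℝ} (hl : 1 ≤ l) {I : Set ℝ} {γ : ℝ → G} (h : IsQG S l e I γ) :
    ∀ s ∈ I, ∀ t ∈ I, |s - t| ≤ 1 → (wdist S (γ s) (γ t) : ℝ) ≤ l + e := by
  intro s hs t ht hst
  have := (h s hs t ht).2
  nlinarith

lemma IsQG.mono {l e : ℝ} {I I' : Set ℝ} {γ : ℝ → G} (h : IsQG S l e I γ) (hI : I' ⊆ I) :
    IsQG S l e I' γ := fun s hs t ht => h s (hI hs) t (hI ht)

lemma IsQG.param_le {l e : ℝ} (hl : 1 ≤ l) {I : Set ℝ} {γ : ℝ → G} (h : IsQG S l e I γ)
    {s t R : ℝ} (hs : s ∈ I) (ht : t ∈ I) (hR : (wdist S (γ s) (γ t) : ℝ) ≤ R) :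
    |s - t| ≤ l * (R + e) := by
  have h1 := (h s hs t ht).1
  have h2 : |s - t| / l ≤ R + e := by linarith
  rw [div_le_iff₀ (by linarith)] at h2
  linarith

/-- the gauge of a chain of cut vertices with gaps at most `E` -/
noncomputable def chainGauge (E l e : ℝ) : ℝ := l * (l * (E + 2 * (l + e) + e)) + e + (l + e)

/-- a quasi-geodesic stays near a chain of cut vertices between its endpoints -/
lemma chain_near (hS : Subgroup.closure S = ⊤) {l e E : ℝ} (hl : 1 ≤ l) (hE0 : 0 ≤ E)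
    {a b : ℝ} {q : ℝ → G} (hq : IsQG S l e (Set.Icc a b) q) (u : ℕ → G) (N : ℕ)
    (h0 : u 0 = q a) (hN : u N = q b) (hsep : ∀ j ≤ N, Sep S (u j) (q a) (q b))
    (hE : ∀ j < N, (wdist S (u j) (u (j + 1)) : ℝ) ≤ E) {p : ℝ} (hp : p ∈ Set.Icc a b) :
    ∃ j ≤ N, (wdist S (q p) (u j) : ℝ) ≤ chainGauge E l e := by
  classical
  have hP0 : Sep S (u 0) (q a) (q p) := by rw [h0]; exact Sep.left _ _
  set j := Nat.findGreatest (fun j => Sep S (u j) (q a) (q p)) N with hj
  have hjN : j ≤ N := Nat.findGreatest_le N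
  have hPj : Sep S (u j) (q a) (q p) :=
    Nat.findGreatest_spec (P := fun j => Sep S (u j) (q a) (q p)) (Nat.zero_le N) hP0
  have hex : ∃ j2, Sep S (u j2) (q p) (q b) ∧ (wdist S (u j) (u j2) : ℝ) ≤ E := by
    rcases hjN.lt_or_eq with h | h
    · refine ⟨j + 1, ?_, hE j h⟩
      rcases (hsep (j + 1) h).split (q p) with h2 | h2
      · exact absurd h2 (Nat.findGreatest_is_greatest (P := fun j => Sep S (u j) (q a) (q p))
          (by omega) h)
      · exact h2
    · refine ⟨j, ?_, by simp [wd_self, hE0]⟩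
      rw [h, hN]; exact Sep.right _ _
  obtain ⟨j2, hj2, hd⟩ := hex
  obtain ⟨p1, hp1, d1⟩ := near_of_sep' hS hp.1
    ((hq.mono (Set.Icc_subset_Icc le_rfl hp.2)).step hl) hPj
  obtain ⟨p2, hp2, d2⟩ := near_of_sep' hS hp.2
    ((hq.mono (Set.Icc_subset_Icc hp.1 le_rfl)).step hl) hj2
  have m1 : p1 ∈ Set.Icc a b := ⟨hp1.1, hp1.2.trans hp.2⟩
  have m2 : p2 ∈ Set.Icc a b := ⟨hp.1.trans hp2.1, hp2.2⟩
  have t1 := wd_triR hS (q p1) (u j) (q p2)
  have t2 := wd_triR hS (u j) (u j2) (q p2)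
  rw [wd_comm hS (u j2)] at t2
  have h3 := hq.param_le hl m1 m2 (R := E + 2 * (l + e)) (by linarith)
  have h4 : |p - p1| ≤ |p1 - p2| := by
    rw [abs_of_nonneg (by linarith [hp1.2]), abs_sub_comm, abs_of_nonneg (by
      linarith [hp1.2, hp2.1])]
    linarith [hp2.1]
  have h5 := (hq p hp p1 m1).2
  have t3 := wd_triR hS (q p) (q p1) (u j)
  refine ⟨j, hjN, ?_⟩
  unfold chainGauge
  have h6 : l * |p - p1| ≤ l * (l * (E + 2 * (l + e) + e)) :=
    mul_le_mul_of_nonneg_left (h4.trans h3) (by linarith)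
  linarith

end Pool.Agent.H282Z.MG
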