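import Mathlib
import Pool.Agent.H282Z.MBasic

set_option autoImplicit false

namespace Pool.Agent.H282Z.MG

open Filter

variable {G : Type} [Group G]

section words

variable {Λ : Type} [Fintype Λ] [DecidableEq Λ]

/-- all words of length `n` -/
def words (Λ : Type) [Fintype Λ] [DecidableEq Λ] : ℕ → Finset (List Λ)
  | 0 => {[]}
  | n + 1 => (Finset.univ ×ˢ words Λ n).image fun p : Λ × List Λ => p.1 :: p.2

lemma mem_words (n : ℕ) : ∀ w : List Λ, w ∈ words Λ n ↔ w.length = n := by
  induction n with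
  | zero => intro w; simp [words]
  | succ n ih =>
    intro w
    rcases w with _ | ⟨a, w⟩
    · simp [words]
    · simp [words, ih]

lemma sum_words_succ (n : ℕ) (f : List Λ → ℝ) :
    ∑ w ∈ words Λ (n + 1), f w = ∑ a : Λ, ∑ w ∈ words Λ n, f (a :: w) := by
  rw [words, Finset.sum_image, Finset.sum_product]
  rintro ⟨a, w⟩ _ ⟨b, v⟩ _ h
  simp only [List.cons.injEq] at h
  simp [h.1, h.2]

lemma card_words (n : ℕ) : (words Λ n).card = Fintype.card Λ ^ n := by
  induction n with
  | zero => simp [words]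
  | succ n ih =>
    rw [words, Finset.card_image_of_injective, Finset.card_product, ih, Finset.card_univ,
      pow_succ']
    rintro ⟨a, w⟩ ⟨b, v⟩ h
    simp only [List.cons.injEq] at h
    simp [h.1, h.2]

/-- the total score of a word read from `g` -/
def sc (ev : Λ → G) (σ : G → Λ → ℤ) : G → List Λ → ℤ
  | _, [] => 0
  | g, a :: w => σ g a + sc ev σ (g * ev a) w

omit [Fintype Λ] [DecidableEq Λ] in
lemma sc_append (ev : Λ → G) (σ : G → Λ → ℤ) (w v : List Λ) : ∀ g : G,
    sc ev σ g (w ++ v) = sc ev σ g w + sc ev σ (g * (w.map ev).prod) v := by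
  induction w with
  | nil => intro g; simp [sc]
  | cons a w ih => intro g; simp [sc, ih, mul_assoc, add_assoc]

omit [Fintype Λ] [DecidableEq Λ] in
lemma sc_rev (ev : Λ → G) (σ : G → Λ → ℤ) (iv : Λ → Λ) (hiv : ∀ a, ev (iv a) = (ev a)⁻¹)
    (hanti : ∀ g a, σ (g * ev a) (iv a) = - σ g a) (w : List Λ) : ∀ g : G,
    ((w.map iv).reverse.map ev).prod = (w.map ev).prod⁻¹ ∧
    sc ev σ (g * (w.map ev).prod) (w.map iv).reverse = - sc ev σ g w := by
  induction w with
  | nil => intro g; simp [sc]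
  | cons a w ih =>
    intro g
    obtain ⟨h1, h2⟩ := ih (g * ev a)
    constructor
    · rw [List.map_cons, List.reverse_cons, List.map_append, List.prod_append, h1]
      simp [hiv]
    · rw [List.map_cons (f := iv), List.reverse_cons, sc_append, h1, List.map_cons, List.prod_cons,
        ← mul_assoc, h2]
      simp only [sc, mul_inv_cancel_right, hanti]
      ring

omit [Fintype Λ] [DecidableEq Λ] in
lemma sc_left (ev : Λ → G) (σ : G → Λ → ℤ) {h : G} (hH : ∀ g a, σ (h * g) a = σ g a)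
    (w : List Λ) : ∀ g : G, sc ev σ (h * g) w = sc ev σ g w := by
  induction w with
  | nil => intro g; simp [sc]
  | cons a w ih => intro g; simp [sc, hH, mul_assoc, ih]

lemma sum_sc_le (ev : Λ → G) (σ : G → Λ → ℤ) {r ρ : ℝ} (hr : 0 < r)
    (hρ : ∀ g, ∑ a, r ^ σ g a ≤ ρ) (n : ℕ) : ∀ g, ∑ w ∈ words Λ n, r ^ sc ev σ g w ≤ ρ ^ n := by
  induction n with
  | zero => intro g; simp [words, sc]
  | succ n ih =>
    intro g
    have ρ0 : 0 ≤ ρ := le_trans (Finset.sum_nonneg fun a _ => (zpow_pos hr _).le) (hρ g)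
    rw [sum_words_succ]
    calc ∑ a : Λ, ∑ w ∈ words Λ n, r ^ sc ev σ g (a :: w)
        = ∑ a : Λ, r ^ σ g a * ∑ w ∈ words Λ n, r ^ sc ev σ (g * ev a) w := by
          refine Finset.sum_congr rfl fun a _ => ?_
          rw [Finset.mul_sum]
          refine Finset.sum_congr rfl fun w _ => ?_
          rw [sc, zpow_add₀ hr.ne']
      _ ≤ ∑ a : Λ, r ^ σ g a * ρ ^ n :=
          Finset.sum_le_sum fun a _ => mul_le_mul_of_nonneg_left (ih _) (zpow_pos hr _).le
      _ = (∑ a : Λ, r ^ σ g a) * ρ ^ n := by rw [Finset.sum_mul]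
      _ ≤ ρ * ρ ^ n := mul_le_mul_of_nonneg_right (hρ g) (by positivity)
      _ = ρ ^ (n + 1) := by ring

lemma count_le (ev : Λ → G) (σ : G → Λ → ℤ) (iv : Λ → Λ) (hiv : ∀ a, ev (iv a) = (ev a)⁻¹)
    (hanti : ∀ g a, σ (g * ev a) (iv a) = - σ g a) {r ρ : ℝ} (hr : 1 ≤ r)
    (hρ : ∀ g, ∑ a, r ^ σ g a ≤ ρ) (n : ℕ) (A : Set G)
    (hH : ∀ h ∈ A, ∀ g a, σ (h * g) a = σ g a)
    (hA : ∀ h ∈ A, ∃ w : List Λ, w.length = n ∧ (w.map ev).prod = h) :
    (A.ncard : ℝ) ≤ 2 * ρ ^ n := by
  classical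
  set W := (words Λ n).filter fun w => 0 ≤ sc ev σ 1 w with hW
  have hWc : (W.card : ℝ) ≤ ρ ^ n := by
    calc (W.card : ℝ) = ∑ w ∈ W, (1 : ℝ) := by simp
      _ ≤ ∑ w ∈ W, r ^ sc ev σ 1 w := Finset.sum_le_sum fun w hw =>
          one_le_zpow₀ hr (Finset.mem_filter.1 hw).2
      _ ≤ ∑ w ∈ words Λ n, r ^ sc ev σ 1 w := Finset.sum_le_sum_of_subset_of_nonneg
          (Finset.filter_subset _ _) fun w _ _ => (zpow_pos (by linarith) _).le
      _ ≤ ρ ^ n := sum_sc_le ev σ (by linarith) hρ n 1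
  set F : Finset G := (W.image fun w => (w.map ev).prod) ∪ (W.image fun w => (w.map ev).prod⁻¹)
    with hF
  have hsub : A ⊆ (F : Set G) := by
    intro h hh
    obtain ⟨w, hw, hp⟩ := hA h hh
    simp only [hF, Finset.coe_union, Finset.coe_image, Set.mem_union, Set.mem_image,
      Finset.mem_coe]
    by_cases h0 : 0 ≤ sc ev σ 1 w
    · exact Or.inl ⟨w, Finset.mem_filter.2 ⟨(mem_words n w).2 hw, h0⟩, hp⟩
    · obtain ⟨h1, h2⟩ := sc_rev ev σ iv hiv hanti w 1
      refine Or.inr ⟨(w.map iv).reverse, Finset.mem_filter.2 ⟨(mem_words n _).2 (by simpa),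
        ?_⟩, by rw [h1, hp, inv_inv]⟩
      rw [hp, one_mul, ← mul_one h, sc_left ev σ (hH h hh)] at h2
      omega
  have h1 : A.ncard ≤ F.card := by
    rw [← Set.ncard_coe_finset]
    exact Set.ncard_le_ncard hsub (Finset.finite_toSet _)
  have h2 : F.card ≤ W.card + W.card :=
    (Finset.card_union_le _ _).trans (add_le_add Finset.card_image_le Finset.card_image_le)
  have h3 : (A.ncard : ℝ) ≤ W.card + W.card := by exact_mod_cast h1.trans h2
  linarith

end words

section free

variable {α : Type} [DecidableEq α]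

lemma norm_letter_left (f : FreeGroup α) (x : α × Bool)
    (hx : f.toWord.head? ≠ some (x.1, !x.2)) :
    FreeGroup.norm (FreeGroup.mk [x] * f) = FreeGroup.norm f + 1 := by
  have h1 : (FreeGroup.mk [x] * f).toWord = FreeGroup.reduce (x :: f.toWord) := by
    conv_lhs => rw [← FreeGroup.mk_toWord (x := f), FreeGroup.mul_mk, FreeGroup.toWord_mk]
    rfl
  unfold FreeGroup.norm
  rw [h1, FreeGroup.reduce.cons, FreeGroup.reduce_toWord]
  rcases hL : f.toWord with _ | ⟨hd, tl⟩
  · simp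
  · rw [hL] at hx
    have : ¬ (x.1 = hd.1 ∧ x.2 = !hd.2) := by
      rintro ⟨a, b⟩
      apply hx
      simp [a, b]
    simp [this]

omit [DecidableEq α] in
lemma inv_letter (x : α × Bool) : (FreeGroup.mk [x])⁻¹ = FreeGroup.mk [(x.1, !x.2)] := by
  rw [FreeGroup.inv_mk]; rfl

lemma norm_letter (f : FreeGroup α) : ∃ o : Option (α × Bool), ∀ x : α × Bool, o ≠ some x →
    FreeGroup.norm (f * FreeGroup.mk [x]) = FreeGroup.norm f + 1 := by
  refine ⟨f⁻¹.toWord.head?, fun x hx => ?_⟩
  rw [← FreeGroup.norm_inv_eq, mul_inv_rev, inv_letter, norm_letter_left, FreeGroup.norm_inv_eq]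
  simpa using hx

lemma norm_letter_ge (f : FreeGroup α) (x : α × Bool) :
    FreeGroup.norm f ≤ FreeGroup.norm (f * FreeGroup.mk [x]) + 1 := by
  have h1 := FreeGroup.norm_mul_le (f * FreeGroup.mk [x]) (FreeGroup.mk [x])⁻¹
  rw [mul_inv_cancel_right, FreeGroup.norm_inv_eq] at h1
  have h2 : FreeGroup.norm (FreeGroup.mk [x]) ≤ 1 := FreeGroup.norm_mk_le
  omega

lemma sum_letter_le [Fintype α] (f : FreeGroup α) {r : ℝ} (hr : 1 ≤ r) :
    ∑ x : α × Bool, r ^ ((FreeGroup.norm f : ℤ) - FreeGroup.norm (f * FreeGroup.mk [x])) ≤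
      r + 2 * Fintype.card α / r := by
  obtain ⟨o, ho⟩ := norm_letter f
  have r0 : 0 < r := by linarith
  calc ∑ x : α × Bool, r ^ ((FreeGroup.norm f : ℤ) - FreeGroup.norm (f * FreeGroup.mk [x]))
      ≤ ∑ x : α × Bool, ((if o = some x then r else 0) + r⁻¹) := by
        refine Finset.sum_le_sum fun x _ => ?_
        split_ifs with h
        · have h1 := norm_letter_ge f x
          have h2 : r ^ ((FreeGroup.norm f : ℤ) - FreeGroup.norm (f * FreeGroup.mk [x])) ≤
              r ^ (1 : ℤ) := zpow_le_zpow_right₀ hr (by omega)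
          rw [zpow_one] at h2
          have : 0 < r⁻¹ := inv_pos.2 r0
          linarith
        · rw [ho x h]
          simp
    _ ≤ r + 2 * Fintype.card α / r := by
        rw [Finset.sum_add_distrib]
        apply add_le_add
        · rcases o with _ | y
          · simp [r0.le]
          · simp
        · simp [div_eq_mul_inv, mul_comm]

omit [DecidableEq α] in
lemma exists_fp (ι : FreeGroup α →* G) (H : Subgroup G)
    (hfree : ∀ g f, g * ι f * g⁻¹ ∈ H → f = 1) :
    ∃ fp : G → FreeGroup α, (∀ h ∈ H, ∀ g, fp (h * g) = fp g) ∧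
      ∀ g f, fp (g * ι f) = fp g * f := by
  classical
  let P : G → G → Prop := fun g r => ∃ h ∈ H, ∃ f, g = h * r * ι f
  have hP : ∀ g, ∃ r, P g r := fun g => ⟨g, 1, H.one_mem, 1, by simp⟩
  let rep : G → G := fun g => Classical.epsilon (P g)
  have hrep : ∀ g, P g (rep g) := fun g => Classical.epsilon_spec (hP g)
  have hinv : ∀ h ∈ H, ∀ g f, rep (h * g * ι f) = rep g := by
    intro h hh g f
    have : P (h * g * ι f) = P g := by
      funext r
      apply propext
      constructor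
      · rintro ⟨h', hh', f', e⟩
        refine ⟨h⁻¹ * h', H.mul_mem (H.inv_mem hh) hh', f' * f⁻¹, ?_⟩
        rw [map_mul, map_inv]
        calc g = h⁻¹ * (h * g * ι f) * (ι f)⁻¹ := by group
          _ = h⁻¹ * (h' * r * ι f') * (ι f)⁻¹ := by rw [e]
          _ = _ := by group
      · rintro ⟨h', hh', f', e⟩
        refine ⟨h * h', H.mul_mem hh hh', f' * f, ?_⟩
        rw [map_mul, e]; group
    simp only [rep, this]
  choose hh hhH fp hfp using hrep
  have uniq : ∀ g, ∀ h ∈ H, ∀ f, g = h * rep g * ι f → fp g = f := by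
    intro g h hH f e
    have e2 := hfp g
    have : rep g * ι (fp g * f⁻¹) * (rep g)⁻¹ = (hh g)⁻¹ * h := by
      rw [map_mul, map_inv]
      have e3 : hh g * rep g * ι (fp g) = h * rep g * ι f := e2.symm.trans e
      calc rep g * (ι (fp g) * (ι f)⁻¹) * (rep g)⁻¹
          = (hh g)⁻¹ * (hh g * rep g * ι (fp g)) * (ι f)⁻¹ * (rep g)⁻¹ := by group
        _ = (hh g)⁻¹ * (h * rep g * ι f) * (ι f)⁻¹ * (rep g)⁻¹ := by rw [e3]
        _ = _ := by group
    have h1 := hfree _ _ (this ▸ H.mul_mem (H.inv_mem (hhH g)) hH)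
    exact mul_inv_eq_one.1 h1
  refine ⟨fp, ?_, ?_⟩
  · intro h hH g
    have r1 : rep (h * g) = rep g := by simpa using hinv h hH g 1
    apply uniq _ (h * hh g) (H.mul_mem hH (hhH g))
    rw [r1]
    conv_lhs => rw [hfp g]
    group
  · intro g f
    have r1 : rep (g * ι f) = rep g := by simpa using hinv 1 H.one_mem g f
    apply uniq _ (hh g) (hhH g)
    rw [r1, map_mul]
    conv_lhs => rw [hfp g]
    group

lemma pos_toWord (w : List α) :
    ((w.map FreeGroup.of).prod : FreeGroup α).toWord = w.map fun a => (a, true) := by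
  have h1 : ((w.map FreeGroup.of).prod : FreeGroup α) = FreeGroup.mk (w.map fun a => (a, true)) := by
    induction w with
    | nil => rfl
    | cons a w ih =>
      rw [List.map_cons, List.prod_cons, ih]
      rfl
  rw [h1, FreeGroup.toWord_mk]
  apply FreeGroup.IsReduced.reduce_eq
  unfold FreeGroup.IsReduced
  rw [List.isChain_map]
  exact List.Pairwise.isChain (List.pairwise_of_forall (by simp))

lemma pos_inj : Function.Injective fun w : List α => ((w.map FreeGroup.of).prod : FreeGroup α) := by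
  intro w v h
  have := congrArg FreeGroup.toWord h
  simp only [pos_toWord] at this
  exact List.map_injective_iff.2 (fun a b h => by simpa using h) this

end free

section growth

variable {S : Set G}

lemma growth_le {A : Set G} {c : ℝ} (hc : 0 ≤ c)
    (h : ∀ᶠ n : ℕ in atTop, (({h | h ∈ A ∧ wordLength S h ≤ n}.ncard : ℝ)) ≤ c ^ n) :
    growthRate S A ≤ c := by
  unfold growthRate
  apply limsup_le_of_le
  · exact isCoboundedUnder_le_of_le atTop (x := 0) fun n => by positivity
  · filter_upwards [h, eventually_gt_atTop 0] with n hn n0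
    calc (({h | h ∈ A ∧ wordLength S h ≤ n}.ncard : ℝ)) ^ (1 / (n : ℝ))
        ≤ (c ^ n) ^ (1 / (n : ℝ)) := Real.rpow_le_rpow (by positivity) hn (by positivity)
      _ = c := by rw [one_div, Real.pow_rpow_inv_natCast hc n0.ne']

lemma le_growth {A : Set G} {c C : ℝ} (hc : 0 ≤ c) (hC : 0 ≤ C)
    (h : ∀ n : ℕ, c ^ n ≤ (({h | h ∈ A ∧ wordLength S h ≤ n}.ncard : ℝ)))
    (h' : ∀ n : ℕ, (({h | h ∈ A ∧ wordLength S h ≤ n}.ncard : ℝ)) ≤ C ^ n) :
    c ≤ growthRate S A := by
  unfold growthRate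
  apply le_limsup_of_frequently_le
  · apply Eventually.frequently
    filter_upwards [eventually_gt_atTop 0] with n n0
    calc c = (c ^ n) ^ (1 / (n : ℝ)) := by rw [one_div, Real.pow_rpow_inv_natCast hc n0.ne']
      _ ≤ _ := Real.rpow_le_rpow (by positivity) (h n) (by positivity)
  · refine isBoundedUnder_of_eventually_le (a := C) ?_
    filter_upwards [eventually_gt_atTop 0] with n n0
    calc (({h | h ∈ A ∧ wordLength S h ≤ n}.ncard : ℝ)) ^ (1 / (n : ℝ))
        ≤ (C ^ n) ^ (1 / (n : ℝ)) := Real.rpow_le_rpow (by positivity) (h' n) (by positivity)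
      _ = C := by rw [one_div, Real.pow_rpow_inv_natCast hC n0.ne']

end growth

end Pool.Agent.H282Z.MG
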