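import Mathlib
import Pool.Agent.H282Z.MBasic

set_option autoImplicit false

namespace Pool.Agent.H282Z.MG

variable {G : Type} [Group G] {S : Set G}

/-- cut vertices between `x` and `y` are `D`-dense -/
def DenseCut (S : Set G) (D : ℕ) (x y : G) : Prop :=
  ∀ r ≤ wdist S x y, ∃ v, Sep S v x y ∧ r ≤ wdist S x v ∧ wdist S x v ≤ r + D

lemma upper_of_step (hS : Subgroup.closure S = ⊤) {γ : ℝ → G} {J : ℝ} {a : ℝ} (n : ℕ) :
    ∀ b : ℝ, a ≤ b → b - a ≤ n + 1 →
      (∀ s ∈ Set.Icc a b, ∀ t ∈ Set.Icc a b, |s - t| ≤ 1 → (wdist S (γ s) (γ t) : ℝ) ≤ J) →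
      (wdist S (γ a) (γ b) : ℝ) ≤ J * (n + 1) := by
  induction n with
  | zero =>
    intro b hab hb hJ
    have h1 := hJ a ⟨le_rfl, hab⟩ b ⟨hab, le_rfl⟩ (by
      rw [abs_sub_comm, abs_of_nonneg (by linarith)]; simpa using hb)
    simpa using h1
  | succ n ih =>
    intro b hab hb hJ
    have hJ0 : 0 ≤ J := by
      have := hJ a ⟨le_rfl, hab⟩ a ⟨le_rfl, hab⟩ (by simp)
      simpa [wd_self] using this
    by_cases hb1 : b - a ≤ n + 1
    · have := ih b hab hb1 hJ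
      push_cast
      nlinarith
    push Not at hb1
    have hn : (0 : ℝ) ≤ n := Nat.cast_nonneg n
    have hab' : a ≤ b - 1 := by linarith
    have h3 := ih (b - 1) hab' (by push_cast at hb; linarith)
        (fun s hs t ht => hJ s ⟨hs.1, by linarith [hs.2]⟩ t ⟨ht.1, by linarith [ht.2]⟩)
    have h1 := hJ (b - 1) ⟨hab', by linarith⟩ b ⟨hab, le_rfl⟩ (by simp)
    have h2 := wd_triR hS (γ a) (γ (b - 1)) (γ b)
    push_cast
    linarith

/-- The chain of cut vertices along a local quasi-geodesic. -/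
lemma exists_chain (hS : Subgroup.closure S = ⊤) {γ : ℝ → G} {I : Set ℝ} (hI : I.OrdConnected)
    {J K κ : ℝ} (hK : 0 < K)
    (hstep : ∀ s ∈ I, ∀ t ∈ I, |s - t| ≤ 1 → (wdist S (γ s) (γ t) : ℝ) ≤ J)
    (hclose : ∀ s ∈ I, ∀ t ∈ I, ∀ v, |s - t| ≤ 2 * K → (wdist S (γ s) v : ℝ) ≤ J →
      (wdist S (γ t) v : ℝ) ≤ J → |s - t| ≤ κ)
    (hmid : ∀ t, t ∈ I → t + K ∈ I → ∃ v τ, Sep S v (γ t) (γ (t + K)) ∧
      (wdist S (γ τ) v : ℝ) ≤ J ∧ t + κ < τ ∧ τ + κ < t + K ∧ t ≤ τ ∧ τ ≤ t + K)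
    {s s' : ℝ} (hs : s ∈ I) (hs' : s' ∈ I) (hss : s ≤ s') :
    ∃ (n : ℕ) (u : ℕ → G) (θ : ℕ → ℝ), (s' - s) / K < n + 1 ∧ n ≤ wdist S (γ s) (γ s') + 1 ∧
      u 0 = γ s ∧ u (n + 1) = γ s' ∧ (∀ j ≤ n + 1, Sep S (u j) (γ s) (γ s')) ∧
      (∀ j ≤ n + 1, θ j ∈ I ∧ (wdist S (γ (θ j)) (u j) : ℝ) ≤ J ∧
        s + (j - 1) * K ≤ θ j ∧ θ j ≤ s + j * K) := by
  classical
  choose! V T hVT using hmid
  have hJ0 : 0 ≤ J := by
    have := hstep s hs s hs (by simp)
    simpa [wd_self] using this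
  have hnear : ∀ a ∈ I, ∀ b ∈ I, a ≤ b → ∀ v, Sep S v (γ a) (γ b) →
      ∃ τ ∈ I, a ≤ τ ∧ τ ≤ b ∧ (wdist S (γ τ) v : ℝ) ≤ J := by
    intro a ha b hb hab v hv
    obtain ⟨τ, hτ, h⟩ := near_of_sep' hS hab
      (fun x hx y hy => hstep x (hI.out ha hb hx) y (hI.out ha hb hy)) hv
    exact ⟨τ, hI.out ha hb hτ, hτ.1, hτ.2, h⟩
  have hT : ∀ t, t ∈ I → t + K ∈ I → T t ∈ I := fun t h1 h2 =>
    hI.out h1 h2 ⟨(hVT t h1 h2).2.2.2.2.1, (hVT t h1 h2).2.2.2.2.2⟩
  have hfar : ∀ t, t ∈ I → t + K ∈ I → ∀ σ ∈ I, t - K ≤ σ → σ ≤ t + 2 * K →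
      (σ ≤ t ∨ t + K ≤ σ) → ¬ (wdist S (γ σ) (V t) : ℝ) ≤ J := by
    intro t h1 h2 σ hσ l1 l2 hor hd
    obtain ⟨_, d1, a1, a2, a3, a4⟩ := hVT t h1 h2
    have := hclose σ hσ (T t) (hT t h1 h2) (V t) (by rw [abs_le]; constructor <;> linarith) hd d1
    rw [abs_le] at this
    rcases hor with h | h <;> linarith [this.1, this.2]
  have hF : ∀ t, t ∈ I → t + K ∈ I → ∀ τ ∈ I, t + K ≤ τ → τ ≤ t + 2 * K →
      Sep S (V t) (γ t) (γ τ) := by
    intro t h1 h2 τ hτ l1 l2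
    rcases (hVT t h1 h2).1.split (γ τ) with h | h
    · exact h
    · obtain ⟨σ, hσ, a1, a2, a3⟩ := hnear _ h2 _ hτ l1 _ (h.symm hS)
      exact absurd a3 (hfar t h1 h2 σ hσ (by linarith) (by linarith) (Or.inr a1))
  have hle : ∀ {v x y : G}, Sep S v x y → (wdist S x v : ℝ) ≤ wdist S x y := by
    intro v x y h
    have := h.eq hS
    exact_mod_cast (by omega)
  have hmem : ∀ n : ℕ, ∀ x ∈ I, s + n * K ≤ x → s + n * K ∈ I := by
    intro n x hx h
    have : 0 ≤ (n : ℝ) * K := by positivity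
    exact hI.out hs hx ⟨by linarith, h⟩
  have hQ : ∀ n : ℕ, s + n * K + K ∈ I → ∀ τ ∈ I, s + n * K + K ≤ τ → τ ≤ s + n * K + 2 * K →
      Sep S (V (s + n * K)) (γ s) (γ τ) := by
    intro n
    induction n with
    | zero =>
      intro h τ hτ l1 l2
      simp only [Nat.cast_zero, zero_mul, add_zero] at *
      exact hF s hs h τ hτ l1 l2
    | succ n ih =>
      intro h τ hτ l1 l2
      have e1 : s + ((n + 1 : ℕ) : ℝ) * K = s + n * K + K := by push_cast; ring
      rw [e1] at h l1 l2 ⊢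
      set t := s + n * K with ht
      have h0 : t ∈ I := hmem n _ h (by linarith)
      have h1 : t + K ∈ I := hI.out h0 h ⟨by linarith, by linarith⟩
      obtain ⟨_, d1, _, _, a3, a4⟩ := hVT t h0 h1
      obtain ⟨_, d2, _, _, b3, b4⟩ := hVT (t + K) h1 h
      have m1 := hT t h0 h1
      have m2 := hT (t + K) h1 h
      rcases (hF (t + K) h1 h τ hτ l1 l2).split (γ s) with k1 | k1
      swap
      · exact k1
      exfalso
      have k2 : Sep S (V t) (γ (t + K)) (γ s) :=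
        (ih h1 (t + K) h1 le_rfl (by linarith)).symm hS
      rcases k2.split (V (t + K)) with k3 | k3
      · rcases k3.split (γ (T (t + K))) with k4 | k4
        · obtain ⟨σ, hσ, c1, c2, c3⟩ := hnear _ h1 _ m2 b3 _ k4
          exact hfar t h0 h1 σ hσ (by linarith) (by linarith) (Or.inr c1) c3
        · exact hfar t h0 h1 _ m2 (by linarith) (by linarith) (Or.inr b3) ((hle k4).trans d2)
      rcases k1.split (V t) with k5 | k5
      · rcases k5.split (γ (T t)) with k4 | k4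
        · obtain ⟨σ, hσ, c1, c2, c3⟩ := hnear _ m1 _ h1 a4 _ (k4.symm hS)
          exact hfar (t + K) h1 h σ hσ (by linarith) (by linarith) (Or.inl c2) c3
        · exact hfar (t + K) h1 h _ m1 (by linarith) (by linarith) (Or.inl a4)
            ((hle k4).trans d1)
      · have := Sep.antisymm hS (k3.symm hS) (k5.symm hS)
        rw [← this] at d2
        exact hfar t h0 h1 _ m2 (by linarith) (by linarith) (Or.inr b3) d2
  have hG : ∀ n : ℕ, s + n * K + K + K ∈ I →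
      Sep S (V (s + n * K)) (γ s) (V (s + n * K + K)) ∧ V (s + n * K) ≠ V (s + n * K + K) := by
    intro n h
    set t := s + n * K with ht
    have h0 : t ∈ I := hmem n _ h (by linarith)
    have h1 : t + K ∈ I := hI.out h0 h ⟨by linarith, by linarith⟩
    obtain ⟨_, d2, _, _, b3, b4⟩ := hVT (t + K) h1 h
    have m2 := hT (t + K) h1 h
    have hf := hfar t h0 h1 _ m2 (by linarith) (by linarith) (Or.inr b3)
    constructor
    · rcases (hQ n h1 _ m2 b3 (by linarith)).split (V (t + K)) with k | k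
      · exact k
      · exact absurd ((hle (k.symm hS)).trans d2) hf
    · intro he
      rw [← he] at d2
      exact hf d2
  have hH : ∀ n : ℕ, s + n * K + K ∈ I → n ≤ wdist S (γ s) (V (s + n * K)) ∧
      ∀ j ≤ n, Sep S (V (s + j * K)) (γ s) (V (s + n * K)) := by
    intro n
    induction n with
    | zero =>
      intro _
      refine ⟨Nat.zero_le _, fun j hj => ?_⟩
      have : j = 0 := by omega
      subst this
      exact Sep.right _ _
    | succ n ih =>
      intro h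
      have e1 : s + ((n + 1 : ℕ) : ℝ) * K = s + n * K + K := by push_cast; ring
      have h' : s + n * K + K + K ∈ I := by rw [← e1]; exact h
      have h0 : s + n * K ∈ I := hmem n _ h' (by linarith)
      have h1 : s + n * K + K ∈ I := hI.out h0 h' ⟨by linarith, by linarith⟩
      obtain ⟨g1, g2⟩ := hG n h'
      obtain ⟨i1, i2⟩ := ih h1
      constructor
      · rw [e1]
        have e2 := g1.eq hS
        have e3 : wdist S (V (s + n * K)) (V (s + n * K + K)) ≠ 0 := fun h0 =>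
          g2 (wd_eq_zero hS h0)
        omega
      · intro j hj
        rcases hj.lt_or_eq with hj | hj
        · rw [e1]
          exact (i2 j (by omega)).trans hS g1
        · subst hj
          exact Sep.right _ _
  have hq0 : 0 ≤ (s' - s) / K := div_nonneg (by linarith) hK.le
  set n := ⌊(s' - s) / K⌋₊ with hn
  have n1 : (n : ℝ) * K ≤ s' - s := by
    have := Nat.floor_le hq0
    rw [le_div_iff₀ hK] at this
    exact this
  have n2' : (s' - s) / K < n + 1 := Nat.lt_floor_add_one _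
  have n2 : s' - s < (n + 1) * K := by rwa [div_lt_iff₀ hK] at n2'
  have hval : ∀ j : ℕ, j + 1 ≤ n → s + j * K + K ∈ I := by
    intro j hj
    have h1 : ((j : ℝ) + 1) * K ≤ n * K := by
      apply mul_le_mul_of_nonneg_right _ hK.le
      exact_mod_cast hj
    have h2 : 0 ≤ (j : ℝ) * K := by positivity
    exact hI.out hs hs' ⟨by linarith, by linarith⟩
  have hlast : ∀ m : ℕ, n = m + 1 → Sep S (V (s + m * K)) (γ s) (γ s') := by
    intro m hm
    have e : (n : ℝ) = m + 1 := by rw [hm]; push_cast; ring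
    rw [e] at n1 n2
    exact hQ m (hval m (by omega)) s' hs' (by linarith) (by linarith)
  refine ⟨n, fun j => if j = 0 then γ s else if j ≤ n then V (s + ((j - 1 : ℕ) : ℝ) * K) else γ s',
    fun j => if j = 0 then s else if j ≤ n then T (s + ((j - 1 : ℕ) : ℝ) * K) else s',
    n2', ?_, by simp, by simp, ?_, ?_⟩
  · rcases Nat.eq_zero_or_pos n with h | h
    · omega
    · obtain ⟨m, hm⟩ : ∃ m, n = m + 1 := ⟨n - 1, by omega⟩
      have e1 := (hlast m hm).eq hS
      have e2 := (hH m (hval m (by omega))).1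
      omega
  · intro j hj
    by_cases h0 : j = 0
    · simp only [h0, if_true]; exact Sep.left _ _
    by_cases h1 : j ≤ n
    · simp only [h0, h1, if_true, if_false]
      obtain ⟨m, hm⟩ : ∃ m, n = m + 1 := ⟨n - 1, by omega⟩
      exact ((hH m (hval m (by omega))).2 (j - 1) (by omega)).trans hS (hlast m hm)
    · simp only [h0, h1, if_false]; exact Sep.right _ _
  · intro j hj
    by_cases h0 : j = 0
    · simp only [h0, if_true]
      refine ⟨hs, by simp [wd_self, hJ0], ?_, ?_⟩ <;> simp <;> linarith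
    by_cases h1 : j ≤ n
    · simp only [h0, h1, if_true, if_false]
      obtain ⟨i, rfl⟩ : ∃ i, j = i + 1 := ⟨j - 1, by omega⟩
      simp only [Nat.add_sub_cancel]
      have v1 := hval i h1
      have v0 : s + i * K ∈ I := hmem i _ v1 (by linarith)
      obtain ⟨_, d1, _, _, a3, a4⟩ := hVT _ v0 v1
      refine ⟨hT _ v0 v1, d1, ?_, ?_⟩ <;> push_cast <;> linarith
    · simp only [h0, h1, if_false]
      have : j = n + 1 := by omega
      subst this
      refine ⟨hs', by simp [wd_self, hJ0], ?_, ?_⟩ <;> push_cast <;> linarith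

/-- Local-to-global for paths whose cut vertices are locally dense. -/
lemma ltg (hS : Subgroup.closure S = ⊤) {l e : ℝ} (hl : 1 ≤ l) (he : 0 ≤ e) (D : ℕ) :
    ∃ (L : ℝ) (M' : ℝ → ℝ → NNReal) (l' e' : ℝ), 0 ≤ L ∧ 1 ≤ l' ∧ 0 ≤ e' ∧
      ∀ (I : Set ℝ) (γ : ℝ → G), I.OrdConnected →
        (∀ s ∈ I, ∀ t ∈ I, |s - t| ≤ L → |s - t| / l - e ≤ (wdist S (γ s) (γ t) : ℝ) ∧
          (wdist S (γ s) (γ t) : ℝ) ≤ l * |s - t| + e) →
        (∀ s ∈ I, ∀ t ∈ I, s ≤ t → t - s ≤ L → DenseCut S D (γ s) (γ t)) →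
        IsQG S l' e' I γ ∧ IsMorse S M' (γ '' I) := by
  set J := l + e with hJ
  set κ := l * (2 * J + e) with hκ
  set β := l * κ + e + J with hβ
  set K := l * (2 * β + D + 3 + e) with hK
  set E := 2 * l * K + e + 2 * J with hE
  have J1 : 1 ≤ J := by linarith
  have κ0 : 0 ≤ κ := by positivity
  have β0 : 0 ≤ β := by positivity
  have D0 : (0 : ℝ) ≤ D := Nat.cast_nonneg D
  have K1 : 1 ≤ K := by nlinarith
  have E0 : 0 ≤ E := by positivity
  refine ⟨2 * K, fun l1 e1 => (chainGauge E l1 e1 + J).toNNReal, K + J, J + 2, by linarith,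
    by linarith, by linarith, ?_⟩
  intro I γ hI hq hD
  have hstep : ∀ s ∈ I, ∀ t ∈ I, |s - t| ≤ 1 → (wdist S (γ s) (γ t) : ℝ) ≤ J := by
    intro s hs t ht h
    have := (hq s hs t ht (by linarith)).2
    nlinarith
  have hclose : ∀ s ∈ I, ∀ t ∈ I, ∀ v, |s - t| ≤ 2 * K → (wdist S (γ s) v : ℝ) ≤ J →
      (wdist S (γ t) v : ℝ) ≤ J → |s - t| ≤ κ := by
    intro s hs t ht v h d1 d2
    have h1 := (hq s hs t ht h).1
    have h2 := wd_triR hS (γ s) v (γ t)
    rw [wd_comm hS v] at h2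
    have h3 : |s - t| / l ≤ 2 * J + e := by linarith
    rw [div_le_iff₀ (by linarith)] at h3
    linarith
  have hmid : ∀ t, t ∈ I → t + K ∈ I → ∃ v τ, Sep S v (γ t) (γ (t + K)) ∧
      (wdist S (γ τ) v : ℝ) ≤ J ∧ t + κ < τ ∧ τ + κ < t + K ∧ t ≤ τ ∧ τ ≤ t + K := by
    intro t h0 h1
    have a1 : |t - (t + K)| = K := by
      rw [show t - (t + K) = -K by ring, abs_neg, abs_of_nonneg (by linarith)]
    have d0 := (hq t h0 (t + K) h1 (by rw [a1]; linarith)).1
    rw [a1, hK, mul_div_cancel_left₀ _ (by linarith)] at d0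
    rw [← hK] at d0
    have f1 : (⌊β⌋₊ : ℝ) ≤ β := Nat.floor_le β0
    have f2 : β < ⌊β⌋₊ + 1 := Nat.lt_floor_add_one β
    obtain ⟨v, hv, r1, r2⟩ := hD t h0 (t + K) h1 (by linarith) (by linarith) (⌊β⌋₊ + 1) (by
      have : ((⌊β⌋₊ + 1 : ℕ) : ℝ) ≤ wdist S (γ t) (γ (t + K)) := by push_cast; linarith
      exact_mod_cast this)
    have r1' : (⌊β⌋₊ : ℝ) + 1 ≤ wdist S (γ t) v := by exact_mod_cast r1
    have r2' : (wdist S (γ t) v : ℝ) ≤ ⌊β⌋₊ + 1 + D := by exact_mod_cast r2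
    have e1 : (wdist S (γ t) (γ (t + K)) : ℝ) = wdist S (γ t) v + wdist S v (γ (t + K)) := by
      exact_mod_cast hv.eq hS
    obtain ⟨τ, hτ, d1⟩ := near_of_sep' hS (by linarith : t ≤ t + K)
      (fun x hx y hy => hstep x (hI.out h0 h1 hx) y (hI.out h0 h1 hy)) hv
    have mτ := hI.out h0 h1 hτ
    refine ⟨v, τ, hv, d1, ?_, ?_, hτ.1, hτ.2⟩
    · by_contra hc
      push Not at hc
      have b1 : |t - τ| ≤ κ := by rw [abs_le]; constructor <;> linarith [hτ.1]
      have b2 := (hq t h0 τ mτ (by rw [abs_le]; constructor <;> linarith [hτ.1, hτ.2])).2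
      have b3 := wd_triR hS (γ t) (γ τ) v
      have b4 : l * |t - τ| ≤ l * κ := mul_le_mul_of_nonneg_left b1 (by linarith)
      linarith
    · by_contra hc
      push Not at hc
      have b1 : |τ - (t + K)| ≤ κ := by rw [abs_le]; constructor <;> linarith [hτ.2]
      have b2 := (hq τ mτ (t + K) h1 (by rw [abs_le]; constructor <;> linarith [hτ.1, hτ.2])).2
      have b3 := wd_triR hS v (γ τ) (γ (t + K))
      rw [wd_comm hS v (γ τ)] at b3
      have b4 : l * |τ - (t + K)| ≤ l * κ := mul_le_mul_of_nonneg_left b1 (by linarith)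
      linarith
  have hglob : ∀ s ∈ I, ∀ t ∈ I, s ≤ t → |s - t| / (K + J) - (J + 2) ≤ (wdist S (γ s) (γ t) : ℝ) ∧
      (wdist S (γ s) (γ t) : ℝ) ≤ (K + J) * |s - t| + (J + 2) := by
    intro s hs t ht hst
    rw [abs_sub_comm, abs_of_nonneg (by linarith)]
    obtain ⟨n, u, θ, n1, n2, -⟩ := exists_chain hS hI (by linarith) hstep hclose hmid hs ht hst
    constructor
    · have h1 : (t - s) / (K + J) ≤ (t - s) / K :=
        div_le_div_of_nonneg_left (by linarith) (by linarith) (by linarith)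
      have h2 : (n : ℝ) ≤ wdist S (γ s) (γ t) + 1 := by exact_mod_cast n2
      linarith
    · have h1 := upper_of_step hS ⌊t - s⌋₊ t hst (Nat.lt_floor_add_one _).le
        (fun x hx y hy => hstep x (hI.out hs ht hx) y (hI.out hs ht hy))
      have h2 : (⌊t - s⌋₊ : ℝ) ≤ t - s := Nat.floor_le (by linarith)
      nlinarith
  have hchain : ∀ s ∈ I, ∀ t ∈ I, s ≤ t → ∃ (N : ℕ) (u : ℕ → G), u 0 = γ s ∧ u N = γ t ∧
      (∀ j ≤ N, Sep S (u j) (γ s) (γ t)) ∧ (∀ j < N, (wdist S (u j) (u (j + 1)) : ℝ) ≤ E) ∧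
      ∀ j ≤ N, ∃ x ∈ γ '' I, (wdist S (u j) x : ℝ) ≤ J := by
    intro s hs t ht hst
    obtain ⟨n, u, θ, -, -, u0, uN, hsep, hθ⟩ :=
      exists_chain hS hI (by linarith) hstep hclose hmid hs ht hst
    refine ⟨n + 1, u, u0, uN, hsep, ?_, ?_⟩
    · intro j hj
      obtain ⟨m1, d1, a1, a2⟩ := hθ j (by omega)
      obtain ⟨m2, d2, b1, b2⟩ := hθ (j + 1) (by omega)
      push_cast at b1 b2
      have c1 : |θ j - θ (j + 1)| ≤ 2 * K := by rw [abs_le]; constructor <;> linarith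
      have c2 := (hq _ m1 _ m2 c1).2
      have c3 := wd_triR hS (u j) (γ (θ j)) (u (j + 1))
      have c4 := wd_triR hS (γ (θ j)) (γ (θ (j + 1))) (u (j + 1))
      rw [wd_comm hS (u j) (γ (θ j))] at c3
      have c5 : l * |θ j - θ (j + 1)| ≤ l * (2 * K) := mul_le_mul_of_nonneg_left c1 (by linarith)
      linarith
    · intro j hj
      obtain ⟨m1, d1, -, -⟩ := hθ j hj
      exact ⟨γ (θ j), ⟨θ j, m1, rfl⟩, by rw [wd_comm hS]; exact d1⟩
  have hchain' : ∀ s ∈ I, ∀ t ∈ I, ∃ (N : ℕ) (u : ℕ → G), u 0 = γ s ∧ u N = γ t ∧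
      (∀ j ≤ N, Sep S (u j) (γ s) (γ t)) ∧ (∀ j < N, (wdist S (u j) (u (j + 1)) : ℝ) ≤ E) ∧
      ∀ j ≤ N, ∃ x ∈ γ '' I, (wdist S (u j) x : ℝ) ≤ J := by
    intro s hs t ht
    rcases le_total s t with h | h
    · exact hchain s hs t ht h
    · obtain ⟨N, u, u0, uN, h1, h2, h3⟩ := hchain t ht s hs h
      refine ⟨N, fun j => u (N - j), by simpa using uN, by simpa using u0,
        fun j _ => (h1 _ (by omega)).symm hS, ?_, fun j _ => h3 _ (by omega)⟩
      intro j hj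
      have := h2 (N - (j + 1)) (by omega)
      rw [show N - (j + 1) + 1 = N - j by omega, wd_comm hS] at this
      exact this
  constructor
  · intro s hs t ht
    rcases le_total s t with h | h
    · exact hglob s hs t ht h
    · rw [abs_sub_comm, wd_comm hS]
      exact hglob t ht s hs h
  · rintro l1 e1 hl1 he1 a b q hab hq1 ⟨s, hs, es⟩ ⟨t, ht, et⟩ p hp
    obtain ⟨N, u, u0, uN, h1, h2, h3⟩ := hchain' s hs t ht
    rw [es] at u0 h1
    rw [et] at uN h1
    obtain ⟨j, hj, d1⟩ := chain_near hS hl1 E0 hq1 u N u0 uN h1 h2 hp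
    obtain ⟨x, hx, d2⟩ := h3 j hj
    refine ⟨x, hx, ?_⟩
    have := wd_triR hS (q p) (u j) x
    exact le_trans (by linarith) (Real.le_coe_toNNReal _)

end Pool.Agent.H282Z.MG
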