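import Mathlib
import Pool.Agent.H282Z.MLocal

set_option autoImplicit false

namespace Pool.Agent.H282Z.MG

variable {G : Type} [Group G] {S : Set G}

/-- `u` is the gate of `x` in the coset `z A` -/
def GateAt (S : Set G) (A : Subgroup G) (z x u : G) : Prop :=
  z⁻¹ * u ∈ A ∧ ∀ w, z⁻¹ * w ∈ A → Sep S u x w

lemma GateAt.sep (hS : Subgroup.closure S = ⊤) {A : Subgroup G} {z x y u v : G}
    (hu : GateAt S A z x u) (hv : GateAt S A z y v) (huv : u ≠ v) :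
    Sep S u x y ∧ Sep S v x y := by
  have h1 := hu.2 v hv.1
  have h2 := hv.2 u hu.1
  constructor
  · rcases h1.split y with h | h
    · exact h
    · exact absurd (Sep.antisymm hS h h2) huv
  · rcases h2.split x with h | h
    · exact h.symm hS
    · exact absurd (Sep.antisymm hS h1 h) huv

lemma dense_of_gates (hS : Subgroup.closure S = ⊤) {ι : Type} (A : ι → Subgroup G)
    (hA : ∀ s ∈ S, ∃ i, s ∈ A i) (hg : ∀ i z x, ∃ u, GateAt S (A i) z x u) {D : ℕ} {x y : G}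
    (hD : ∀ i z u v, GateAt S (A i) z x u → GateAt S (A i) z y v → wdist S u v ≤ D) :
    DenseCut S D x y := by
  have step : ∀ v, Sep S v x y → v ≠ y → ∃ v', Sep S v' x y ∧ wdist S x v < wdist S x v' ∧
      wdist S x v' ≤ wdist S x v + D := by
    intro v hv hne
    obtain ⟨n, hn⟩ : ∃ n, wdist S v y = n + 1 :=
      ⟨wdist S v y - 1, by have := mt (wd_eq_zero hS) hne; omega⟩
    obtain ⟨s, hs, h2⟩ := wd_succ hS hn
    obtain ⟨i, hi⟩ : ∃ i, s ∈ A i := by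
      rcases hs with h | h
      · exact hA s h
      · obtain ⟨i, hi⟩ := hA _ h
        exact ⟨i, by simpa using (A i).inv_mem hi⟩
    obtain ⟨u, hu⟩ := hg i v x
    obtain ⟨v', hv'⟩ := hg i v y
    have hvA : v⁻¹ * v ∈ A i := by simp
    have e1 := (hv'.2 (v * s) (by simpa using hi)).eq hS
    have e2 := (hv'.2 v hvA).eq hS
    have e3 := (hu.2 v hvA).eq hS
    have e4 := (hu.2 v' hv'.1).eq hS
    have e5 := hv.eq hS
    have e6 := hD i v u v' hu hv'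
    have c1 := wd_comm hS y (v * s)
    have c2 := wd_comm hS y v
    have c3 := wd_comm hS y v'
    have c4 := wd_comm hS v v'
    have hne' : v' ≠ v := by
      intro h
      rw [h] at e1
      omega
    have p1 : wdist S v' v ≠ 0 := mt (wd_eq_zero hS) hne'
    have huv : u ≠ v' := by
      intro h
      rw [h] at e3
      have := wd_tri hS x v' y
      omega
    obtain ⟨s1, s2⟩ := hu.sep hS hv' huv
    have e7 := s2.eq hS
    exact ⟨v', s2, by omega, by omega⟩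
  intro r hr
  induction r with
  | zero => exact ⟨x, Sep.left _ _, Nat.zero_le _, by simp [wd_self]⟩
  | succ r ih =>
    obtain ⟨v, h1, h2, h3⟩ := ih (by omega)
    by_cases h : r + 1 ≤ wdist S x v
    · exact ⟨v, h1, h, by omega⟩
    · have hne : v ≠ y := by
        intro h4
        rw [h4] at h
        exact h hr
      obtain ⟨v', k1, k2, k3⟩ := step v h1 hne
      exact ⟨v', k1, by omega, by omega⟩

lemma disc_ivt (f : ℕ → ℝ) {K c : ℝ} (hK : 0 ≤ K) (a k : ℕ)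
    (hf : ∀ i, a ≤ i → i < a + k → |f i - f (i + 1)| ≤ K) (hc : c ∈ Set.uIcc (f a) (f (a + k))) :
    ∃ i, a ≤ i ∧ i ≤ a + k ∧ |f i - c| ≤ K := by
  induction k with
  | zero =>
    refine ⟨a, le_rfl, le_rfl, ?_⟩
    simp only [add_zero, Set.uIcc_self, Set.mem_singleton_iff] at hc
    simp [hc, hK]
  | succ k ih =>
    by_cases h : c ∈ Set.uIcc (f a) (f (a + k))
    · obtain ⟨i, h1, h2, h3⟩ := ih (fun i h1 h2 => hf i h1 (by omega)) h
      exact ⟨i, h1, by omega, h3⟩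
    · refine ⟨a + k, by omega, by omega, ?_⟩
      have h1 := hf (a + k) (by omega) (by omega)
      rw [← add_assoc] at hc
      rw [Set.mem_uIcc] at hc h
      push Not at h
      rw [abs_le] at h1 ⊢
      rcases hc with hc | hc
      · have := h.1 hc.1
        constructor <;> linarith [hc.2, h1.1, h1.2]
      · by_cases h5 : f (a + k) ≤ c
        · have := h.2 h5
          linarith [hc.2]
        · push Not at h5
          constructor <;> linarith [hc.1, h1.1, h1.2]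

/-- an edge path of length `N` which is a quasi-geodesic with constant `4` -/
def Tame (S : Set G) (N : ℕ) (q : ℕ → G) : Prop :=
  ∀ i j, i ≤ j → j ≤ N → wdist S (q i) (q j) ≤ j - i ∧ j - i ≤ 4 * wdist S (q i) (q j)

lemma Tame.real (hS : Subgroup.closure S = ⊤) {N : ℕ} {q : ℕ → G} (h : Tame S N q) {i j : ℕ}
    (hi : i ≤ N) (hj : j ≤ N) : (wdist S (q i) (q j) : ℝ) ≤ |(i : ℝ) - j| ∧
      |(i : ℝ) - j| ≤ 4 * (wdist S (q i) (q j) : ℝ) := by
  rcases le_total i j with hij | hij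
  · obtain ⟨h1, h2⟩ := h i j hij hj
    have : (i : ℝ) ≤ j := by exact_mod_cast hij
    rw [abs_sub_comm, abs_of_nonneg (by linarith), ← Nat.cast_sub hij]
    exact ⟨by exact_mod_cast h1, by exact_mod_cast h2⟩
  · obtain ⟨h1, h2⟩ := h j i hij hi
    have : (j : ℝ) ≤ i := by exact_mod_cast hij
    rw [abs_of_nonneg (by linarith), ← Nat.cast_sub hij, wd_comm hS]
    exact ⟨by exact_mod_cast h1, by exact_mod_cast h2⟩

lemma track (hS : Subgroup.closure S = ⊤) {M : ℝ → ℝ → NNReal} {I : Set ℝ} {γ : ℝ → G}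
    (hM : IsMorse S M (γ '' I)) {J : ℝ} (hJ : 0 ≤ J) {N : ℕ} (hN : 1 ≤ N) {q : ℕ → G}
    (hq : Tame S N q) {τ1 τ2 : ℝ} (h1 : τ1 ∈ I) (h2 : τ2 ∈ I)
    (d1 : (wdist S (γ τ1) (q 0) : ℝ) ≤ J) (d2 : (wdist S (γ τ2) (q N) : ℝ) ≤ J) :
    ∃ θ : ℕ → ℝ, θ 0 = τ1 ∧ θ N = τ2 ∧ ∀ i ≤ N, θ i ∈ I ∧
      (wdist S (q i) (γ (θ i)) : ℝ) ≤ M 4 (1 + 2 * J) + J := by
  classical
  have hN' : (1 : ℝ) ≤ N := by exact_mod_cast hN
  set Q : ℝ → G := fun τ => if τ ≤ 0 then γ τ1 else if (N : ℝ) ≤ τ then γ τ2 else q ⌊τ⌋₊ with hQ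
  have hfl : ∀ τ ∈ Set.Icc (0 : ℝ) N, ⌊τ⌋₊ ≤ N := fun τ hτ => by
    have := Nat.floor_le_floor hτ.2
    simpa using this
  have hc : ∀ τ ∈ Set.Icc (0 : ℝ) N, (wdist S (Q τ) (q ⌊τ⌋₊) : ℝ) ≤ J := by
    intro τ hτ
    simp only [hQ]
    split_ifs with a1 a2
    · have : τ = 0 := le_antisymm a1 hτ.1
      rw [this]; simpa using d1
    · have : τ = N := le_antisymm hτ.2 a2
      rw [this]; simpa using d2
    · simp [wd_self, hJ]
  have hQG : IsQG S 4 (1 + 2 * J) (Set.Icc 0 N) Q := by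
    intro s hs t ht
    obtain ⟨a1, a2⟩ := hq.real hS (hfl s hs) (hfl t ht)
    have c1 := hc s hs
    have c2 := hc t ht
    have f1 := Nat.floor_le hs.1
    have f2 := Nat.lt_floor_add_one s
    have f3 := Nat.floor_le ht.1
    have f4 := Nat.lt_floor_add_one t
    have g1 : |(⌊s⌋₊ : ℝ) - ⌊t⌋₊| ≤ |s - t| + 1 := by
      rw [abs_le]
      constructor <;> linarith [le_abs_self (s - t), neg_abs_le (s - t)]
    have g2 : |s - t| ≤ |(⌊s⌋₊ : ℝ) - ⌊t⌋₊| + 1 := by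
      rw [abs_le]
      constructor <;> linarith [le_abs_self ((⌊s⌋₊ : ℝ) - ⌊t⌋₊), neg_abs_le ((⌊s⌋₊ : ℝ) - ⌊t⌋₊)]
    have t1 := wd_triR hS (Q s) (q ⌊s⌋₊) (Q t)
    have t2 := wd_triR hS (q ⌊s⌋₊) (q ⌊t⌋₊) (Q t)
    have t3 := wd_triR hS (q ⌊s⌋₊) (Q s) (q ⌊t⌋₊)
    have t4 := wd_triR hS (Q s) (Q t) (q ⌊t⌋₊)
    rw [wd_comm hS (q ⌊t⌋₊) (Q t)] at t2
    rw [wd_comm hS (q ⌊s⌋₊) (Q s)] at t3
    have := abs_nonneg (s - t)
    constructor <;> linarith
  have hM' := hM 4 (1 + 2 * J) (by norm_num) (by linarith) 0 N Q (by linarith) hQG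
    ⟨τ1, h1, by simp [hQ]⟩ ⟨τ2, h2, by
      have : ¬ (N : ℝ) ≤ 0 := by linarith
      simp [hQ, this]⟩
  have hex : ∀ i : ℕ, i ≤ N → ∃ θ ∈ I, (wdist S (q i) (γ θ) : ℝ) ≤ M 4 (1 + 2 * J) + J := by
    intro i hi
    have hi' : (i : ℝ) ∈ Set.Icc (0 : ℝ) N := ⟨Nat.cast_nonneg _, by exact_mod_cast hi⟩
    obtain ⟨x, ⟨θ, hθ, rfl⟩, hx⟩ := hM' i hi'
    have c := hc i hi'
    rw [Nat.floor_natCast, wd_comm hS] at c
    have := wd_triR hS (q i) (Q i) (γ θ)
    exact ⟨θ, hθ, by linarith⟩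
  choose! θ hθ using hex
  have M0 : (0 : ℝ) ≤ M 4 (1 + 2 * J) := NNReal.coe_nonneg _
  refine ⟨fun i => if i = 0 then τ1 else if i = N then τ2 else θ i, by simp, by
    have : N ≠ 0 := by omega
    simp [this], ?_⟩
  intro i hi
  dsimp only
  split_ifs with a1 a2
  · subst a1; rw [wd_comm hS]; exact ⟨h1, by linarith⟩
  · subst a2; rw [wd_comm hS]; exact ⟨h2, by linarith⟩
  · exact hθ i hi

/-- the thinness constant -/
noncomputable def thinC (R l e : ℝ) : ℝ := 4 * (2 * R + l * (l * (2 * R + 1 + e)) + e)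

lemma thin (hS : Subgroup.closure S = ⊤) {M : ℝ → ℝ → NNReal} {I : Set ℝ} {γ : ℝ → G}
    {l e : ℝ} (hl : 1 ≤ l) (he : 0 ≤ e) (hγ : IsQG S l e I γ)
    (hM : IsMorse S M (γ '' I)) {J : ℝ} (hJ : 0 ≤ J) {N N' : ℕ} (hN : 1 ≤ N) (hN' : 1 ≤ N')
    {q q' : ℕ → G} (hq : Tame S N q) (hq' : Tame S N' q') (e0 : q' 0 = q 0) (eN : q' N' = q N)
    {τ1 τ2 : ℝ} (h1 : τ1 ∈ I) (h2 : τ2 ∈ I)
    (d1 : (wdist S (γ τ1) (q 0) : ℝ) ≤ J) (d2 : (wdist S (γ τ2) (q N) : ℝ) ≤ J) {i : ℕ}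
    (hi : i ≤ N) : ∃ i' ≤ N', (wdist S (q i) (q' i') : ℝ) ≤ thinC (M 4 (1 + 2 * J) + J) l e := by
  obtain ⟨θ, θ0, θN, hθ⟩ := track hS hM hJ hN hq h1 h2 d1 d2
  obtain ⟨θ', θ0', θN', hθ'⟩ := track hS hM hJ hN' hq' h1 h2 (by rw [e0]; exact d1)
    (by rw [eN]; exact d2)
  have M0 : (0 : ℝ) ≤ M 4 (1 + 2 * J) := NNReal.coe_nonneg _
  set R : ℝ := M 4 (1 + 2 * J) + J with hR
  set K : ℝ := l * (2 * R + 1 + e) with hK
  have R0 : 0 ≤ R := by linarith
  have K0 : 0 ≤ K := by positivity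
  have C0 : 0 ≤ 2 * R + l * K + e := by positivity
  have hstep : ∀ {n : ℕ} {p : ℕ → G} {φ : ℕ → ℝ}, Tame S n p →
      (∀ i ≤ n, φ i ∈ I ∧ (wdist S (p i) (γ (φ i)) : ℝ) ≤ R) →
      ∀ j, j < n → |φ j - φ (j + 1)| ≤ K := by
    intro n p φ hp hφ j hj
    obtain ⟨a1, a2⟩ := hφ j (by omega)
    obtain ⟨b1, b2⟩ := hφ (j + 1) (by omega)
    have c1 : (wdist S (p j) (p (j + 1)) : ℝ) ≤ 1 := by
      have := (hp j (j + 1) (by omega) (by omega)).1
      exact_mod_cast (by omega)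
    have t1 := wd_triR hS (γ (φ j)) (p j) (γ (φ (j + 1)))
    have t2 := wd_triR hS (p j) (p (j + 1)) (γ (φ (j + 1)))
    rw [wd_comm hS (γ (φ j)) (p j)] at t1
    have := hγ.param_le hl a1 b1 (R := 2 * R + 1) (by linarith)
    rw [hK]; linarith
  have hnear : ∀ {x y : G} {a b : ℝ}, a ∈ I → b ∈ I → |a - b| ≤ K →
      (wdist S x (γ a) : ℝ) ≤ R → (wdist S y (γ b) : ℝ) ≤ R →
      (wdist S x y : ℝ) ≤ 2 * R + l * K + e := by
    intro x y a b ha hb hab hx hy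
    have c1 := (hγ a ha b hb).2
    have c2 : l * |a - b| ≤ l * K := mul_le_mul_of_nonneg_left hab (by linarith)
    have t1 := wd_triR hS x (γ a) y
    have t2 := wd_triR hS (γ a) (γ b) y
    rw [wd_comm hS (γ b) y] at t2
    linarith
  unfold thinC
  rw [← hK]
  have tri : θ i ∈ Set.uIcc τ1 τ2 ∨ τ2 ∈ Set.uIcc τ1 (θ i) ∨ τ1 ∈ Set.uIcc (θ i) τ2 := by
    simp only [Set.mem_uIcc]
    rcases le_total τ1 τ2 with a | a <;> rcases le_total τ1 (θ i) with b | b <;>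
      rcases le_total τ2 (θ i) with c | c <;> tauto
  rcases tri with h | h | h
  · obtain ⟨i', -, a2, a3⟩ := disc_ivt θ' K0 0 N' (fun j _ hj => hstep hq' hθ' j (by omega))
      (by rw [zero_add, θ0', θN']; exact h)
    rw [zero_add] at a2
    refine ⟨i', a2, ?_⟩
    have := hnear (hθ i hi).1 (hθ' i' a2).1 (by rw [abs_sub_comm]; exact a3) (hθ i hi).2
      (hθ' i' a2).2
    linarith
  · obtain ⟨i0, -, a2, a3⟩ := disc_ivt θ K0 0 i (fun j _ hj => hstep hq hθ j (by omega))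
      (by rw [zero_add, θ0]; exact h)
    rw [zero_add] at a2
    refine ⟨N', le_rfl, ?_⟩
    have b1 := hnear (hθ i0 (by omega)).1 (hθ N le_rfl).1 (by rw [θN]; exact a3)
      (hθ i0 (by omega)).2 (hθ N le_rfl).2
    have b2 := (hq i0 N (by omega) le_rfl).2
    have b3 := (hq i N hi le_rfl).1
    have b4 : (wdist S (q i) (q N) : ℝ) ≤ 4 * (wdist S (q i0) (q N) : ℝ) := by
      exact_mod_cast (by omega)
    rw [eN]; linarith
  · obtain ⟨i0, a1, a2, a3⟩ := disc_ivt θ K0 i (N - i) (fun j _ hj => hstep hq hθ j (by omega))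
      (by rw [show i + (N - i) = N by omega, θN]; exact h)
    refine ⟨0, Nat.zero_le _, ?_⟩
    have b1 := hnear (hθ 0 (by omega)).1 (hθ i0 (by omega)).1
      (by rw [θ0, abs_sub_comm]; exact a3) (hθ 0 (by omega)).2 (hθ i0 (by omega)).2
    have b2 := (hq 0 i0 (by omega) (by omega)).2
    have b3 := (hq 0 i (by omega) hi).1
    have b4 : (wdist S (q 0) (q i) : ℝ) ≤ 4 * (wdist S (q 0) (q i0) : ℝ) := by
      exact_mod_cast (by omega)
    rw [e0, wd_comm hS]; linarith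

/-- every element of `B` is joined to `1` by a geodesic inside `B` -/
def Conv (S : Set G) (B : Subgroup G) : Prop :=
  ∀ b ∈ B, ∃ p : ℕ → G, p 0 = 1 ∧ (∀ i, wordLength S b ≤ i → p i = b) ∧ (∀ i, p i ∈ B) ∧
    ∀ i j, i ≤ j → wdist S (p i) (p j) = min j (wordLength S b) - min i (wordLength S b)

lemma flat (hS : Subgroup.closure S = ⊤) {B C : Subgroup G} (hB : Conv S B) (hC : Conv S C)
    (hcomm : ∀ b ∈ B, ∀ c ∈ C, b * c = c * b)
    (hadd : ∀ b ∈ B, ∀ c ∈ C, wordLength S (b * c) = wordLength S b + wordLength S c)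
    (hw : ∀ m, ∃ w ∈ C, wordLength S w = m)
    {M : ℝ → ℝ → NNReal} {I : Set ℝ} {γ : ℝ → G}
    {l e : ℝ} (hl : 1 ≤ l) (he : 0 ≤ e) (hγ : IsQG S l e I γ)
    (hM : IsMorse S M (γ '' I)) {J : ℝ} (hJ : 0 ≤ J) {u b c : G} (hb : b ∈ B) (hc : c ∈ C)
    (hbc : wordLength S c ≤ wordLength S b)
    {τ1 τ2 : ℝ} (h1 : τ1 ∈ I) (h2 : τ2 ∈ I)
    (d1 : (wdist S (γ τ1) u : ℝ) ≤ J) (d2 : (wdist S (γ τ2) (u * (b * c)) : ℝ) ≤ J) :
    (wordLength S b : ℝ) ≤ 2 * thinC (M 4 (1 + 2 * J) + J) l e := by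
  have M0 : (0 : ℝ) ≤ M 4 (1 + 2 * J) := NNReal.coe_nonneg _
  have T0 : 0 ≤ thinC (M 4 (1 + 2 * J) + J) l e := by unfold thinC; positivity
  set m := wordLength S b with hm
  rcases Nat.eq_zero_or_pos m with m0 | m0
  · rw [m0]; push_cast; linarith
  obtain ⟨w, hwC, hwm⟩ := hw m
  have hrC : w⁻¹ * c ∈ C := C.mul_mem (C.inv_mem hwC) hc
  obtain ⟨pb, pb0, pbn, pbB, pbd⟩ := hB b hb
  obtain ⟨pc, pc0, pcn, pcC, pcd⟩ := hC c hc
  obtain ⟨pw, pw0, pwn, pwC, pwd⟩ := hC w hwC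
  obtain ⟨pr, pr0, prn, prC, prd⟩ := hC _ hrC
  set n3 := wordLength S (w⁻¹ * c) with hn3
  set nc := wordLength S c with hnc
  rw [← hm] at pbn pbd
  rw [hwm] at pwn pwd
  have n3le : n3 ≤ 2 * m := by
    have := wl_mul hS w⁻¹ c
    rw [wl_inv hS] at this
    omega
  have prodd : ∀ b1 ∈ B, ∀ b2 ∈ B, ∀ c1 ∈ C, ∀ c2 ∈ C,
      wdist S (u * (b1 * c1)) (u * (b2 * c2)) = wdist S b1 b2 + wdist S c1 c2 := by
    intro b1 k1 b2 k2 c1 k3 c2 k4
    rw [wd_left]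
    unfold wdist
    rw [← hadd _ (B.mul_mem (B.inv_mem k1) k2) _ (C.mul_mem (C.inv_mem k3) k4)]
    congr 1
    have := hcomm _ (B.mul_mem (B.inv_mem k1) k2) _ (C.inv_mem k3)
    calc (b1 * c1)⁻¹ * (b2 * c2) = (c1⁻¹ * (b1⁻¹ * b2)) * c2 := by group
      _ = (b1⁻¹ * b2 * c1⁻¹) * c2 := by rw [this]
      _ = b1⁻¹ * b2 * (c1⁻¹ * c2) := by group
  set q : ℕ → G := fun i => u * (pb (i - m) * (pw i * pr (i - 2 * m))) with hq
  set q' : ℕ → G := fun i => u * (pb i * pc (i - m)) with hq'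
  have κ1 : ∀ i j, i ≤ j → j ≤ 2 * m →
      wdist S (pw i * pr (i - 2 * m)) (pw j * pr (j - 2 * m)) = min j m - min i m := by
    intro i j hij hj
    rw [show i - 2 * m = 0 by omega, show j - 2 * m = 0 by omega, pr0, mul_one, mul_one,
      pwd i j hij]
  have κ2 : ∀ i j, i ≤ j → m ≤ i →
      wdist S (pw i * pr (i - 2 * m)) (pw j * pr (j - 2 * m)) =
        min (j - 2 * m) n3 - min (i - 2 * m) n3 := by
    intro i j hij hi
    rw [pwn i hi, pwn j (by omega), wd_left, prd _ _ (by omega)]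
  have qd : ∀ i j, i ≤ j → wdist S (q i) (q j) = (min (j - m) m - min (i - m) m) +
      wdist S (pw i * pr (i - 2 * m)) (pw j * pr (j - 2 * m)) := by
    intro i j hij
    simp only [hq]
    rw [prodd _ (pbB _) _ (pbB _) _ (C.mul_mem (pwC _) (prC _)) _ (C.mul_mem (pwC _) (prC _)),
      pbd _ _ (by omega)]
  have qstep : ∀ i, wdist S (q i) (q (i + 1)) ≤ 1 := by
    intro i
    rw [qd i (i + 1) (by omega)]
    by_cases h : i + 1 ≤ 2 * m
    · rw [κ1 _ _ (by omega) h]; omega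
    · rw [κ2 _ _ (by omega) (by omega)]; omega
  have hqT : Tame S (2 * m + n3) q := by
    intro i j hij hj
    constructor
    · have := path_le hS qstep i (j - i)
      rwa [show i + (j - i) = j by omega] at this
    · rw [qd i j hij]
      by_cases h : j ≤ 2 * m
      · rw [κ1 _ _ hij h]; omega
      · by_cases h' : m ≤ i
        · rw [κ2 _ _ hij h']; omega
        · omega
  have hqT' : Tame S (m + nc) q' := by
    intro i j hij hj
    simp only [hq']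
    rw [prodd _ (pbB _) _ (pbB _) _ (pcC _) _ (pcC _), pbd _ _ hij, pcd _ _ (by omega)]
    omega
  have q0 : q 0 = u := by simp [hq, pb0, pw0, pr0]
  have qN : q (2 * m + n3) = u * (b * c) := by
    simp only [hq]
    rw [pbn _ (by omega), pwn _ (by omega), prn _ (by omega), mul_inv_cancel_left]
  have q0' : q' 0 = q 0 := by rw [q0]; simp [hq', pb0, pc0]
  have qN' : q' (m + nc) = q (2 * m + n3) := by
    rw [qN]
    simp only [hq']
    rw [pbn _ (by omega), pcn _ (by omega)]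
  obtain ⟨i', hi', hd⟩ := thin hS hl he hγ hM hJ (by omega) (by omega) hqT hqT' q0' qN' h1 h2
    (by rw [q0]; exact d1) (by rw [qN]; exact d2) (i := m + m / 2) (by omega)
  have key : m ≤ 2 * wdist S (q (m + m / 2)) (q' i') := by
    simp only [hq, hq']
    rw [prodd _ (pbB _) _ (pbB _) _ (C.mul_mem (pwC _) (prC _)) _ (pcC _),
      show m + m / 2 - m = m / 2 by omega, show m + m / 2 - 2 * m = 0 by omega, pr0, mul_one,
      pwn _ (by omega)]
    by_cases h : i' ≤ m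
    · rw [show i' - m = 0 by omega, pc0]
      have : wdist S w 1 = m := by
        unfold wdist
        rw [mul_one, wl_inv hS, hwm]
      omega
    · rw [pbd _ _ (by omega)]
      omega
  have key' : (m : ℝ) ≤ 2 * (wdist S (q (m + m / 2)) (q' i') : ℝ) := by exact_mod_cast key
  linarith

end Pool.Agent.H282Z.MG
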