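import Mathlib
import Pool.Agent.H282Z.MThin
import Pool.Agent.H282Z.MCount

set_option autoImplicit false

namespace Pool.Agent.H282Z.MG

/-- vertex set: factor, side, index -/
abbrev VV : Type := Bool × Bool × Fin 200

/-- the disjoint union of two complete bipartite graphs -/
def GG : SimpleGraph VV where
  Adj u v := u.1 = v.1 ∧ u.2.1 ≠ v.2.1
  symm := ⟨fun _ _ h => ⟨h.1.symm, h.2.symm⟩⟩
  loopless := ⟨fun _ h => h.2 rfl⟩

abbrev RG : Type := RAAG GG

abbrev gen (v : VV) : RG := PresentedGroup.of v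

abbrev SS : Set RG := raagGens GG

lemma hSS : Subgroup.closure SS = ⊤ := PresentedGroup.closure_range_of _

lemma gen_mem (v : VV) : gen v ∈ SS := ⟨v, rfl⟩

def liftG {K : Type} [Group K] (f : VV → K) (h : ∀ u v, GG.Adj u v → f u * f v = f v * f u) :
    RG →* K :=
  PresentedGroup.toGroup (f := f) (by
    rintro r ⟨u, v, huv, rfl⟩
    simp only [map_mul, map_inv, FreeGroup.lift_apply_of]
    rw [h u v huv]; group)

@[simp] lemma liftG_gen {K : Type} [Group K] (f : VV → K)
    (h : ∀ u v, GG.Adj u v → f u * f v = f v * f u) (v : VV) : liftG f h (gen v) = f v :=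
  PresentedGroup.toGroup.of _

lemma gen_comm {u v : VV} (h : GG.Adj u v) : gen u * gen v = gen v * gen u := by
  have h1 : PresentedGroup.mk (raagRels GG)
      (FreeGroup.of u * FreeGroup.of v * (FreeGroup.of u)⁻¹ * (FreeGroup.of v)⁻¹) = 1 :=
    PresentedGroup.one_of_mem ⟨u, v, h, rfl⟩
  simp only [map_mul, map_inv] at h1
  have h2 : gen u * gen v * (gen u)⁻¹ * (gen v)⁻¹ = 1 := h1
  calc gen u * gen v = (gen u * gen v * (gen u)⁻¹ * (gen v)⁻¹) * (gen v * gen u) := by group
    _ = gen v * gen u := by rw [h2, one_mul]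

lemma le_wl (F : RG → ℕ) (h1 : F 1 = 0) (h : ∀ v g, F (gen v * g) ≤ F g + 1 ∧
    F ((gen v)⁻¹ * g) ≤ F g + 1) (g : RG) : F g ≤ wordLength SS g := by
  obtain ⟨l, e1, h2, rfl⟩ := wl_spec hSS g
  rw [← e1]
  clear e1
  induction l with
  | nil => simp [h1]
  | cons x l ih =>
    have h3 := ih fun y hy => h2 y (by simp [hy])
    rw [List.prod_cons, List.length_cons]
    rcases h2 x (by simp) with ⟨v, rfl⟩ | ⟨v, hv⟩
    · exact (h v _).1.trans (by omega)
    · have : x = (gen v)⁻¹ := by rw [eq_inv_iff_mul_eq_one]; simp only at hv; rw [gen, hv]; simp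
      rw [this]
      exact (h v _).2.trans (by omega)

def io (i j : Bool) : FreeGroup (Fin 200) →* RG := FreeGroup.lift fun n => gen (i, j, n)

def ret (i j : Bool) : RG →* FreeGroup (Fin 200) :=
  liftG (fun v => if v.1 = i ∧ v.2.1 = j then FreeGroup.of v.2.2 else 1) (by
    intro u v h
    by_cases h1 : u.1 = i ∧ u.2.1 = j
    · have h2 : ¬ (v.1 = i ∧ v.2.1 = j) := fun h2 => h.2 (h1.2.trans h2.2.symm)
      simp [h2]
    · simp [h1])

lemma ret_io (i j : Bool) (f : FreeGroup (Fin 200)) : ret i j (io i j f) = f := by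
  have : (ret i j).comp (io i j) = MonoidHom.id _ := by
    ext n
    simp [ret, io]
  exact DFunLike.congr_fun this f

lemma ret_io_ne (i : Bool) {j j' : Bool} (h : j ≠ j') (f : FreeGroup (Fin 200)) :
    ret i j (io i j' f) = 1 := by
  have : (ret i j).comp (io i j') = 1 := by
    ext n
    simp [ret, io, h.symm]
  exact DFunLike.congr_fun this f

def rho (i j : Bool) : RG →* RG := (io i j).comp (ret i j)

lemma rho_gen (i j : Bool) (v : VV) :
    rho i j (gen v) = if v.1 = i ∧ v.2.1 = j then gen v else 1 := by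
  obtain ⟨a, b, n⟩ := v
  simp only [rho, ret, MonoidHom.comp_apply, liftG_gen]
  split_ifs with h
  · obtain ⟨rfl, rfl⟩ := h
    simp [io]
  · simp

def BB (i j : Bool) : Subgroup RG := (io i j).range

lemma rho_mem (i j : Bool) (g : RG) : rho i j g ∈ BB i j := ⟨_, rfl⟩

lemma rho_of_mem {i j : Bool} {b : RG} (h : b ∈ BB i j) : rho i j b = b := by
  obtain ⟨f, rfl⟩ := h
  simp [rho, ret_io]

lemma rho_of_mem_ne {i j j' : Bool} (hj : j ≠ j') {b : RG} (h : b ∈ BB i j') : rho i j b = 1 := by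
  obtain ⟨f, rfl⟩ := h
  simp [rho, ret_io_ne i hj]

lemma gen_mem_BB (v : VV) : gen v ∈ BB v.1 v.2.1 := ⟨FreeGroup.of v.2.2, by simp [io]⟩

lemma BB_comm (i : Bool) {j j' : Bool} (hj : j ≠ j') : ∀ b ∈ BB i j, ∀ c ∈ BB i j',
    b * c = c * b := by
  rintro _ ⟨f, rfl⟩ _ ⟨f', rfl⟩
  have h1 : ∀ n, Commute (gen (i, j, n)) (io i j' f') := by
    intro n
    induction f' using FreeGroup.induction_on with
    | C1 => simp
    | of m =>
      have : Commute (gen (i, j, n)) (gen (i, j', m)) :=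
        gen_comm (u := (i, j, n)) (v := (i, j', m)) ⟨rfl, hj⟩
      simpa [io] using this
    | inv_of m ih => rw [map_inv]; exact ih.inv_right
    | mul x y hx hy => rw [map_mul]; exact hx.mul_right hy
  show Commute (io i j f) (io i j' f')
  induction f using FreeGroup.induction_on with
  | C1 => simp
  | of m => simpa [io] using h1 m
  | inv_of m ih => rw [map_inv]; exact ih.inv_left
  | mul x y hx hy => rw [map_mul]; exact hx.mul_left hy

lemma wl_rho_gen (i j : Bool) (v : VV) : wordLength SS (rho i j (gen v)) ≤ 1 := by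
  rw [rho_gen]
  split_ifs
  · exact wl_letter (Or.inl (gen_mem v))
  · simp [wl_one]

lemma wl_rho_add (i : Bool) {j j' : Bool} (hj : j ≠ j') (g : RG) :
    wordLength SS (rho i j g) + wordLength SS (rho i j' g) ≤ wordLength SS g := by
  refine le_wl (fun g => wordLength SS (rho i j g) + wordLength SS (rho i j' g))
    (by simp [wl_one]) ?_ g
  intro v g
  have a1 := wl_rho_gen i j v
  have a2 := wl_rho_gen i j' v
  have a3 : rho i j (gen v) = 1 ∨ rho i j' (gen v) = 1 := by
    rw [rho_gen, rho_gen]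
    by_cases h : v.1 = i ∧ v.2.1 = j
    · right
      rw [if_neg]
      exact fun h2 => hj (h.2.symm.trans h2.2)
    · left; rw [if_neg h]
  simp only [map_mul, map_inv]
  have b1 := wl_mul hSS (rho i j (gen v)) (rho i j g)
  have b2 := wl_mul hSS (rho i j' (gen v)) (rho i j' g)
  have b3 := wl_mul hSS (rho i j (gen v))⁻¹ (rho i j g)
  have b4 := wl_mul hSS (rho i j' (gen v))⁻¹ (rho i j' g)
  rw [wl_inv hSS] at b3 b4
  rcases a3 with h | h
  · rw [h, inv_one, one_mul]; omega
  · rw [h, inv_one, one_mul]; omega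

lemma BB_add (i : Bool) {j j' : Bool} (hj : j ≠ j') : ∀ b ∈ BB i j, ∀ c ∈ BB i j',
    wordLength SS (b * c) = wordLength SS b + wordLength SS c := by
  intro b hb c hc
  apply le_antisymm (wl_mul hSS b c)
  have := wl_rho_add i hj (b * c)
  rwa [map_mul, map_mul, rho_of_mem hb, rho_of_mem hc, rho_of_mem_ne hj hc,
    rho_of_mem_ne hj.symm hb, mul_one, one_mul] at this

lemma BB_conv (i j : Bool) : Conv SS (BB i j) := by
  intro b hb
  have hd : wdist SS 1 b = wordLength SS b := by simp [wdist]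
  obtain ⟨p, p0, pn, ps⟩ := exists_path hSS _ 1 b hd
  have hstep : ∀ k, wdist SS (rho i j (p k)) (rho i j (p (k + 1))) ≤ 1 := by
    intro k
    have h1 := step_le_one (ps k)
    have h2 := wl_rho_add i (j := j) (j' := !j) (by simp) ((p k)⁻¹ * p (k + 1))
    unfold wdist at h1 ⊢
    rw [← map_inv, ← map_mul]
    omega
  have hn : ∀ k, wordLength SS b ≤ k → rho i j (p k) = b := fun k hk => by
    rw [pn k hk, rho_of_mem hb]
  refine ⟨fun k => rho i j (p k), by simp [p0], hn, fun k => rho_mem _ _ _, ?_⟩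
  intro k m hkm
  have hg : ∀ k m, k ≤ m → m ≤ wordLength SS b →
      wdist SS (rho i j (p k)) (rho i j (p m)) = m - k := fun k m h1 h2 =>
    path_geo hSS (p := fun k => rho i j (p k)) hstep (by
      simp only [p0, map_one, hn _ le_rfl, hd]) h1 h2
  dsimp only
  by_cases h1 : m ≤ wordLength SS b
  · rw [hg k m hkm h1]; omega
  · rw [hn m (by omega)]
    by_cases h2 : k ≤ wordLength SS b
    · have := hg k _ h2 le_rfl
      rw [hn _ le_rfl] at this
      rw [this]; omega
    · rw [hn k (by omega), wd_self]; omega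

def chi : RG →* Multiplicative ℤ := liftG (fun _ => Multiplicative.ofAdd 1) (fun _ _ _ => rfl)

lemma chi_le (g : RG) : (chi g).toAdd.natAbs ≤ wordLength SS g := by
  refine le_wl (fun g => (chi g).toAdd.natAbs) (by simp) ?_ g
  intro v g
  simp only [map_mul, map_inv, chi, liftG_gen, toAdd_mul, toAdd_inv, toAdd_ofAdd]
  omega

lemma wl_pow_le (g : RG) (n : ℕ) : wordLength SS (g ^ n) ≤ n * wordLength SS g := by
  induction n with
  | zero => simp [wl_one]
  | succ n ih =>
    have := wl_mul hSS (g ^ n) g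
    rw [pow_succ, add_mul]
    omega

lemma BB_norm (i j : Bool) (m : ℕ) : ∃ w ∈ BB i j, wordLength SS w = m := by
  refine ⟨gen (i, j, 0) ^ m, (BB i j).pow_mem (gen_mem_BB (i, j, 0)) m, le_antisymm ?_ ?_⟩
  · have h1 := wl_pow_le (gen (i, j, 0)) m
    have h2 := wl_letter (Or.inl (gen_mem (i, j, 0)))
    nlinarith
  · have := chi_le (gen (i, j, 0) ^ m)
    simpa [chi] using this

def AA (i : Bool) : Subgroup RG := Subgroup.closure (gen '' {v | v.1 = i})

lemma gen_mem_AA (v : VV) : gen v ∈ AA v.1 := Subgroup.subset_closure ⟨v, rfl, rfl⟩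

lemma BB_le_AA (i j : Bool) : BB i j ≤ AA i := by
  rintro _ ⟨f, rfl⟩
  induction f using FreeGroup.induction_on with
  | C1 => simp
  | of m => simpa [io] using gen_mem_AA (i, j, m)
  | inv_of m ih => rw [map_inv]; exact (AA i).inv_mem ih
  | mul x y hx hy => rw [map_mul]; exact (AA i).mul_mem hx hy

lemma AA_split {i : Bool} {a : RG} (h : a ∈ AA i) :
    ∃ b ∈ BB i false, ∃ c ∈ BB i true, a = b * c := by
  induction h using Subgroup.closure_induction with
  | mem x hx =>
    obtain ⟨⟨a, j, n⟩, rfl, rfl⟩ := hx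
    cases j
    · exact ⟨_, gen_mem_BB (a, false, n), 1, Subgroup.one_mem _, by simp⟩
    · exact ⟨1, Subgroup.one_mem _, _, gen_mem_BB (a, true, n), by simp⟩
  | one => exact ⟨1, Subgroup.one_mem _, 1, Subgroup.one_mem _, by simp⟩
  | mul x y _ _ hx hy =>
    obtain ⟨b, hb, c, hc, rfl⟩ := hx
    obtain ⟨b', hb', c', hc', rfl⟩ := hy
    refine ⟨b * b', Subgroup.mul_mem _ hb hb', c * c', Subgroup.mul_mem _ hc hc', ?_⟩
    have := BB_comm i (by simp) b' hb' c hc
    calc b * c * (b' * c') = b * (c * b') * c' := by group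
      _ = b * (b' * c) * c' := by rw [this]
      _ = _ := by group
  | inv x _ hx =>
    obtain ⟨b, hb, c, hc, rfl⟩ := hx
    refine ⟨b⁻¹, Subgroup.inv_mem _ hb, c⁻¹, Subgroup.inv_mem _ hc, ?_⟩
    rw [BB_comm i (by simp) b hb c hc, mul_inv_rev]

open Classical in
/-- the permutation used to define the gate map -/
noncomputable def gperm (i : Bool) (v : VV) : Equiv.Perm (RG × RG) where
  toFun p := (gen v * p.1, if v.1 = i ∧ p.1 ∈ AA i then gen v * p.2 else p.2)
  invFun p := ((gen v)⁻¹ * p.1, if v.1 = i ∧ p.1 ∈ AA i then (gen v)⁻¹ * p.2 else p.2)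
  left_inv := by
    rintro ⟨x, a⟩
    by_cases h : v.1 = i
    · have h1 : gen v * x ∈ AA i ↔ x ∈ AA i := (AA i).mul_mem_cancel_left (h ▸ gen_mem_AA v)
      by_cases hx : x ∈ AA i <;> simp [h, h1, hx]
    · simp [h]
  right_inv := by
    rintro ⟨x, a⟩
    by_cases h : v.1 = i
    · have h1 : (gen v)⁻¹ * x ∈ AA i ↔ x ∈ AA i :=
        (AA i).mul_mem_cancel_left ((AA i).inv_mem (h ▸ gen_mem_AA v))
      by_cases hx : x ∈ AA i <;> simp [h, h1, hx]
    · simp [h]

noncomputable def gact (i : Bool) : RG →* Equiv.Perm (RG × RG) :=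
  liftG (gperm i) (by
    intro u v huv
    ext1 ⟨x, a⟩
    have hc := gen_comm huv
    have e : u.1 = v.1 := huv.1
    by_cases h : v.1 = i
    · have h' : u.1 = i := e.trans h
      have h1 : gen v * x ∈ AA i ↔ x ∈ AA i := (AA i).mul_mem_cancel_left (h ▸ gen_mem_AA v)
      have h2 : gen u * x ∈ AA i ↔ x ∈ AA i := (AA i).mul_mem_cancel_left (h' ▸ gen_mem_AA u)
      by_cases hx : x ∈ AA i <;> simp [gperm, h, h', h1, h2, hx, ← mul_assoc, hc]
    · have h' : ¬ u.1 = i := e ▸ h
      simp [gperm, h, h', ← mul_assoc, hc])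

lemma gact_fst (i : Bool) (g : RG) : ∀ p : RG × RG, (gact i g p).1 = g * p.1 := by
  have hg : g ∈ Subgroup.closure SS := by rw [hSS]; trivial
  induction hg using Subgroup.closure_induction_left with
  | one => simp
  | mul_left x hx y _ ih =>
    obtain ⟨v, rfl⟩ := hx
    intro p
    rw [map_mul, Equiv.Perm.mul_apply, mul_assoc, ← ih p]
    simp [gact, gperm]
  | inv_mul_cancel x hx y _ ih =>
    obtain ⟨v, rfl⟩ := hx
    intro p
    rw [map_mul, map_inv, Equiv.Perm.mul_apply, mul_assoc, ← ih p]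
    simp [gact, gperm, Equiv.Perm.inv_def]

noncomputable def zeta (i : Bool) (g : RG) : RG := (gact i g (1, 1)).2

open Classical in
lemma zeta_gen (i : Bool) (v : VV) (g : RG) :
    zeta i (gen v * g) = (if v.1 = i ∧ g ∈ AA i then gen v * zeta i g else zeta i g) ∧
    zeta i ((gen v)⁻¹ * g) =
      (if v.1 = i ∧ g ∈ AA i then (gen v)⁻¹ * zeta i g else zeta i g) := by
  have h1 := gact_fst i g (1, 1)
  rw [mul_one] at h1
  have h2 : gact i (gen v) = gperm i v := liftG_gen _ _ v
  unfold zeta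
  constructor
  · rw [map_mul, Equiv.Perm.mul_apply, h2]
    simp [gperm, h1]
  · rw [map_mul, map_inv, Equiv.Perm.mul_apply, h2]
    simp [gperm, Equiv.Perm.inv_def, h1]

lemma zeta_one (i : Bool) : zeta i 1 = 1 := by simp [zeta]

lemma zeta_mem (i : Bool) (g : RG) : zeta i g ∈ AA i := by
  have hg : g ∈ Subgroup.closure SS := by rw [hSS]; trivial
  induction hg using Subgroup.closure_induction_left with
  | one => rw [zeta_one]; exact (AA i).one_mem
  | mul_left x hx y _ ih =>
    obtain ⟨v, rfl⟩ := hx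
    rw [(zeta_gen i v y).1]
    split_ifs with h
    · exact (AA i).mul_mem (h.1 ▸ gen_mem_AA v) ih
    · exact ih
  | inv_mul_cancel x hx y _ ih =>
    obtain ⟨v, rfl⟩ := hx
    rw [(zeta_gen i v y).2]
    split_ifs with h
    · exact (AA i).mul_mem ((AA i).inv_mem (h.1 ▸ gen_mem_AA v)) ih
    · exact ih

lemma zeta_of_mem {i : Bool} {g : RG} (hg : g ∈ AA i) : zeta i g = g := by
  induction hg using Subgroup.closure_induction_left with
  | one => exact zeta_one i
  | mul_left x hx y hy ih =>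
    obtain ⟨v, hv, rfl⟩ := hx
    rw [(zeta_gen i v y).1, if_pos ⟨hv, hy⟩, ih]
  | inv_mul_cancel x hx y hy ih =>
    obtain ⟨v, hv, rfl⟩ := hx
    rw [(zeta_gen i v y).2, if_pos ⟨hv, hy⟩, ih]

noncomputable def eta (i : Bool) (x : RG) : RG := (zeta i x⁻¹)⁻¹

lemma eta_mem (i : Bool) (x : RG) : eta i x ∈ AA i := (AA i).inv_mem (zeta_mem i _)

lemma eta_of_mem {i : Bool} {x : RG} (h : x ∈ AA i) : eta i x = x := by
  rw [eta, zeta_of_mem ((AA i).inv_mem h), inv_inv]

lemma eta_gen {i : Bool} {v : VV} {x : RG} (h : ¬ (v.1 = i ∧ x ∈ AA i)) :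
    eta i (x * gen v) = eta i x ∧ eta i (x * (gen v)⁻¹) = eta i x := by
  have h' : ¬ (v.1 = i ∧ x⁻¹ ∈ AA i) := by rwa [Subgroup.inv_mem_iff]
  unfold eta
  rw [mul_inv_rev, mul_inv_rev, inv_inv, (zeta_gen i v _).1, (zeta_gen i v _).2, if_neg h', if_neg h']
  exact ⟨rfl, rfl⟩

lemma eta_sep (i : Bool) (x : RG) {w : RG} (hw : w ∈ AA i) : Sep SS (eta i x) x w := by
  by_cases hx : x = eta i x
  · exact Or.inl hx
  refine Or.inr (Or.inr fun h => ?_)
  have key : ∀ y, Relation.ReflTransGen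
      (fun a b => a ≠ eta i x ∧ b ≠ eta i x ∧ wdist SS a b ≤ 1) x y →
      eta i y = eta i x ∧ y ∉ AA i := by
    intro y hy
    induction hy with
    | refl => exact ⟨rfl, fun h => hx (eta_of_mem h).symm⟩
    | @tail b c _ hbc ih =>
      obtain ⟨_, h2, h3⟩ := hbc
      have e : eta i c = eta i b := by
        rcases wl_le_one hSS h3 with k | ⟨v, k⟩ | ⟨v, k⟩
        · rw [inv_mul_eq_one.1 k]
        · have : c = b * gen v := by simp only at k; rw [gen, k]; simp
          rw [this]; exact (eta_gen fun h => ih.2 h.2).1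
        · have : c = b * (gen v)⁻¹ := by simp only at k; rw [gen, k]; simp
          rw [this]; exact (eta_gen fun h => ih.2 h.2).2
      refine ⟨e.trans ih.1, fun hc => h2 ?_⟩
      rw [← ih.1, ← e, eta_of_mem hc]
  exact (key w h).2 hw

lemma exists_gate (i : Bool) (z x : RG) : ∃ u, GateAt SS (AA i) z x u := by
  refine ⟨z * eta i (z⁻¹ * x), by simpa using eta_mem i _, fun w hw => ?_⟩
  simpa using (eta_sep i (z⁻¹ * x) hw).mul z

end Pool.Agent.H282Z.MG
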