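import Mathlib
import Pool.Agent.H282Z.MRaag

set_option autoImplicit false

namespace Pool.Agent.H282Z.MG

open Filter

/-- bound for the penetration of a Morse quasi-geodesic into a coset of a factor -/
noncomputable def penD (M : ℝ → ℝ → NNReal) (l e : ℝ) : ℕ :=
  ⌈4 * thinC (M 4 (1 + 2 * (l + e)) + (l + e)) l e⌉₊

lemma pen {M : ℝ → ℝ → NNReal} {l e : ℝ} (hl : 1 ≤ l) (he : 0 ≤ e) {γ : ℝ → RG} {s t : ℝ}
    (hst : s ≤ t) (hγ : IsQG SS l e (Set.Icc s t) γ) (hM : IsMorse SS M (γ '' Set.Icc s t))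
    {i : Bool} {z u v : RG} (hu : GateAt SS (AA i) z (γ s) u) (hv : GateAt SS (AA i) z (γ t) v) :
    wdist SS u v ≤ penD M l e := by
  by_cases huv : u = v
  · rw [huv, wd_self]; exact Nat.zero_le _
  obtain ⟨s1, s2⟩ := hu.sep hSS hv huv
  obtain ⟨τ1, h1, d1⟩ := near_of_sep' hSS hst (hγ.step hl) s1
  obtain ⟨τ2, h2, d2⟩ := near_of_sep' hSS hst (hγ.step hl) s2
  have hA : u⁻¹ * v ∈ AA i := by
    have := (AA i).mul_mem ((AA i).inv_mem hu.1) hv.1
    simpa [mul_assoc] using this
  obtain ⟨b, hb, c, hc, e1⟩ := AA_split hA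
  have e2 : v = u * (b * c) := by rw [← e1]; simp
  have e3 : wdist SS u v = wordLength SS b + wordLength SS c := by
    unfold wdist
    rw [e1, BB_add i (by simp) b hb c hc]
  have key : (wdist SS u v : ℝ) ≤ 4 * thinC (M 4 (1 + 2 * (l + e)) + (l + e)) l e := by
    rw [e3]
    push_cast
    rcases le_total (wordLength SS c) (wordLength SS b) with h | h
    · have := flat hSS (BB_conv i false) (BB_conv i true) (BB_comm i (by simp))
        (BB_add i (by simp)) (BB_norm i true) hl he hγ hM (by linarith) hb hc h h1 h2 d1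
        (by rw [← e2]; exact d2)
      have h' : (wordLength SS c : ℝ) ≤ wordLength SS b := by exact_mod_cast h
      linarith
    · have := flat hSS (BB_conv i true) (BB_conv i false) (BB_comm i (by simp))
        (BB_add i (by simp)) (BB_norm i false) hl he hγ hM (by linarith) hc hb h h1 h2 d1
        (by rw [← BB_comm i (by simp) b hb c hc, ← e2]; exact d2)
      have h' : (wordLength SS b : ℝ) ≤ wordLength SS c := by exact_mod_cast h
      linarith
  have := key.trans (Nat.le_ceil _)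
  exact_mod_cast this

theorem mltg : MorseLocalToGlobal SS := by
  intro M l e hl he
  obtain ⟨L, M', l', e', hL, hl', he', h⟩ := ltg hSS hl he (penD M l e)
  refine ⟨L, M', l', e', hL, hl', he', fun I γ hI hloc => h I γ hI ?_ ?_⟩
  · intro s hs t ht hst
    rcases le_total s t with k | k
    · rw [abs_sub_comm, abs_of_nonneg (by linarith)] at hst
      exact (hloc s hs t ht k hst).1 s ⟨le_rfl, k⟩ t ⟨k, le_rfl⟩
    · rw [abs_of_nonneg (by linarith)] at hst
      exact (hloc t ht s hs k hst).1 s ⟨k, le_rfl⟩ t ⟨le_rfl, k⟩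
  · intro s hs t ht k hst
    obtain ⟨h1, h2⟩ := hloc s hs t ht k hst
    refine dense_of_gates hSS AA ?_ exists_gate fun i z u v hu hv => pen hl he k h1 h2 hu hv
    rintro _ ⟨v, rfl⟩
    exact ⟨v.1, gen_mem_AA v⟩

/-! letters -/

abbrev LL : Type := Option (Bool × Bool × (Fin 200 × Bool))

def ev : LL → RG
  | none => 1
  | some p => io p.1 p.2.1 (FreeGroup.mk [p.2.2])

def iv : LL → LL
  | none => none
  | some p => some (p.1, p.2.1, (p.2.2.1, !p.2.2.2))

lemma ev_iv (a : LL) : ev (iv a) = (ev a)⁻¹ := by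
  rcases a with _ | p
  · simp [ev, iv]
  · simp only [ev, iv]
    rw [← map_inv, inv_letter]

lemma ev_gen (v : VV) : ev (some (v.1, v.2.1, (v.2.2, true))) = gen v := by
  show io v.1 v.2.1 (FreeGroup.of v.2.2) = gen v
  simp [io]

lemma exists_ev {n : ℕ} {g : RG} (h : wordLength SS g ≤ n) :
    ∃ w : List LL, w.length = n ∧ (w.map ev).prod = g := by
  obtain ⟨l, e1, h2, rfl⟩ := wl_spec hSS g
  have key : ∀ l : List RG, (∀ x ∈ l, x ∈ SS ∨ x⁻¹ ∈ SS) → ∃ w : List LL, w.map ev = l := by
    intro l hl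
    induction l with
    | nil => exact ⟨[], rfl⟩
    | cons x l ih =>
      obtain ⟨w, hw⟩ := ih fun y hy => hl y (by simp [hy])
      have : ∃ a, ev a = x := by
        rcases hl x (by simp) with ⟨v, rfl⟩ | ⟨v, hv⟩
        · exact ⟨_, ev_gen v⟩
        · refine ⟨iv (some (v.1, v.2.1, (v.2.2, true))), ?_⟩
          rw [ev_iv, ev_gen]
          simp only at hv
          rw [gen, hv, inv_inv]
      obtain ⟨a, ha⟩ := this
      exact ⟨a :: w, by simp [ha, hw]⟩
  obtain ⟨w, hw⟩ := key l h2
  have hlen : w.length = l.length := by rw [← hw]; simp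
  refine ⟨w ++ List.replicate (n - w.length) none, by simp; omega, ?_⟩
  simp [hw, ev]

lemma ball_sub (A : Set RG) (n : ℕ) : {h | h ∈ A ∧ wordLength SS h ≤ n} ⊆
    (fun w : List LL => (w.map ev).prod) '' (words LL n : Set (List LL)) := by
  rintro h ⟨_, hh⟩
  obtain ⟨w, h1, h2⟩ := exists_ev hh
  exact ⟨w, (mem_words n w).2 h1, h2⟩

lemma ball_finite (A : Set RG) (n : ℕ) : {h | h ∈ A ∧ wordLength SS h ≤ n}.Finite :=
  ((Finset.finite_toSet _).image _).subset (ball_sub A n)

lemma ball_card (A : Set RG) (n : ℕ) :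
    ({h | h ∈ A ∧ wordLength SS h ≤ n}.ncard : ℝ) ≤ (Fintype.card LL : ℝ) ^ n := by
  have h1 := Set.ncard_le_ncard (ball_sub A n) ((Finset.finite_toSet _).image _)
  have h2 := Set.ncard_image_le (f := fun w : List LL => (w.map ev).prod)
    (s := (words LL n : Set (List LL))) (Finset.finite_toSet _)
  rw [Set.ncard_coe_finset, card_words] at h2
  exact_mod_cast h1.trans h2

lemma geod_real {n : ℕ} {p : ℕ → RG} (hp : IsGeodesic SS n p) :
    IsQG SS 1 1 (Set.Icc 0 n) (fun τ => p ⌊τ⌋₊) ∧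
      (fun τ : ℝ => p ⌊τ⌋₊) '' Set.Icc 0 n = p '' Set.Iic n := by
  have hfl : ∀ τ ∈ Set.Icc (0 : ℝ) n, ⌊τ⌋₊ ≤ n := fun τ hτ => by
    have := Nat.floor_le_floor hτ.2
    simpa using this
  constructor
  · intro s hs t ht
    rw [hp _ (hfl s hs) _ (hfl t ht)]
    have f1 := Nat.floor_le hs.1
    have f2 := Nat.lt_floor_add_one s
    have f3 := Nat.floor_le ht.1
    have f4 := Nat.lt_floor_add_one t
    have g1 : |(⌊s⌋₊ : ℝ) - ⌊t⌋₊| ≤ |s - t| + 1 := by
      rw [abs_le]
      constructor <;> linarith [le_abs_self (s - t), neg_abs_le (s - t)]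
    have g2 : |s - t| ≤ |(⌊s⌋₊ : ℝ) - ⌊t⌋₊| + 1 := by
      rw [abs_le]
      constructor <;> linarith [le_abs_self ((⌊s⌋₊ : ℝ) - ⌊t⌋₊), neg_abs_le ((⌊s⌋₊ : ℝ) - ⌊t⌋₊)]
    constructor <;> linarith
  · ext x
    constructor
    · rintro ⟨τ, hτ, rfl⟩
      exact ⟨_, hfl τ hτ, rfl⟩
    · rintro ⟨i, hi, rfl⟩
      exact ⟨i, ⟨Nat.cast_nonneg _, by exact_mod_cast hi⟩, by simp⟩

lemma stable_free {H : Subgroup RG} (hH : IsStable SS H) (i j : Bool) (g : RG)
    (f : FreeGroup (Fin 200)) (hf : g * io i j f * g⁻¹ ∈ H) : f = 1 := by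
  obtain ⟨-, M, hM⟩ := hH
  by_contra hne
  set h := g * io i j f * g⁻¹ with hh
  obtain ⟨u, hu⟩ := exists_gate i g 1
  have hpow : ∀ N : ℕ, h ^ N = g * io i j (f ^ N) * g⁻¹ := fun N => by
    rw [hh, conj_pow, map_pow]
  have hA : ∀ N : ℕ, io i j (f ^ N) ∈ AA i := fun N => BB_le_AA i j ⟨_, rfl⟩
  have hgate : ∀ N : ℕ, GateAt SS (AA i) g (h ^ N) (h ^ N * u) := by
    intro N
    constructor
    · rw [hpow]
      have := (AA i).mul_mem (hA N) hu.1
      simpa [mul_assoc] using this
    · intro w hw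
      have h1 : g⁻¹ * ((h ^ N)⁻¹ * w) ∈ AA i := by
        rw [hpow]
        have := (AA i).mul_mem ((AA i).inv_mem (hA N)) hw
        simpa [mul_assoc] using this
      simpa using (hu.2 _ h1).mul (h ^ N)
  have hb : ∀ N : ℕ, wordLength SS (u⁻¹ * (h ^ N * u)) ≤ penD M 1 1 := by
    intro N
    obtain ⟨p, p0, pn, hp⟩ := exists_geodesic hSS 1 (h ^ N)
    obtain ⟨q1, q2⟩ := geod_real hp
    have hM' := hM _ p hp (by rw [p0]; exact H.one_mem) (by rw [pn]; exact H.pow_mem hf N)
    rw [← q2] at hM'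
    exact pen le_rfl zero_le_one (Nat.cast_nonneg _) q1 hM' (i := i) (z := g)
      (by simpa [p0] using hu) (by simpa [pn] using hgate N)
  have hinj : Function.Injective fun N : ℕ => u⁻¹ * (h ^ N * u) := by
    intro a b hab
    simp only [mul_right_inj, mul_left_inj, hpow] at hab
    have := congrArg (ret i j) hab
    rw [ret_io, ret_io] at this
    exact injective_pow_iff_not_isOfFinOrder.2 (not_isOfFinOrder_of_isMulTorsionFree hne) this
  exact Set.infinite_of_injective_forall_mem hinj (s := {h | h ∈ (Set.univ : Set RG) ∧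
    wordLength SS h ≤ penD M 1 1}) (fun N => ⟨trivial, hb N⟩) (ball_finite _ _)

theorem growth_stable {H : Subgroup RG} (hH : IsStable SS H) : growthRate SS H ≤ 170 := by
  classical
  choose fp hfp1 hfp2 using fun i j => exists_fp (io i j) H (stable_free hH i j)
  let σ : RG → LL → ℤ := fun g a => match a with
    | none => 0
    | some p => (FreeGroup.norm (fp p.1 p.2.1 g) : ℤ) -
        FreeGroup.norm (fp p.1 p.2.1 (g * ev (some p)))
  have hanti : ∀ g a, σ (g * ev a) (iv a) = - σ g a := by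
    intro g a
    rcases a with _ | p
    · simp [σ, iv]
    · have := ev_iv (some p)
      simp only [iv] at this
      simp only [σ, iv, this, mul_inv_cancel_right]
      ring
  have hρ : ∀ g, ∑ a, (20 : ℝ) ^ σ g a ≤ 161 := by
    intro g
    rw [Fintype.sum_option, Fintype.sum_prod_type]
    have : ∀ i : Bool, ∑ y : Bool × (Fin 200 × Bool), (20 : ℝ) ^ σ g (some (i, y)) ≤ 80 := by
      intro i
      rw [Fintype.sum_prod_type]
      have : ∀ j : Bool, ∑ x : Fin 200 × Bool, (20 : ℝ) ^ σ g (some (i, j, x)) ≤ 40 := by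
        intro j
        have h1 := sum_letter_le (fp i j g) (r := 20) (by norm_num)
        simp only [σ, ev, hfp2]
        refine h1.trans ?_
        norm_num
      rw [Fintype.sum_bool]
      linarith [this true, this false]
    rw [Fintype.sum_bool]
    simp only [σ, zpow_zero] at *
    linarith [this true, this false]
  apply growth_le (by norm_num)
  filter_upwards [eventually_ge_atTop 13] with n hn
  have h1 := count_le ev σ iv ev_iv hanti (r := 20) (by norm_num) hρ n
    {h | h ∈ (H : Set RG) ∧ wordLength SS h ≤ n} (by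
      intro h hh g a
      rcases a with _ | p
      · rfl
      · simp only [σ, mul_assoc, hfp1 _ _ h hh.1]) (fun h hh => exists_ev hh.2)
  refine h1.trans ?_
  obtain ⟨k, rfl⟩ := Nat.exists_eq_add_of_le hn
  rw [pow_add, pow_add, ← mul_assoc]
  apply mul_le_mul (by norm_num) (pow_le_pow_left₀ (by norm_num) (by norm_num) k) <;> positivity

theorem growth_top : 200 ≤ growthRate SS (Set.univ : Set RG) := by
  classical
  apply le_growth (by norm_num) (Nat.cast_nonneg _) _ (ball_card _)
  intro n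
  let φ : List (Fin 200) → RG := fun w => io false false (w.map FreeGroup.of).prod
  have hφ : Function.Injective φ := by
    intro a b hab
    have := congrArg (ret false false) hab
    simp only [φ, ret_io] at this
    exact pos_inj this
  have hsub : φ '' (words (Fin 200) n : Set (List (Fin 200))) ⊆
      {h | h ∈ (Set.univ : Set RG) ∧ wordLength SS h ≤ n} := by
    rintro _ ⟨w, hw, rfl⟩
    refine ⟨trivial, ?_⟩
    have h1 := (mem_words n w).1 hw
    have h2 : φ w = (w.map fun m => gen (false, false, m)).prod := by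
      simp only [φ, map_list_prod, List.map_map]
      congr 2
    rw [h2, ← h1]
    have := wl_le (S := SS) (w.map fun m => gen (false, false, m)) (by
      intro x hx
      obtain ⟨m, -, rfl⟩ := List.mem_map.1 hx
      exact Or.inl (gen_mem _))
    simpa using this
  have h3 := Set.ncard_le_ncard hsub (ball_finite _ _)
  rw [Set.ncard_image_of_injective _ hφ, Set.ncard_coe_finset, card_words] at h3
  simp only [Fintype.card_fin] at h3
  exact_mod_cast h3

theorem not_vc : ¬ VirtuallyCyclic RG := by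
  rintro ⟨K, hK, hc⟩
  obtain ⟨N, N0, -, hN⟩ := K.exists_pow_mem_of_index_ne_zero hK.index_ne_zero
    (io false false (FreeGroup.of 0))
  obtain ⟨m, m0, -, hm⟩ := K.exists_pow_mem_of_index_ne_zero hK.index_ne_zero
    (io false false (FreeGroup.of 1))
  let _ := IsCyclic.commGroup (α := K)
  have h1 := congrArg Subtype.val (mul_comm (⟨_, hN⟩ : K) ⟨_, hm⟩)
  have h2 := congrArg (ret false false) h1
  simp only [Subgroup.coe_mul, map_mul, map_pow, ret_io] at h2
  have h3 := pos_inj (a₁ := List.replicate N (0 : Fin 200) ++ List.replicate m 1)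
    (a₂ := List.replicate m 1 ++ List.replicate N 0) (by simpa using h2)
  obtain ⟨N, rfl⟩ := Nat.exists_eq_add_of_lt N0
  obtain ⟨m, rfl⟩ := Nat.exists_eq_add_of_lt m0
  simp [List.replicate_succ] at h3

lemma eta_pow {u v : VV} (h : u.1 ≠ v.1) (n : ℕ) :
    eta u.1 ((gen u * gen v) ^ n * gen u) = gen u := by
  let χ : RG →* Multiplicative ℤ :=
    liftG (fun w => if w.1 = u.1 then 1 else Multiplicative.ofAdd 1) (fun _ _ _ => mul_comm _ _)
  have hχ : AA u.1 ≤ χ.ker := by
    rw [AA, Subgroup.closure_le]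
    rintro _ ⟨w, hw, rfl⟩
    simp only [Set.mem_ofPred_eq] at hw
    simp [χ, hw]
  induction n with
  | zero => simpa using eta_of_mem (gen_mem_AA u)
  | succ n ih =>
    have h1 : (gen u * gen v) ^ (n + 1) ∉ AA u.1 := by
      intro h2
      have h3 := hχ h2
      rw [MonoidHom.mem_ker] at h3
      have h4 := congrArg Multiplicative.toAdd h3
      simp [χ, h.symm] at h4
      omega
    rw [(eta_gen fun k => h1 k.2).1, pow_succ, ← mul_assoc, (eta_gen fun k => h k.1.symm).1, ih]

lemma sep_pow {u v : VV} (h : u.1 ≠ v.1) (n : ℕ) :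
    Sep SS (gen u * gen v) ((gen u * gen v) ^ (n + 1)) 1 := by
  have h1 := eta_sep u.1 ((gen u * gen v) ^ (n + 1)) (AA u.1).one_mem
  rw [pow_succ, ← mul_assoc, (eta_gen fun k => h k.1.symm).1, eta_pow h, mul_assoc,
    ← pow_succ] at h1
  have h2 := eta_sep v.1 ((gen v * gen u) ^ n * gen v) (AA v.1).one_mem
  rw [eta_pow h.symm] at h2
  have h3 := h2.mul (gen u)
  rw [mul_one, ← mul_assoc, ← mul_pow_mul, mul_assoc, ← pow_succ] at h3
  exact h3.trans hSS h1

lemma sep_pow' {u v : VV} (h : u.1 ≠ v.1) (k : ℕ) : ∀ n : ℕ,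
    Sep SS ((gen u * gen v) ^ k) ((gen u * gen v) ^ (k + n)) 1 := by
  induction k with
  | zero => intro n; exact Sep.right _ _
  | succ k ih =>
    intro n
    have h1 := (sep_pow h n).mul ((gen u * gen v) ^ k)
    rw [← pow_succ, ← pow_add, mul_one] at h1
    have h2 := ih (n + 1)
    rw [show k + 1 + n = k + (n + 1) by ring]
    exact h1.trans hSS h2

lemma sep_zpow {u v : VV} (h : u.1 ≠ v.1) {m k n : ℤ} (h1 : m ≤ k) (h2 : k ≤ n) :
    Sep SS ((gen u * gen v) ^ k) ((gen u * gen v) ^ m) ((gen u * gen v) ^ n) := by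
  obtain ⟨a, rfl⟩ := Int.le.dest h1
  obtain ⟨b, rfl⟩ := Int.le.dest h2
  have := ((sep_pow' h a b).mul ((gen u * gen v) ^ m)).symm hSS
  rwa [mul_one, ← zpow_natCast, ← zpow_natCast, ← zpow_add, ← zpow_add, Nat.cast_add,
    ← add_assoc] at this

theorem morse_elt : IsMorseElement SS (gen (false, false, 0) * gen (true, false, 0)) := by
  set g := gen (false, false, 0) * gen (true, false, 0) with hg
  have g2 : wordLength SS g ≤ 2 := by
    have h1 := wl_mul hSS (gen (false, false, 0)) (gen (true, false, 0))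
    have h2 := wl_letter (Or.inl (gen_mem (false, false, 0)))
    have h3 := wl_letter (Or.inl (gen_mem (true, false, 0)))
    rw [hg]
    omega
  have hχ : ∀ k : ℤ, (chi (g ^ k)).toAdd = 2 * k := by
    intro k
    simp [hg, chi]
    ring
  have hlen : ∀ k : ℤ, (wordLength SS (g ^ k) : ℝ) = 2 * |(k : ℝ)| := by
    intro k
    have h1 := chi_le (g ^ k)
    rw [hχ] at h1
    have h2 : wordLength SS (g ^ k) ≤ k.natAbs * 2 := by
      have h3 := wl_pow_le g k.natAbs
      have h4 : k.natAbs * wordLength SS g ≤ k.natAbs * 2 := Nat.mul_le_mul_left _ g2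
      rcases Int.natAbs_eq k with e | e
      · conv_lhs => rw [e, zpow_natCast]
        omega
      · conv_lhs => rw [e, zpow_neg, zpow_natCast, wl_inv hSS]
        omega
    have h5 : wordLength SS (g ^ k) = 2 * k.natAbs := by omega
    rw [h5]
    push_cast
    rw [Nat.cast_natAbs, Int.cast_abs]
  have hd : ∀ m n : ℤ, (wdist SS (g ^ m) (g ^ n) : ℝ) = 2 * |(m : ℝ) - n| := by
    intro m n
    unfold wdist
    rw [← zpow_neg, ← zpow_add, hlen, abs_sub_comm]
    push_cast
    rw [neg_add_eq_sub]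
  refine ⟨?_, fun l e => (chainGauge 2 l e).toNNReal, 2, 0, by norm_num, le_rfl, ?_, ?_⟩
  · rw [isOfFinOrder_iff_pow_eq_one]
    rintro ⟨n, n0, hn⟩
    have := hχ n
    rw [zpow_natCast, hn] at this
    simp at this
    omega
  · intro m n
    rw [hd]
    have := abs_nonneg ((m : ℝ) - n)
    constructor <;> linarith
  · rintro l e hl he a b q hab hq ⟨m, hm⟩ ⟨n, hn⟩ p hp
    simp only at hm hn
    have hch : ∃ (N : ℕ) (κ : ℕ → ℤ), κ 0 = m ∧ κ N = n ∧
        (∀ j ≤ N, Sep SS (g ^ κ j) (g ^ m) (g ^ n)) ∧ ∀ j, |(κ j : ℝ) - κ (j + 1)| = 1 := by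
      rcases le_total m n with h | h
      · obtain ⟨N, rfl⟩ := Int.le.dest h
        refine ⟨N, fun j => m + j, by simp, rfl, fun j hj => sep_zpow (by simp) (by dsimp only; omega)
          (by dsimp only; omega), fun j => by simp⟩
      · obtain ⟨N, rfl⟩ := Int.le.dest h
        refine ⟨N, fun j => n + N - j, by simp, by simp, fun j hj => (sep_zpow (by simp)
          (by dsimp only; omega) (by dsimp only; omega)).symm hSS, fun j => by simp⟩
    obtain ⟨N, κ, κ0, κN, hs, h1⟩ := hch
    rw [hm, hn] at hs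
    obtain ⟨j, -, hj⟩ := chain_near hSS hl (by norm_num : (0 : ℝ) ≤ 2) hq (fun j => g ^ κ j) N
      (by simp only [κ0, hm]) (by simp only [κN, hn]) hs (fun j _ => by
        simp only [hd, h1]; norm_num) hp
    exact ⟨_, ⟨κ j, rfl⟩, hj.trans (Real.le_coe_toNNReal _)⟩

theorem not_join : ¬ IsJoin GG := by
  rintro ⟨P, ⟨u, hu⟩, ⟨v, hv⟩, h⟩
  have h1 := (h u hu v hv).1
  by_cases hw : ((!u.1, false, 0) : VV) ∈ P
  · have := (h _ hw v hv).1
    rw [← h1] at this
    simp at this
  · have := (h u hu _ hw).1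
    simp at this

end Pool.Agent.H282Z.MG
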