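import Pool.Agent.Helper710.QPSurface

set_option autoImplicit false

namespace Pool.Agent.H282Z.QP

open Filter Topology Set Complex ComplexConjugate Pool.Agent.Helper710.QuasiProper
open scoped Manifold ContDiff

theorem continuous_sig : Continuous sig := by
  have hind : IsInducing (fun y : XX => y.1) := IsInducing.subtypeVal
  rw [hind.continuous_iff]
  exact continuous_phi.prodMk continuous_vth.neg

theorem mdiff_sig : MDifferentiable 𝓘(ℂ) 𝓘(ℂ) sig := by
  intro x
  rw [mdifferentiableAt_iff_target]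
  refine ⟨continuous_sig.continuousAt, ?_⟩
  have hnb : ∀ᶠ y in 𝓝 x, (sig y).1 ∈ (goodChart (sig x)).e.source :=
    continuous_sig.continuousAt.eventually
      ((chartX (sig x)).open_source.mem_nhds (goodChart (sig x)).mem)
  rcases (goodChart (sig x)).fst with h | h
  · refine (mdiff_phi x).congr_of_eventuallyEq ?_
    filter_upwards [hnb] with y hy
    exact h _ hy
  · refine (mdiff_vth x).neg.congr_of_eventuallyEq ?_
    filter_upwards [hnb] with y hy
    exact h _ hy

theorem sig_sig (x : XX) : sig (sig x) = x := by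
  apply ext_XX
  · rfl
  · rw [vth_sig, vth_sig, neg_neg]

theorem branch_eq : Branch phi = range br := by
  ext x
  rw [Branch, mem_ofPred_eq, mfderiv_phi_eq_zero_iff, vth_eq_zero_iff]
  exact ⟨fun ⟨n, h⟩ => ⟨n, h.symm⟩, fun ⟨n, h⟩ => ⟨n, h.symm⟩⟩

theorem BB_zero_ne : BB 0 ≠ 0 := by
  refine BB_ne_zero (by simp) fun n h => ?_
  have : (za n : ℝ) = 0 := by exact_mod_cast h.symm
  exact (za_pos n).ne' this

theorem twoSimpleZeros : TwoSimpleZeros phi := by
  obtain ⟨x, hx⟩ := phi_surj (z := 0) (by simp)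
  have hv : vth x ≠ 0 := by
    intro h
    have := vth_sq x
    rw [h, hx] at this
    exact BB_zero_ne (by rw [← this]; ring)
  refine ⟨x, sig x, ?_, ?_, ?_, ?_⟩
  · intro h
    have h1 := congrArg vth h
    rw [vth_sig] at h1
    apply hv
    linear_combination h1 / 2
  · intro z
    constructor
    · intro hz
      exact fibre (hz.trans hx.symm)
    · rintro (rfl | rfl)
      · exact hx
      · exact hx
  · rw [Branch, mem_ofPred_eq, mfderiv_phi_eq_zero_iff]
    exact hv
  · rw [Branch, mem_ofPred_eq, mfderiv_phi_eq_zero_iff, vth_sig]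
    exact neg_ne_zero.2 hv

theorem theta_br_ne (n : ℕ) : theta (br n) ≠ 0 := by
  unfold theta FF
  rw [phi_br, vth_br]
  have h : (1 : ℂ) - za n ≠ 0 := by
    have : (1 : ℝ) - za n ≠ 0 := by linarith [za_lt n]
    exact_mod_cast this
  simpa using h

theorem norm_const_of_empty {ι : Type} [IsEmpty ι] {α : ι → ℂ} {c : ℂ} {b : ℂ → ℂ}
    (hb : IsBlaschkeWith α c b) {z : ℂ} (hz : ‖z‖ < 1) : ‖b z‖ = 1 := by
  rw [hb.2.2.2 z hz, tprod_empty, mul_one]
  exact hb.1

theorem norm_blaschke_le_one {ι : Type} {α : ι → ℂ} {c : ℂ} {b : ℂ → ℂ}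
    (hb : IsBlaschkeWith α c b) {z : ℂ} (hz : ‖z‖ < 1) : ‖b z‖ ≤ 1 := by
  rcases isEmpty_or_nonempty ι with h | ⟨⟨i⟩⟩
  · exact (norm_const_of_empty hb hz).le
  · exact (norm_blaschke_le hb i hz).trans (norm_factor_lt (hb.2.1 i) hz).le

theorem arg_lt {u : ℂ → ℂ} (hu : IsInner u) (x : XX) : ‖u (phi x) * vth x‖ < 1 := by
  rw [norm_mul]
  have h1 := inner_norm_le hu (phi_lt x)
  have h2 := vth_lt x
  nlinarith [norm_nonneg (u (phi x)), norm_nonneg (vth x)]

theorem family_le_one {ℓ : XX → ℂ} (h : ℓ ∈ family phi vth BB) (x : XX) : ‖ℓ x‖ ≤ 1 := by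
  rcases h with ⟨b, ⟨ι, α, c, hb⟩, hl⟩ | rfl | ⟨ι, α, c, b, u, hb, hu, -, hl⟩
  · rw [hl]
    exact norm_blaschke_le_one hb (phi_lt x)
  · exact (vth_lt x).le
  · rw [hl]
    exact norm_blaschke_le_one hb (arg_lt hu x)

theorem factor_self {a : ℂ} : factor a a = 0 := by
  unfold factor
  split_ifs with h
  · exact h
  · simp

theorem norm_factor_eq {a : ℂ} (ha : a ≠ 0) (z : ℂ) :
    ‖factor a z‖ = ‖(a - z) / (1 - conj a * z)‖ := by
  unfold factor
  rw [if_neg ha, norm_mul, norm_div, Complex.norm_real, norm_norm,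
    div_self (norm_ne_zero_iff.2 ha), one_mul]

/-- A member of the family that dominates `theta` is unimodular. -/
theorem family_unimodular {ℓ : XX → ℂ} (h : ℓ ∈ family phi vth BB)
    (hdom : ∀ x, ‖theta x‖ ≤ ‖ℓ x‖) (x : XX) : ‖ℓ x‖ = 1 := by
  rcases h with ⟨b, ⟨ι, α, c, hb⟩, hl⟩ | rfl | ⟨ι, α, c, b, u, hb, hu, -, hl⟩
  · rcases isEmpty_or_nonempty ι with h | ⟨⟨i⟩⟩
    · rw [hl]
      exact norm_const_of_empty hb (phi_lt x)
    · exfalso
      obtain ⟨y, hy⟩ := phi_surj (hb.2.1 i)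
      have h0 : ∀ y' : XX, phi y' = α i → 3 * α i * vth y' + (1 - α i) = 0 := by
        intro y' hy'
        have h1 := hdom y'
        have h2 := norm_blaschke_le hb i (hb.2.1 i)
        rw [factor_self, norm_zero] at h2
        rw [hl, hy'] at h1
        have h3 : theta y' = 0 := norm_le_zero_iff.1 (h1.trans h2)
        unfold theta FF at h3
        rw [div_eq_zero_iff] at h3
        rcases h3 with h3 | h3
        · rwa [hy'] at h3
        · exact absurd h3 (FF_den_ne (phi_lt y') (vth_lt y'))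
      have h1 := h0 y hy
      have h2 := h0 (sig y) hy
      rw [vth_sig] at h2
      have h3 : α i = 1 := by linear_combination -(h1 + h2) / 2
      have h4 := hb.2.1 i
      rw [h3, norm_one] at h4
      exact lt_irrefl _ h4
  · exfalso
    have h1 := hdom (br 0)
    rw [vth_br, norm_zero] at h1
    exact theta_br_ne 0 (norm_le_zero_iff.1 h1)
  · rcases isEmpty_or_nonempty ι with h | ⟨⟨i⟩⟩
    · rw [hl]
      exact norm_const_of_empty hb (arg_lt hu x)
    · exfalso
      have h1 : ∀ y, ‖theta y‖ ≤ ‖factor (α i) (u (phi y) * vth y)‖ := by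
        intro y
        refine (hdom y).trans ?_
        rw [hl]
        exact norm_blaschke_le hb i (arg_lt hu y)
      by_cases h0 : α i = 0
      · have h2 := h1 (br 0)
        rw [h0, vth_br, mul_zero, factor_self, norm_zero] at h2
        exact theta_br_ne 0 (norm_le_zero_iff.1 h2)
      · refine core hu.1 (fun z hz => inner_norm_le hu hz) (hb.2.1 i) h0 fun z hz => ?_
        obtain ⟨y, rfl⟩ := phi_surj hz
        have h2 := h1 y
        have h3 := h1 (sig y)
        rw [norm_factor_eq h0] at h2 h3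
        rw [phi_sig, vth_sig] at h3
        rw [← theta_mul_sig, norm_mul]
        refine (mul_le_mul h2 h3 (norm_nonneg _) (norm_nonneg _)).trans (le_of_eq ?_)
        rw [← norm_mul, div_mul_div_comm]
        unfold GG
        rw [← vth_sq y]
        congr 2 <;> ring

theorem prod_le_single {ℓ : ℕ → XX → ℂ} {n j : ℕ} (hj : j < n)
    (h : ∀ i, i < n → ℓ i ∈ family phi vth BB) (x : XX) :
    ‖∏ i ∈ Finset.range n, ℓ i x‖ ≤ ‖ℓ j x‖ := by
  rw [norm_prod, ← Finset.mul_prod_erase _ _ (Finset.mem_range.2 hj)]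
  refine mul_le_of_le_one_right (norm_nonneg _) ?_
  exact Finset.prod_le_one (fun _ _ => norm_nonneg _) fun i hi =>
    family_le_one (h i (Finset.mem_range.1 (Finset.mem_of_mem_erase hi))) x

theorem not_finite : ¬ IsFiniteProduct (family phi vth BB) theta := by
  rintro ⟨n, ℓ, c, hl, hc, h⟩
  have h1 : ∀ j, j < n → ‖ℓ j (br 0)‖ = 1 := by
    intro j hj
    refine family_unimodular (hl j hj) (fun x => ?_) _
    rw [h x, norm_mul, hc, one_mul]
    exact prod_le_single hj hl x
  have h2 := theta_lt (br 0)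
  rw [h, norm_mul, hc, one_mul, norm_prod,
    Finset.prod_eq_one fun j hj => h1 j (Finset.mem_range.1 hj)] at h2
  exact lt_irrefl _ h2

theorem not_infinite : ¬ IsInfiniteProduct (family phi vth BB) theta := by
  rintro ⟨ℓ, c, hl, hc, h⟩
  have h1 : ∀ j, ‖ℓ j (br 0)‖ = 1 := by
    intro j
    refine family_unimodular (hl j) (fun x => ?_) _
    refine le_of_tendsto (h x).norm ?_
    filter_upwards [eventually_gt_atTop j] with n hn
    rw [norm_mul, hc, one_mul]
    exact prod_le_single hn (fun i _ => hl i) x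
  have h2 : ‖theta (br 0)‖ = 1 := by
    refine tendsto_nhds_unique (h (br 0)).norm ?_
    refine tendsto_const_nhds.congr fun n => ?_
    rw [norm_mul, hc, one_mul, norm_prod, Finset.prod_eq_one fun j _ => h1 j]
  exact (theta_lt (br 0)).ne h2

theorem summable_branch : Summable fun x : Branch phi => 1 - ‖phi x‖ := by
  rw [branch_eq]
  rw [← (Equiv.ofInjective br br_injective).summable_iff]
  exact summable_za

theorem traceProduct : IsTraceProduct phi BB := by
  refine ⟨ℕ, fun n => (za n : ℂ), ?_, ?_, isBlaschkeWith_BB⟩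
  · intro m n h
    exact za_injective (Complex.ofReal_injective h)
  · rw [branch_eq, ← range_comp]
    rfl

theorem main : ∃ (X : Type) (_ : TopologicalSpace X) (_ : ChartedSpace ℂ X)
    (φ ϑ : X → ℂ) (σ : X → X) (B : ℂ → ℂ),
    IsOpenRiemannSurface X ∧ ProperToDisc φ ∧ TwoSimpleZeros φ ∧ (Branch φ).Infinite ∧
    MDifferentiable 𝓘(ℂ) 𝓘(ℂ) σ ∧ (∀ x, φ (σ x) = φ x) ∧ (∀ x, σ (σ x) = x) ∧ σ ≠ id ∧
    Summable (fun x : Branch φ => 1 - ‖φ x‖) ∧ IsTraceProduct φ B ∧
    Holo ϑ ∧ (∀ x, ϑ x ^ 2 = B (φ x)) ∧ (∀ x, ϑ (σ x) = -ϑ x) ∧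
    ∃ θ : X → ℂ, IsQuasiProper θ ∧ ¬ IsFiniteProduct (family φ ϑ B) θ ∧
      ¬ IsInfiniteProduct (family φ ϑ B) θ := by
  refine ⟨XX, inferInstance, inferInstance, phi, vth, sig, BB,
    ⟨inferInstance, inferInstance, inferInstance, inferInstance, inferInstance⟩,
    ⟨mdiff_phi, phi_lt, fun K h1 h2 => isCompact_preimage h2 h1⟩, twoSimpleZeros, ?_, mdiff_sig,
    phi_sig, sig_sig, ?_, summable_branch, traceProduct, mdiff_vth, vth_sq, vth_sig, theta,
    ⟨mdiff_theta, theta_lt, fun f hf => theta_sup hf⟩, not_finite, not_infinite⟩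
  · rw [branch_eq]
    exact infinite_range_of_injective br_injective
  · intro h
    obtain ⟨x, y, hxy, hz, -, -⟩ := twoSimpleZeros
    have h1 : phi x = phi y := by rw [(hz x).2 (Or.inl rfl), (hz y).2 (Or.inr rfl)]
    rcases fibre h1 with h2 | h2
    · exact hxy h2
    · rw [h] at h2
      exact hxy h2

end Pool.Agent.H282Z.QP
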